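import Mathlib
import Pool.Agent.Lib.MP_9837da_co.Tables

/-! The finite checks. -/

namespace Pool.Agent.Lib.MP_9837da_co

noncomputable def Tr.mem (t : Tr) (k : ℕ) : Bool :=
  Tr.rec (motive := fun _ => Bool) false
    (fun _ v _ ia ib => bif Nat.blt k v then ia else bif Nat.blt v k then ib else true) t

noncomputable def Tr.all (t : Tr) (f : ℕ → Bool) : Bool :=
  Tr.rec (motive := fun _ => Bool) true (fun _ v _ ia ib => f v && (ia && ib)) t

lemma Tr.all_of_mem (t : Tr) (f : ℕ → Bool) (k : ℕ) (h : t.all f = true) (hk : t.mem k = true) :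
    f k = true := by
  induction t with
  | l => simp [Tr.mem] at hk
  | n a v b iha ihb =>
    have h' : (f v && (a.all f && b.all f)) = true := h
    have hk' : (bif Nat.blt k v then a.mem k else bif Nat.blt v k then b.mem k else true) = true :=
      hk
    simp only [Bool.and_eq_true] at h'
    by_cases h1 : k < v
    · rw [(Nat.blt_eq).mpr h1] at hk'
      exact iha h'.2.1 hk'
    · have e1 : Nat.blt k v = false := by
        rw [Bool.eq_false_iff]; intro hh; exact h1 ((Nat.blt_eq).mp hh)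
      rw [e1] at hk'
      by_cases h2 : v < k
      · rw [(Nat.blt_eq).mpr h2] at hk'
        exact ihb h'.2.2 hk'
      · have : k = v := by omega
        rw [this]; exact h'.1

lemma Tr.all_n {a b : Tr} {v : ℕ} {f : ℕ → Bool} (hv : f v = true) (ha : a.all f = true)
    (hb : b.all f = true) : (Tr.n a v b).all f = true := by
  show (f v && (a.all f && b.all f)) = true
  rw [hv, ha, hb]; rfl

noncomputable def allB (n : ℕ) (f : ℕ → Bool) : Bool :=
  Nat.rec (motive := fun _ => Bool) true (fun i ih => f i && ih) n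

lemma allB_spec {n : ℕ} {f : ℕ → Bool} (h : allB n f = true) {i : ℕ} (hi : i < n) :
    f i = true := by
  induction n with
  | zero => omega
  | succ n ih =>
    have h' : (f n && allB n f) = true := h
    simp only [Bool.and_eq_true] at h'
    rcases Nat.lt_succ_iff_lt_or_eq.mp hi with h1 | h1
    · exact ih h'.2 h1
    · rw [h1]; exact h'.1

lemma allB_of {n : ℕ} {f : ℕ → Bool} (h : ∀ i < n, f i = true) : allB n f = true := by
  induction n with
  | zero => rfl
  | succ n ih =>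
    show (f n && allB n f) = true
    rw [h n (Nat.lt_succ_self n), ih fun i hi => h i (Nat.lt_succ_of_lt hi)]; rfl

/-- parity of the position carrying the pair `p` -/
def rr (p : ℕ) : ℤ := ((p / 2 % 2 : ℕ) : ℤ)

def key (p0 p1 p3 p4 : ℕ) (d1 d2 ex ey : ℤ) : ℕ :=
  p0 + 16 * p1 + 256 * p3 + 4096 * p4 + 65536 * (d1 + 1).toNat + 1048576 * (d2 + 2).toNat
    + 16777216 * (ex + 8).toNat + 268435456 * (ey + 8).toNat

noncomputable def inA (p0 p1 p3 p4 : ℕ) (d1 d2 ex ey : ℤ) : Bool :=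
  decide (-1 ≤ d1) && decide (d1 ≤ 1) && decide (-2 ≤ d2) && decide (d2 ≤ 2) &&
  decide (-8 ≤ ex) && decide (ex < 8) && decide (-8 ≤ ey) && decide (ey < 8) &&
  tree.mem (key p0 p1 p3 p4 d1 d2 ex ey)

def parOK (p0 p1 p3 p4 : ℕ) (d1 d2 : ℤ) : Bool :=
  decide ((d1 - (rr p1 - rr p0 - rr p4 + rr p3)) % 2 = 0) &&
  decide ((d2 - (rr p3 - 3 * rr p1 + 2 * rr p0)) % 2 = 0)

noncomputable def stepAt (q0 q1 q3 q4 : ℕ) (d1 d2 dx dy : ℤ) : Bool :=
  !decide ((dx + dy) % 3 = 0) || (!parOK q0 q1 q3 q4 d1 d2 ||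
    inA q0 q1 q3 q4 d1 d2 ((dx + dy) / 3) ((2 * dy - dx) / 3))

noncomputable def closeQ (r0 r1 r3 r4 : ℤ) (q0 q1 q3 q4 : ℕ) (d1 d2 ex ey : ℤ) : Bool :=
  stepAt q0 q1 q3 q4 ((d1 - (r1 - r0 - r4 + r3)) / 2) ((d2 - (r3 - 3 * r1 + 2 * r0)) / 2)
    (ex - (r4 * zX (child q4 0) - 2 * r3 * zX (child q3 0) + 2 * r1 * zX (child q1 0)
      - r0 * zX (child q0 0)))
    (ey - (r4 * zY (child q4 0) - 2 * r3 * zY (child q3 0) + 2 * r1 * zY (child q1 0)
      - r0 * zY (child q0 0)))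

noncomputable def closeAt (p0 p1 p3 p4 : ℕ) (d1 d2 ex ey : ℤ) : Bool :=
  allB 2 fun j0 => allB 2 fun j1 => allB 2 fun j3 => allB 2 fun j4 =>
    closeQ (rr p0) (rr p1) (rr p3) (rr p4) (par p0 j0) (par p1 j1) (par p3 j3) (par p4 j4)
      d1 d2 ex ey

noncomputable def closeKey (k : ℕ) : Bool :=
  closeAt (k % 16) (k / 16 % 16) (k / 256 % 16) (k / 4096 % 16)
    (((k / 65536 % 16 : ℕ) : ℤ) - 1) (((k / 1048576 % 16 : ℕ) : ℤ) - 2)
    (((k / 16777216 % 16 : ℕ) : ℤ) - 8) (((k / 268435456 % 16 : ℕ) : ℤ) - 8)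

end Pool.Agent.Lib.MP_9837da_co
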