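import Mathlib
import Pool.Agent.Lib.MP_9837da_co.Check

/-! The finite checks, second part: initial states, short gaps. -/

namespace Pool.Agent.Lib.MP_9837da_co

noncomputable def initIn (a b c d : ℕ) (d1 d2 ex ey : ℤ) : Bool :=
  !decide ((2 * ex - 5 * ey) % 152 = 0) || (!parOK a b c d d1 d2 ||
    inA a b c d d1 d2 (-(3 * ex + 2 * ey) / 152) ((2 * ex - 5 * ey) / 152))

noncomputable def init4 (a b c d : ℕ) (d1 d2 : ℤ) (X Y : ℕ) : Bool :=
  bif Nat.beq (X % 8) 0 then
    (bif Nat.beq (Y % 8) 0 then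
      (bif Nat.beq ((3 * X + 2 * Y) % 152) 104 then
        initIn a b c d d1 d2 ((X : ℤ) - 1024) ((Y : ℤ) - 1024) else true) else true) else true

noncomputable def init3 (r0 r1 r3 r4 a d : ℕ) (d1 d2 : ℤ) : Bool :=
  allB 12 fun b => allB 12 fun c =>
    init4 a b c d d1 d2 (etaX d r4 + 1024 + 2 * etaX b r1 - (2 * etaX c r3 + etaX a r0))
      (etaY d r4 + 1024 + 2 * etaY b r1 - (2 * etaY c r3 + etaY a r0))

noncomputable def init2 (r0 r1 r3 r4 : ℕ) : Bool :=
  allB 12 fun a => allB 12 fun d =>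
    bif Nat.beq ((etaX d r4 + etaX a r0) % 2) 0 then
      (bif Nat.beq ((etaY d r4 + etaY a r0) % 2) 0 then
        init3 r0 r1 r3 r4 a d (-((r1 : ℤ) - r0 - r4 + r3) / 12) (-((r3 : ℤ) - 3 * r1 + 2 * r0) / 12)
      else true) else true

noncomputable def init1 (r0 : ℕ) : Bool :=
  allB 12 fun mm => init2 r0 ((r0 + mm) % 12) ((r0 + 3 * mm) % 12) ((r0 + 4 * mm) % 12)

theorem init_ok : allB 12 init1 = true := by
  refine allB_of fun r hr => ?_
  unfold init1
  refine allB_of fun m hm => ?_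
  interval_cases r <;> interval_cases m <;> decide +kernel

def d3 (P j : ℕ) : ℕ := child (child (child P (j / 4)) (j / 2 % 2)) (j % 2)

def pd (P P' j : ℕ) : ℕ := bif Nat.blt j 8 then d3 P j else d3 P' (j - 8)

noncomputable def lwX (P P' j : ℕ) : ℤ :=
  Nat.rec (motive := fun _ => ℤ) 0 (fun i acc => acc + zX (pd P P' i)) j

noncomputable def lwY (P P' j : ℕ) : ℤ :=
  Nat.rec (motive := fun _ => ℤ) 0 (fun i acc => acc + zY (pd P P' i)) j

noncomputable def baseAt (P P' j0 j1 j3 j4 : ℕ) : Bool :=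
  !inA (pd P P' j0) (pd P P' j1) (pd P P' j3) (pd P P' j4)
    (((j1 : ℤ) - j0) - (j4 - j3)) (((j3 : ℤ) - j1) - 2 * (j1 - j0))
    (lwX P P' j4 - 2 * lwX P P' j3 + 2 * lwX P P' j1 - lwX P P' j0)
    (lwY P P' j4 - 2 * lwY P P' j3 + 2 * lwY P P' j1 - lwY P P' j0)

noncomputable def baseOK : Bool :=
  allB 12 fun P => allB 12 fun P' => bif Nat.beq (nxt P) (P' / 2) then
    (allB 8 fun t => allB 5 fun e => allB 3 fun f => baseAt P P' t (t + 1) (t + 1 + e) (t + 1 + e + f))
    else true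

theorem base_ok : baseOK = true := by
  unfold baseOK
  refine allB_of fun P hP => ?_
  interval_cases P <;> decide +kernel

noncomputable def ltX (P P' y : ℕ) : ℤ :=
  40 * lwX P P' (y / 12) - 16 * lwY P P' (y / 12) + etaX (pd P P' (y / 12)) (y % 12)

noncomputable def ltY (P P' y : ℕ) : ℤ :=
  16 * lwX P P' (y / 12) + 24 * lwY P P' (y / 12) + etaY (pd P P' (y / 12)) (y % 12)

noncomputable def smallAt (P P' y m : ℕ) : Bool :=
  !decide (ltX P P' (y + 4 * m) - 2 * ltX P P' (y + 3 * m) + 2 * ltX P P' (y + m) - ltX P P' y = 0)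
  || !decide (ltY P P' (y + 4 * m) - 2 * ltY P P' (y + 3 * m) + 2 * ltY P P' (y + m) - ltY P P' y = 0)

noncomputable def smallOK : Bool :=
  allB 12 fun P => allB 12 fun P' => bif Nat.beq (nxt P) (P' / 2) then
    (allB 8 fun t => allB 12 fun r => allB (11 - r) fun m => smallAt P P' (12 * t + r) (m + 1))
    else true

theorem small_ok : smallOK = true := by
  unfold smallOK
  refine allB_of fun P hP => ?_
  interval_cases P <;> decide +kernel

end Pool.Agent.Lib.MP_9837da_co
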