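import Mathlib
import Pool.Agent.Lib.MP_9837da_co.Check

/-! Closure of the finite set of states, in pieces. -/

namespace Pool.Agent.Lib.MP_9837da_co

theorem close_t0 : t0.all closeKey = true := by
  unfold t0
  refine Tr.all_n ?_ ?_ ?_ <;> decide +kernel

theorem close_t1 : t1.all closeKey = true := by
  unfold t1
  refine Tr.all_n ?_ ?_ ?_ <;> decide +kernel

theorem close_t2 : t2.all closeKey = true := by
  unfold t2
  refine Tr.all_n ?_ ?_ ?_ <;> decide +kernel

theorem close_t3 : t3.all closeKey = true := by
  unfold t3
  refine Tr.all_n ?_ ?_ ?_ <;> decide +kernel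

theorem close_t4 : t4.all closeKey = true := by
  unfold t4
  refine Tr.all_n ?_ ?_ ?_ <;> decide +kernel

theorem close_t5 : t5.all closeKey = true := by
  unfold t5
  refine Tr.all_n ?_ ?_ ?_ <;> decide +kernel

theorem close_t6 : t6.all closeKey = true := by
  unfold t6
  refine Tr.all_n ?_ ?_ ?_ <;> decide +kernel

theorem close_t7 : t7.all closeKey = true := by
  unfold t7
  refine Tr.all_n ?_ ?_ ?_ <;> decide +kernel

theorem close_t8 : t8.all closeKey = true := by
  unfold t8
  refine Tr.all_n ?_ ?_ ?_ <;> decide +kernel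

theorem close_t9 : t9.all closeKey = true := by
  unfold t9
  refine Tr.all_n ?_ ?_ ?_ <;> decide +kernel

theorem close_t10 : t10.all closeKey = true := by
  unfold t10
  refine Tr.all_n ?_ ?_ ?_ <;> decide +kernel

theorem close_t11 : t11.all closeKey = true := by
  unfold t11
  refine Tr.all_n ?_ ?_ ?_ <;> decide +kernel

theorem close_t12 : t12.all closeKey = true := by
  unfold t12
  refine Tr.all_n ?_ ?_ ?_ <;> decide +kernel

theorem close_t13 : t13.all closeKey = true := by
  unfold t13
  refine Tr.all_n ?_ ?_ ?_ <;> decide +kernel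

theorem close_t14 : t14.all closeKey = true := by
  unfold t14
  refine Tr.all_n ?_ ?_ ?_ <;> decide +kernel

theorem close_t15 : t15.all closeKey = true := by
  unfold t15
  refine Tr.all_n ?_ ?_ ?_ <;> decide +kernel

end Pool.Agent.Lib.MP_9837da_co
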