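import Mathlib
import Pool.Agent.Lib.MP_9837da_co.Check

/-! Closure of the finite set of states, in pieces. -/

namespace Pool.Agent.Lib.MP_9837da_co

theorem close_t16 : t16.all closeKey = true := by
  unfold t16
  refine Tr.all_n ?_ ?_ ?_ <;> decide +kernel

theorem close_t17 : t17.all closeKey = true := by
  unfold t17
  refine Tr.all_n ?_ ?_ ?_ <;> decide +kernel

theorem close_t18 : t18.all closeKey = true := by
  unfold t18
  refine Tr.all_n ?_ ?_ ?_ <;> decide +kernel

theorem close_t19 : t19.all closeKey = true := by
  unfold t19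
  refine Tr.all_n ?_ ?_ ?_ <;> decide +kernel

theorem close_t20 : t20.all closeKey = true := by
  unfold t20
  refine Tr.all_n ?_ ?_ ?_ <;> decide +kernel

theorem close_t21 : t21.all closeKey = true := by
  unfold t21
  refine Tr.all_n ?_ ?_ ?_ <;> decide +kernel

theorem close_t22 : t22.all closeKey = true := by
  unfold t22
  refine Tr.all_n ?_ ?_ ?_ <;> decide +kernel

theorem close_t23 : t23.all closeKey = true := by
  unfold t23
  refine Tr.all_n ?_ ?_ ?_ <;> decide +kernel

theorem close_t24 : t24.all closeKey = true := by
  unfold t24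
  refine Tr.all_n ?_ ?_ ?_ <;> decide +kernel

theorem close_t25 : t25.all closeKey = true := by
  unfold t25
  refine Tr.all_n ?_ ?_ ?_ <;> decide +kernel

theorem close_t26 : t26.all closeKey = true := by
  unfold t26
  refine Tr.all_n ?_ ?_ ?_ <;> decide +kernel

theorem close_t27 : t27.all closeKey = true := by
  unfold t27
  refine Tr.all_n ?_ ?_ ?_ <;> decide +kernel

theorem close_t28 : t28.all closeKey = true := by
  unfold t28
  refine Tr.all_n ?_ ?_ ?_ <;> decide +kernel

theorem close_t29 : t29.all closeKey = true := by
  unfold t29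
  refine Tr.all_n ?_ ?_ ?_ <;> decide +kernel

theorem close_t30 : t30.all closeKey = true := by
  unfold t30
  refine Tr.all_n ?_ ?_ ?_ <;> decide +kernel

theorem close_t31 : t31.all closeKey = true := by
  unfold t31
  refine Tr.all_n ?_ ?_ ?_ <;> decide +kernel

end Pool.Agent.Lib.MP_9837da_co
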