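import Mathlib
import Pool.Agent.Lib.MP_9837da_co.Close0
import Pool.Agent.Lib.MP_9837da_co.Close1

/-! Closure of the finite set of states. -/

namespace Pool.Agent.Lib.MP_9837da_co

theorem close_ok : tree.all closeKey = true := by
  unfold tree
  exact (Tr.all_n (by decide +kernel) (Tr.all_n (by decide +kernel) (Tr.all_n (by decide +kernel) (Tr.all_n (by decide +kernel) (Tr.all_n (by decide +kernel) close_t0
    close_t1)
    (Tr.all_n (by decide +kernel) close_t2
    close_t3))
    (Tr.all_n (by decide +kernel) (Tr.all_n (by decide +kernel) close_t4
    close_t5)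
    (Tr.all_n (by decide +kernel) close_t6
    close_t7)))
    (Tr.all_n (by decide +kernel) (Tr.all_n (by decide +kernel) (Tr.all_n (by decide +kernel) close_t8
    close_t9)
    (Tr.all_n (by decide +kernel) close_t10
    close_t11))
    (Tr.all_n (by decide +kernel) (Tr.all_n (by decide +kernel) close_t12
    close_t13)
    (Tr.all_n (by decide +kernel) close_t14
    close_t15))))
    (Tr.all_n (by decide +kernel) (Tr.all_n (by decide +kernel) (Tr.all_n (by decide +kernel) (Tr.all_n (by decide +kernel) close_t16
    close_t17)
    (Tr.all_n (by decide +kernel) close_t18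
    close_t19))
    (Tr.all_n (by decide +kernel) (Tr.all_n (by decide +kernel) close_t20
    close_t21)
    (Tr.all_n (by decide +kernel) close_t22
    close_t23)))
    (Tr.all_n (by decide +kernel) (Tr.all_n (by decide +kernel) (Tr.all_n (by decide +kernel) close_t24
    close_t25)
    (Tr.all_n (by decide +kernel) close_t26
    close_t27))
    (Tr.all_n (by decide +kernel) (Tr.all_n (by decide +kernel) close_t28
    close_t29)
    (Tr.all_n (by decide +kernel) close_t30
    close_t31)))))

end Pool.Agent.Lib.MP_9837da_co
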