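import Mathlib

/-! Fair splittings of coloured discrete cubes by axes-aligned cuts. -/

namespace Pool.Agent.Lib.MP_9837da_co

/-- The cube `∏ᵢ {aᵢ + 1, …, aᵢ + n} ⊆ ℤ^d`. -/
noncomputable def cube {d : ℕ} (a : Fin d → ℤ) (n : ℕ) : Finset (Fin d → ℤ) :=
  Fintype.piFinset fun i => Finset.Icc (a i + 1) (a i + n)

/-- `Q` has a fair splitting under the colouring `c` with at most `t` cuts. A cut `(i, m)` is the
hyperplane `x_i = m + 1/2`; two points lie in the same piece iff no cut separates them; `part`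
assigns each piece to one of the two parts; every colour occurs equally often in both parts. -/
def HasFairSplitting {d k : ℕ} (c : (Fin d → ℤ) → Fin k) (Q : Finset (Fin d → ℤ)) (t : ℕ) : Prop :=
  ∃ (cuts : Finset (Fin d × ℤ)) (part : (Fin d → ℤ) → Bool), cuts.card ≤ t ∧
    (∀ x ∈ Q, ∀ y ∈ Q, (∀ p ∈ cuts, (x p.1 ≤ p.2 ↔ y p.1 ≤ p.2)) → part x = part y) ∧
    ∀ j : Fin k, (Q.filter fun x => c x = j ∧ part x = true).card =
      (Q.filter fun x => c x = j ∧ part x = false).card

/-- Some `k`-colouring of `ℤ^d` has no cube with a fair splitting using at most `t` cuts. -/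
def Avoidable (t d k : ℕ) : Prop :=
  ∃ c : (Fin d → ℤ) → Fin k, ∀ (a : Fin d → ℤ) (n : ℕ), 1 ≤ n → ¬ HasFairSplitting c (cube a n) t

/-- `g(t, d)`: the least `k` with `Avoidable t d k`, and `∞` if there is none. -/
noncomputable def g (t d : ℕ) : ℕ∞ := ⨅ (k : ℕ) (_ : Avoidable t d k), (k : ℕ∞)

end Pool.Agent.Lib.MP_9837da_co
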