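import Mathlib
import Pool.Agent.Lib.MP_9837da_co.Defs

/-! Fair splittings of squares by one cut, in terms of signed sums. -/

namespace Pool.Agent.Lib.MP_9837da_co

open Finset

lemma card_eq_iff_signed {ι : Type} {k : ℕ} (c : ι → Fin k) (Q : Finset ι) (part : ι → Bool) :
    (∀ j : Fin k, (Q.filter fun x => c x = j ∧ part x = true).card =
      (Q.filter fun x => c x = j ∧ part x = false).card) ↔
    ∀ F : Fin k → ℤ, ∑ x ∈ Q, (if part x = true then F (c x) else -F (c x)) = 0 := by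
  have key : ∀ j : Fin k,
      ∑ x ∈ Q, (if part x = true then (if c x = j then (1 : ℤ) else 0)
        else -(if c x = j then (1 : ℤ) else 0))
      = ((Q.filter fun x => c x = j ∧ part x = true).card : ℤ)
        - ((Q.filter fun x => c x = j ∧ part x = false).card : ℤ) := by
    intro j
    rw [Finset.card_filter, Finset.card_filter]
    push_cast
    rw [← Finset.sum_sub_distrib]
    apply Finset.sum_congr rfl
    intro x _
    by_cases h1 : c x = j <;> cases h2 : part x <;> simp [h1]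
  constructor
  · intro h F
    have e : ∀ x, (if part x = true then F (c x) else -F (c x))
        = ∑ j : Fin k, F j * (if part x = true then (if c x = j then (1 : ℤ) else 0)
          else -(if c x = j then (1 : ℤ) else 0)) := by
      intro x
      cases h2 : part x <;> simp
    simp_rw [e]
    rw [Finset.sum_comm]
    apply Finset.sum_eq_zero
    intro j _
    rw [← Finset.mul_sum, key j, h j, sub_self, mul_zero]
  · intro h j
    have h1 := h (fun i => if i = j then 1 else 0)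
    rw [key j] at h1
    omega

lemma sum_Icc_range (f : ℤ → ℤ) (α : ℤ) (n : ℕ) :
    ∑ u ∈ Finset.Icc (α + 1) (α + n), f u = ∑ i ∈ range n, f (α + 1 + i) := by
  symm
  apply Finset.sum_nbij' (fun i : ℕ => α + 1 + i) (fun u : ℤ => (u - α - 1).toNat)
  · intro i hi
    simp only [mem_range, mem_Icc] at hi ⊢
    omega
  · intro u hu
    simp only [mem_range, mem_Icc] at hu ⊢
    omega
  · intro i _
    omega
  · intro u hu
    simp only [mem_Icc] at hu
    omega
  · intro i _
    rfl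

lemma mem_cube {a x : Fin 2 → ℤ} {n : ℕ} :
    x ∈ cube a n ↔ (a 0 + 1 ≤ x 0 ∧ x 0 ≤ a 0 + n) ∧ (a 1 + 1 ≤ x 1 ∧ x 1 ≤ a 1 + n) := by
  simp [cube, Fin.forall_fin_two]

lemma sum_cube (f : (Fin 2 → ℤ) → ℤ) (a : Fin 2 → ℤ) (n : ℕ) :
    ∑ x ∈ cube a n, f x
      = ∑ i ∈ range n, ∑ j ∈ range n, f ![a 0 + 1 + i, a 1 + 1 + j] := by
  have h1 : ∑ x ∈ cube a n, f x
      = ∑ p ∈ Finset.Icc (a 0 + 1) (a 0 + n) ×ˢ Finset.Icc (a 1 + 1) (a 1 + n), f ![p.1, p.2] := by
    apply Finset.sum_nbij' (fun x : Fin 2 → ℤ => (x 0, x 1)) (fun p : ℤ × ℤ => ![p.1, p.2])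
    · intro x hx
      rw [mem_cube] at hx
      simpa using hx
    · intro p hp
      rw [mem_cube]
      simpa using hp
    · intro x _
      funext i
      fin_cases i <;> rfl
    · intro p _
      rfl
    · intro x _
      congr 1
      funext i
      fin_cases i <;> rfl
  rw [h1, Finset.sum_product, sum_Icc_range (fun u => ∑ v ∈ Finset.Icc (a 1 + 1) (a 1 + n), f ![u, v])]
  apply Finset.sum_congr rfl
  intro i _
  exact sum_Icc_range (fun v => f ![a 0 + 1 + i, v]) (a 1) n

/-- A signed double sum with a threshold. -/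
lemma signed_split (G : ℕ → ℤ) (m : ℕ) :
    ∑ i ∈ range (2 * m), (if i < m then G i else -G i)
      = ∑ i ∈ range m, G i - ∑ i ∈ range m, G (m + i) := by
  rw [two_mul, Finset.sum_range_add, sub_eq_add_neg, ← Finset.sum_neg_distrib]
  congr 1
  · apply Finset.sum_congr rfl
    intro i hi
    rw [if_pos (mem_range.mp hi)]
  · apply Finset.sum_congr rfl
    intro i _
    rw [if_neg (by omega)]

lemma threshold (n M : ℕ) (hn : 1 ≤ n)
    (h : ∑ i ∈ range n, (if i < M then (n : ℤ) else -(n : ℤ)) = 0) : n = 2 * M := by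
  by_cases hM : n ≤ M
  · exfalso
    rw [Finset.sum_congr rfl (g := fun _ => (n : ℤ))
      (fun i hi => if_pos (lt_of_lt_of_le (mem_range.mp hi) hM))] at h
    simp at h
    omega
  · obtain ⟨r, rfl⟩ : ∃ r, n = M + r := ⟨n - M, by omega⟩
    rw [Finset.sum_range_add, Finset.sum_congr rfl (g := fun _ => ((M + r : ℕ) : ℤ))
      (fun i hi => if_pos (mem_range.mp hi)),
      Finset.sum_congr rfl (s₁ := range r) (g := fun _ => -((M + r : ℕ) : ℤ))
      (fun i _ => if_neg (by omega))] at h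
    simp only [sum_const, card_range, nsmul_eq_mul] at h
    have h2 : ((M + r : ℕ) : ℤ) * ((M : ℤ) - r) = 0 := by linarith
    rcases mul_eq_zero.mp h2 with h3 | h3 <;> omega

/-- A fair splitting of a square by at most one cut halves it. -/
lemma halves_of_fair {k : ℕ} (c : (Fin 2 → ℤ) → Fin k) (a : Fin 2 → ℤ) (n : ℕ) (hn : 1 ≤ n)
    (h : HasFairSplitting c (cube a n) 1) :
    ∃ m : ℕ, n = 2 * m ∧
      ((∀ F : Fin k → ℤ,
        ∑ i ∈ range m, ∑ j ∈ range (2 * m), F (c ![a 0 + 1 + i, a 1 + 1 + j])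
          = ∑ i ∈ range m, ∑ j ∈ range (2 * m), F (c ![a 0 + 1 + (m + i : ℕ), a 1 + 1 + j])) ∨
      (∀ F : Fin k → ℤ,
        ∑ j ∈ range m, ∑ i ∈ range (2 * m), F (c ![a 0 + 1 + i, a 1 + 1 + j])
          = ∑ j ∈ range m, ∑ i ∈ range (2 * m), F (c ![a 0 + 1 + i, a 1 + 1 + (m + j : ℕ)]))) := by
  obtain ⟨cuts, part, hcard, hpart, hfair⟩ := h
  rw [card_eq_iff_signed] at hfair
  obtain ⟨i0, m0, hsub⟩ : ∃ (i0 : Fin 2) (m0 : ℤ), ∀ p ∈ cuts, p = (i0, m0) := by
    rcases Finset.card_le_one_iff_subset_singleton.mp hcard with ⟨p, hp⟩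
    exact ⟨p.1, p.2, fun q hq => Finset.mem_singleton.mp (hp hq)⟩
  have hpart' : ∀ x ∈ cube a n, ∀ y ∈ cube a n, (x i0 ≤ m0 ↔ y i0 ≤ m0) → part x = part y := by
    intro x hx y hy hxy
    apply hpart x hx y hy
    intro p hp
    rw [hsub p hp]
    exact hxy
  obtain ⟨b1, hb1⟩ : ∃ b1 : Bool, ∀ x ∈ cube a n, x i0 ≤ m0 → part x = b1 := by
    by_cases hex : ∃ y ∈ cube a n, y i0 ≤ m0
    · obtain ⟨y, hy, hy'⟩ := hex
      exact ⟨part y, fun x hx hx' => hpart' x hx y hy (by simp [hx', hy'])⟩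
    · exact ⟨true, fun x hx hx' => absurd ⟨x, hx, hx'⟩ hex⟩
  obtain ⟨b2, hb2⟩ : ∃ b2 : Bool, ∀ x ∈ cube a n, ¬ x i0 ≤ m0 → part x = b2 := by
    by_cases hex : ∃ y ∈ cube a n, ¬ y i0 ≤ m0
    · obtain ⟨y, hy, hy'⟩ := hex
      exact ⟨part y, fun x hx hx' => hpart' x hx y hy (by simp [hx', hy'])⟩
    · exact ⟨true, fun x hx hx' => absurd ⟨x, hx, hx'⟩ hex⟩
  have hne : b1 ≠ b2 := by
    rintro rfl
    have h1 := hfair (fun _ => 1)
    rw [Finset.sum_congr rfl (g := fun _ => if b1 = true then (1 : ℤ) else -1)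
      (fun x hx => by
        have : part x = b1 := by
          by_cases hx' : x i0 ≤ m0
          · exact hb1 x hx hx'
          · exact hb2 x hx hx'
        rw [this]), sum_cube] at h1
    simp only [sum_const, card_range, nsmul_eq_mul] at h1
    cases b1 <;> simp at h1 <;> omega
  have hsigned : ∀ F : Fin k → ℤ,
      ∑ x ∈ cube a n, (if x i0 ≤ m0 then F (c x) else -F (c x)) = 0 := by
    intro F
    cases b1
    · have hb : b2 = true := by cases b2 <;> simp_all
      subst hb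
      rw [← hfair (fun j => -F j)]
      apply Finset.sum_congr rfl
      intro x hx
      by_cases hx' : x i0 ≤ m0
      · simp [hx', hb1 x hx hx']
      · simp [hx', hb2 x hx hx']
    · have hb : b2 = false := by cases b2 <;> simp_all
      subst hb
      rw [← hfair F]
      apply Finset.sum_congr rfl
      intro x hx
      by_cases hx' : x i0 ≤ m0
      · simp [hx', hb1 x hx hx']
      · simp [hx', hb2 x hx hx']
  refine ⟨(m0 - a i0).toNat, ?_⟩
  set M := (m0 - a i0).toNat with hM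
  fin_cases i0
  · have hs : ∀ F : Fin k → ℤ, ∑ i ∈ range n,
        (if i < M then ∑ j ∈ range n, F (c ![a 0 + 1 + i, a 1 + 1 + j])
          else -∑ j ∈ range n, F (c ![a 0 + 1 + i, a 1 + 1 + j])) = 0 := by
      intro F
      rw [← hsigned F, sum_cube]
      apply Finset.sum_congr rfl
      intro i _
      have hiff : (a 0 + 1 + (i : ℤ) ≤ m0) ↔ i < M := by
        simp only [Fin.zero_eta] at hM
        omega
      by_cases hi : i < M
      · simp [hi, hiff]
      · simp [hi, hiff]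
    have hn2 : n = 2 * M := by
      apply threshold n M hn
      simpa using hs (fun _ => 1)
    refine ⟨hn2, Or.inl fun F => ?_⟩
    have h1 := hs F
    rw [hn2, signed_split (fun i => ∑ j ∈ range (2 * M), F (c ![a 0 + 1 + i, a 1 + 1 + j]))] at h1
    exact sub_eq_zero.mp h1
  · have hs : ∀ F : Fin k → ℤ, ∑ j ∈ range n,
        (if j < M then ∑ i ∈ range n, F (c ![a 0 + 1 + i, a 1 + 1 + j])
          else -∑ i ∈ range n, F (c ![a 0 + 1 + i, a 1 + 1 + j])) = 0 := by
      intro F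
      rw [← hsigned F, sum_cube, Finset.sum_comm]
      apply Finset.sum_congr rfl
      intro j _
      have hiff : (a 1 + 1 + (j : ℤ) ≤ m0) ↔ j < M := by
        simp only [Fin.mk_one] at hM
        omega
      by_cases hj : j < M
      · simp [hj, hiff]
      · simp [hj, hiff]
    have hn2 : n = 2 * M := by
      apply threshold n M hn
      simpa using hs (fun _ => 1)
    refine ⟨hn2, Or.inr fun F => ?_⟩
    have h1 := hs F
    rw [hn2, signed_split (fun j => ∑ i ∈ range (2 * M), F (c ![a 0 + 1 + i, a 1 + 1 + j]))] at h1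
    exact sub_eq_zero.mp h1

lemma fair_of_halves0 {k : ℕ} (c : (Fin 2 → ℤ) → Fin k) (a : Fin 2 → ℤ) (m : ℕ)
    (h : ∀ F : Fin k → ℤ,
        ∑ i ∈ range m, ∑ j ∈ range (2 * m), F (c ![a 0 + 1 + i, a 1 + 1 + j])
          = ∑ i ∈ range m, ∑ j ∈ range (2 * m), F (c ![a 0 + 1 + (m + i : ℕ), a 1 + 1 + j])) :
    HasFairSplitting c (cube a (2 * m)) 1 := by
  refine ⟨{(0, a 0 + m)}, fun x => decide (x 0 ≤ a 0 + m), by simp, ?_, ?_⟩
  · intro x _ y _ hxy
    have := hxy (0, a 0 + m) (by simp)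
    simpa using this
  · rw [card_eq_iff_signed]
    intro F
    rw [sum_cube, ← sub_eq_zero.mpr (h F),
      ← signed_split (fun i => ∑ j ∈ range (2 * m), F (c ![a 0 + 1 + i, a 1 + 1 + j]))]
    apply Finset.sum_congr rfl
    intro i _
    have hiff : (a 0 + 1 + (i : ℤ) ≤ a 0 + m) ↔ i < m := by omega
    by_cases hi : i < m
    · simp [hi, hiff]
    · simp [hi, hiff]

lemma fair_of_halves1 {k : ℕ} (c : (Fin 2 → ℤ) → Fin k) (a : Fin 2 → ℤ) (m : ℕ)
    (h : ∀ F : Fin k → ℤ,
        ∑ j ∈ range m, ∑ i ∈ range (2 * m), F (c ![a 0 + 1 + i, a 1 + 1 + j])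
          = ∑ j ∈ range m, ∑ i ∈ range (2 * m), F (c ![a 0 + 1 + i, a 1 + 1 + (m + j : ℕ)])) :
    HasFairSplitting c (cube a (2 * m)) 1 := by
  refine ⟨{(1, a 1 + m)}, fun x => decide (x 1 ≤ a 1 + m), by simp, ?_, ?_⟩
  · intro x _ y _ hxy
    have := hxy (1, a 1 + m) (by simp)
    simpa using this
  · rw [card_eq_iff_signed]
    intro F
    rw [sum_cube, Finset.sum_comm, ← sub_eq_zero.mpr (h F),
      ← signed_split (fun j => ∑ i ∈ range (2 * m), F (c ![a 0 + 1 + i, a 1 + 1 + j]))]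
    apply Finset.sum_congr rfl
    intro j _
    have hiff : (a 1 + 1 + (j : ℤ) ≤ a 1 + m) ↔ j < m := by omega
    by_cases hj : j < m
    · simp [hj, hiff]
    · simp [hj, hiff]

end Pool.Agent.Lib.MP_9837da_co
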