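import Mathlib
import Pool.Agent.Lib.MP_9837da_co.Close
import Pool.Agent.Lib.MP_9837da_co.Check2

/-! The bi-infinite word `w` and the non-vanishing of its third-order differences. -/

namespace Pool.Agent.Lib.MP_9837da_co

/-- The pair of consecutive letters of the bi-infinite fixed point at position `n`. -/
def pr (n : ℤ) : ℕ :=
  if n = 0 then 0 else if n = -1 then 3 else child (pr (n / 2)) (n % 2).toNat
termination_by n.natAbs
decreasing_by omega

lemma pr_rec (n : ℤ) : pr n = child (pr (n / 2)) (n % 2).toNat := by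
  by_cases h0 : n = 0
  · subst h0
    have : pr 0 = 0 := by rw [pr]; simp
    simp only [Int.zero_ediv, Int.zero_emod, this]
    decide
  by_cases h1 : n = -1
  · subst h1
    have : pr (-1) = 3 := by rw [pr]; simp
    have e1 : (-1 : ℤ) / 2 = -1 := by decide
    have e2 : ((-1 : ℤ) % 2).toNat = 1 := by decide
    rw [e1, e2, this]
    decide
  · conv_lhs => rw [pr]
    simp [h0, h1]

lemma child_lt : ∀ p < 12, ∀ r < 2, child p r < 12 := by decide +kernel

lemma pr_lt (n : ℤ) : pr n < 12 := by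
  induction h : n.natAbs using Nat.strong_induction_on generalizing n with
  | _ k ih =>
    by_cases h0 : n = 0
    · subst h0; rw [pr]; simp
    by_cases h1 : n = -1
    · subst h1; rw [pr]; simp
    rw [pr_rec]
    exact child_lt _ (ih _ (by omega) _ rfl) _ (by omega)

lemma pr_even (q : ℤ) : pr (2 * q) = child (pr q) 0 := by
  rw [pr_rec]
  have e1 : 2 * q / 2 = q := by omega
  have e2 : (2 * q % 2).toNat = 0 := by omega
  rw [e1, e2]

lemma pr_odd (q : ℤ) : pr (2 * q + 1) = child (pr q) 1 := by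
  rw [pr_rec]
  have e1 : (2 * q + 1) / 2 = q := by omega
  have e2 : ((2 * q + 1) % 2).toNat = 1 := by omega
  rw [e1, e2]

lemma rr_child : ∀ p < 12, ∀ r < 2, child p r / 2 % 2 = r := by decide +kernel

lemma rr_pr (n : ℤ) : rr (pr n) = n % 2 := by
  rw [rr, pr_rec, rr_child _ (pr_lt _) _ (by omega)]
  omega

lemma nxt_child0 : ∀ p < 12, nxt (child p 0) = child p 1 / 2 := by decide +kernel

lemma nxt_child1 : ∀ p < 12, ∀ p' < 12, nxt p = p' / 2 → nxt (child p 1) = child p' 0 / 2 := by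
  decide +kernel

lemma nxt_pr (n : ℤ) : nxt (pr n) = pr (n + 1) / 2 := by
  induction h : n.natAbs using Nat.strong_induction_on generalizing n with
  | _ k ih =>
    rcases Int.emod_two_eq_zero_or_one n with h2 | h2
    · obtain ⟨q, rfl⟩ : ∃ q, n = 2 * q := ⟨n / 2, by omega⟩
      rw [pr_even, pr_odd]
      exact nxt_child0 _ (pr_lt _)
    · by_cases h1 : n = -1
      · subst h1
        have e0 : pr 0 = 0 := by rw [pr]; simp
        have e1 : pr (-1) = 3 := by rw [pr]; simp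
        have : (-1 : ℤ) + 1 = 0 := by decide
        rw [this, e0, e1]
        decide
      obtain ⟨q, rfl⟩ : ∃ q, n = 2 * q + 1 := ⟨n / 2, by omega⟩
      have e : 2 * q + 1 + 1 = 2 * (q + 1) := by ring
      rw [e, pr_even, pr_odd]
      exact nxt_child1 _ (pr_lt _) _ (pr_lt _) (ih _ (by omega) _ rfl)

/-- Prefix sums over `ℤ`. -/
def pre (f : ℤ → ℤ) : ℤ → ℤ
  | Int.ofNat n => ∑ i ∈ Finset.range n, f i
  | Int.negSucc n => -∑ i ∈ Finset.range (n + 1), f (-1 - i)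

lemma pre_zero (f : ℤ → ℤ) : pre f 0 = 0 := by
  show pre f (Int.ofNat 0) = 0
  simp [pre]

lemma pre_succ (f : ℤ → ℤ) (n : ℤ) : pre f (n + 1) = pre f n + f n := by
  cases n with
  | ofNat n =>
    show pre f (Int.ofNat (n + 1)) = pre f (Int.ofNat n) + f (Int.ofNat n)
    simp [pre, Finset.sum_range_succ]
  | negSucc n =>
    cases n with
    | zero =>
      show pre f (Int.ofNat 0) = pre f (Int.negSucc 0) + f (Int.negSucc 0)
      simp [pre, Int.negSucc_eq]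
    | succ n =>
      have e : Int.negSucc (n + 1) + 1 = Int.negSucc n := by
        simp only [Int.negSucc_eq]; push_cast; ring
      rw [e]
      simp only [pre]
      rw [Finset.sum_range_succ _ (n + 1)]
      have e2 : (-1 - ((n + 1 : ℕ) : ℤ)) = Int.negSucc (n + 1) := by
        simp only [Int.negSucc_eq]; push_cast; ring
      rw [e2]
      ring

def WX : ℤ → ℤ := pre fun n => zX (pr n)
def WY : ℤ → ℤ := pre fun n => zY (pr n)

lemma WX_succ (n : ℤ) : WX (n + 1) = WX n + zX (pr n) := pre_succ _ n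
lemma WY_succ (n : ℤ) : WY (n + 1) = WY n + zY (pr n) := pre_succ _ n

lemma z_child : ∀ p < 12, zX (child p 0) + zX (child p 1) = 2 * zX p - zY p ∧
    zY (child p 0) + zY (child p 1) = zX p + zY p := by decide +kernel

lemma W_even (q : ℤ) : WX (2 * q) = 2 * WX q - WY q ∧ WY (2 * q) = WX q + WY q := by
  have step : ∀ q : ℤ, WX (2 * (q + 1)) - (2 * WX (q + 1) - WY (q + 1))
      = WX (2 * q) - (2 * WX q - WY q) ∧
      WY (2 * (q + 1)) - (WX (q + 1) + WY (q + 1)) = WY (2 * q) - (WX q + WY q) := by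
    intro q
    have e : 2 * (q + 1) = 2 * q + 1 + 1 := by ring
    have h := z_child _ (pr_lt q)
    rw [e, WX_succ, WX_succ, WY_succ, WY_succ, WX_succ, WY_succ, pr_even, pr_odd]
    constructor <;> linarith [h.1, h.2]
  induction q using Int.induction_on with
  | zero => simp [WX, WY, pre_zero]
  | succ n ih => have := step n; constructor <;> linarith [ih.1, ih.2, this.1, this.2]
  | pred n ih =>
    have := step (-n - 1)
    have e : (-(n : ℤ) - 1 + 1) = -n := by ring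
    rw [e] at this
    constructor <;> linarith [ih.1, ih.2, this.1, this.2]

lemma W_half (n : ℤ) :
    WX n = 2 * WX (n / 2) - WY (n / 2) + n % 2 * zX (child (pr (n / 2)) 0) ∧
    WY n = WX (n / 2) + WY (n / 2) + n % 2 * zY (child (pr (n / 2)) 0) := by
  rcases Int.emod_two_eq_zero_or_one n with h2 | h2
  · obtain ⟨q, rfl⟩ : ∃ q, n = 2 * q := ⟨n / 2, by omega⟩
    have e1 : 2 * q / 2 = q := by omega
    rw [e1, h2]
    have := W_even q
    constructor <;> linarith [this.1, this.2]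
  · obtain ⟨q, rfl⟩ : ∃ q, n = 2 * q + 1 := ⟨n / 2, by omega⟩
    have e1 : (2 * q + 1) / 2 = q := by omega
    rw [e1, h2, WX_succ, WY_succ, pr_even]
    have := W_even q
    constructor <;> linarith [this.1, this.2]

/-- The state of four positions lies in the finite set. -/
def St (n0 n1 n3 n4 : ℤ) : Prop :=
  inA (pr n0) (pr n1) (pr n3) (pr n4) ((n1 - n0) - (n4 - n3)) ((n3 - n1) - 2 * (n1 - n0))
    (WX n4 - 2 * WX n3 + 2 * WX n1 - WX n0) (WY n4 - 2 * WY n3 + 2 * WY n1 - WY n0) = true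

lemma inA_bounds {p0 p1 p3 p4 : ℕ} {d1 d2 ex ey : ℤ} (h : inA p0 p1 p3 p4 d1 d2 ex ey = true) :
    (-1 ≤ d1 ∧ d1 ≤ 1 ∧ -2 ≤ d2 ∧ d2 ≤ 2 ∧ -8 ≤ ex ∧ ex < 8 ∧ -8 ≤ ey ∧ ey < 8) ∧
      tree.mem (key p0 p1 p3 p4 d1 d2 ex ey) = true := by
  simp only [inA, Bool.and_eq_true, decide_eq_true_eq] at h
  tauto

lemma closeAt_of_inA {p0 p1 p3 p4 : ℕ} {d1 d2 ex ey : ℤ} (h0 : p0 < 12) (h1 : p1 < 12)
    (h3 : p3 < 12) (h4 : p4 < 12) (h : inA p0 p1 p3 p4 d1 d2 ex ey = true) :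
    closeAt p0 p1 p3 p4 d1 d2 ex ey = true := by
  obtain ⟨hb, hm⟩ := inA_bounds h
  have hk := Tr.all_of_mem _ _ _ close_ok hm
  unfold closeKey at hk
  have e0 : key p0 p1 p3 p4 d1 d2 ex ey % 16 = p0 := by unfold key; omega
  have e1 : key p0 p1 p3 p4 d1 d2 ex ey / 16 % 16 = p1 := by unfold key; omega
  have e3 : key p0 p1 p3 p4 d1 d2 ex ey / 256 % 16 = p3 := by unfold key; omega
  have e4 : key p0 p1 p3 p4 d1 d2 ex ey / 4096 % 16 = p4 := by unfold key; omega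
  have e5 : ((key p0 p1 p3 p4 d1 d2 ex ey / 65536 % 16 : ℕ) : ℤ) - 1 = d1 := by unfold key; omega
  have e6 : ((key p0 p1 p3 p4 d1 d2 ex ey / 1048576 % 16 : ℕ) : ℤ) - 2 = d2 := by
    unfold key; omega
  have e7 : ((key p0 p1 p3 p4 d1 d2 ex ey / 16777216 % 16 : ℕ) : ℤ) - 8 = ex := by
    unfold key; omega
  have e8 : ((key p0 p1 p3 p4 d1 d2 ex ey / 268435456 % 16 : ℕ) : ℤ) - 8 = ey := by
    unfold key; omega
  rwa [e0, e1, e3, e4, e5, e6, e7, e8] at hk

lemma par_child : ∀ p < 12, ∀ r < 2, par (child p r) 0 = p ∨ par (child p r) 1 = p := by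
  decide +kernel

lemma exists_par (n : ℤ) : ∃ j < 2, par (pr n) j = pr (n / 2) := by
  rw [pr_rec n]
  rcases par_child _ (pr_lt (n / 2)) (n % 2).toNat (by omega) with h | h
  · exact ⟨0, by omega, h⟩
  · exact ⟨1, by omega, h⟩

lemma parOK_pr (n0 n1 n3 n4 : ℤ) :
    parOK (pr n0) (pr n1) (pr n3) (pr n4) ((n1 - n0) - (n4 - n3)) ((n3 - n1) - 2 * (n1 - n0))
      = true := by
  simp only [parOK, rr_pr, Bool.and_eq_true, decide_eq_true_eq]
  omega

lemma St_step {n0 n1 n3 n4 : ℤ} (h : St n0 n1 n3 n4) :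
    St (n0 / 2) (n1 / 2) (n3 / 2) (n4 / 2) := by
  have hc := closeAt_of_inA (pr_lt _) (pr_lt _) (pr_lt _) (pr_lt _) h
  obtain ⟨j0, hj0, e0⟩ := exists_par n0
  obtain ⟨j1, hj1, e1⟩ := exists_par n1
  obtain ⟨j3, hj3, e3⟩ := exists_par n3
  obtain ⟨j4, hj4, e4⟩ := exists_par n4
  have hq := allB_spec (allB_spec (allB_spec (allB_spec hc hj0) hj1) hj3) hj4
  rw [e0, e1, e3, e4, rr_pr, rr_pr, rr_pr, rr_pr] at hq
  unfold closeQ at hq
  have a1 : ((n1 - n0) - (n4 - n3) - (n1 % 2 - n0 % 2 - n4 % 2 + n3 % 2)) / 2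
      = (n1 / 2 - n0 / 2) - (n4 / 2 - n3 / 2) := by omega
  have a2 : ((n3 - n1) - 2 * (n1 - n0) - (n3 % 2 - 3 * (n1 % 2) + 2 * (n0 % 2))) / 2
      = (n3 / 2 - n1 / 2) - 2 * (n1 / 2 - n0 / 2) := by omega
  obtain ⟨x0, y0⟩ := W_half n0
  obtain ⟨x1, y1⟩ := W_half n1
  obtain ⟨x3, y3⟩ := W_half n3
  obtain ⟨x4, y4⟩ := W_half n4
  set EX := WX (n4 / 2) - 2 * WX (n3 / 2) + 2 * WX (n1 / 2) - WX (n0 / 2) with hEX
  set EY := WY (n4 / 2) - 2 * WY (n3 / 2) + 2 * WY (n1 / 2) - WY (n0 / 2) with hEY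
  have a3 : WX n4 - 2 * WX n3 + 2 * WX n1 - WX n0 -
      (n4 % 2 * zX (child (pr (n4 / 2)) 0) - 2 * (n3 % 2) * zX (child (pr (n3 / 2)) 0)
        + 2 * (n1 % 2) * zX (child (pr (n1 / 2)) 0) - n0 % 2 * zX (child (pr (n0 / 2)) 0))
      = 2 * EX - EY := by
    rw [hEX, hEY]; linarith
  have a4 : WY n4 - 2 * WY n3 + 2 * WY n1 - WY n0 -
      (n4 % 2 * zY (child (pr (n4 / 2)) 0) - 2 * (n3 % 2) * zY (child (pr (n3 / 2)) 0)
        + 2 * (n1 % 2) * zY (child (pr (n1 / 2)) 0) - n0 % 2 * zY (child (pr (n0 / 2)) 0))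
      = EX + EY := by
    rw [hEX, hEY]; linarith
  rw [a1, a2, a3, a4] at hq
  unfold stepAt at hq
  have b1 : (2 * EX - EY + (EX + EY)) % 3 = 0 := by omega
  have b2 : (2 * EX - EY + (EX + EY)) / 3 = EX := by omega
  have b3 : (2 * (EX + EY) - (2 * EX - EY)) / 3 = EY := by omega
  rw [parOK_pr, b2, b3, decide_eq_true b1] at hq
  exact hq

lemma pr_d3 (q : ℤ) (j : ℕ) (hj : j < 8) : pr (8 * q + j) = d3 (pr q) j := by
  unfold d3
  rw [pr_rec (8 * q + j), pr_rec ((8 * q + j) / 2), pr_rec ((8 * q + j) / 2 / 2)]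
  have e1 : (8 * q + j) / 2 / 2 / 2 = q := by omega
  have e2 : ((8 * q + j) / 2 / 2 % 2).toNat = j / 4 := by omega
  have e3 : ((8 * q + j) / 2 % 2).toNat = j / 2 % 2 := by omega
  have e4 : ((8 * q + j) % 2).toNat = j % 2 := by omega
  rw [e1, e2, e3, e4]

lemma pr_pd (q : ℤ) (j : ℕ) (hj : j < 16) : pr (8 * q + j) = pd (pr q) (pr (q + 1)) j := by
  unfold pd
  by_cases h : j < 8
  · rw [(Nat.blt_eq).mpr h]
    exact pr_d3 q j h
  · have e1 : Nat.blt j 8 = false := by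
      rw [Bool.eq_false_iff]; intro hh; exact h ((Nat.blt_eq).mp hh)
    rw [e1]
    have e : 8 * q + j = 8 * (q + 1) + ((j - 8 : ℕ) : ℤ) := by omega
    rw [e]
    exact pr_d3 (q + 1) (j - 8) (by omega)

lemma W_loc (q : ℤ) (j : ℕ) (hj : j ≤ 16) :
    WX (8 * q + j) = WX (8 * q) + lwX (pr q) (pr (q + 1)) j ∧
    WY (8 * q + j) = WY (8 * q) + lwY (pr q) (pr (q + 1)) j := by
  induction j with
  | zero => simp [lwX, lwY]
  | succ j ih =>
    obtain ⟨h1, h2⟩ := ih (by omega)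
    have e : 8 * q + ((j + 1 : ℕ) : ℤ) = 8 * q + j + 1 := by push_cast; ring
    have f1 : lwX (pr q) (pr (q + 1)) (j + 1)
        = lwX (pr q) (pr (q + 1)) j + zX (pd (pr q) (pr (q + 1)) j) := rfl
    have f2 : lwY (pr q) (pr (q + 1)) (j + 1)
        = lwY (pr q) (pr (q + 1)) j + zY (pd (pr q) (pr (q + 1)) j) := rfl
    rw [e, WX_succ, WY_succ, f1, f2, pr_pd q j (by omega), h1, h2]
    constructor <;> ring

lemma beq_nxt (q : ℤ) : Nat.beq (nxt (pr q)) (pr (q + 1) / 2) = true := by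
  rw [nxt_pr]; exact Nat.beq_refl _

lemma not_St_one {n0 n1 n3 n4 : ℤ} (hd : n1 - n0 = 1) : ¬ St n0 n1 n3 n4 := by
  intro h
  obtain ⟨hb, -⟩ := inA_bounds h
  obtain ⟨q, t, ht, rfl⟩ : ∃ (q : ℤ) (t : ℕ), t < 8 ∧ n0 = 8 * q + t :=
    ⟨n0 / 8, (n0 % 8).toNat, by omega, by omega⟩
  obtain ⟨e, he, rfl⟩ : ∃ e : ℕ, e < 5 ∧ n3 = 8 * q + ((t + 1 + e : ℕ) : ℤ) :=
    ⟨(n3 - n1).toNat, by omega, by omega⟩
  obtain ⟨f, hf, rfl⟩ : ∃ f : ℕ, f < 3 ∧ n4 = 8 * q + ((t + 1 + e + f : ℕ) : ℤ) :=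
    ⟨(n4 - (8 * q + ((t + 1 + e : ℕ) : ℤ))).toNat, by omega, by omega⟩
  obtain rfl : n1 = 8 * q + ((t + 1 : ℕ) : ℤ) := by omega
  have hq := allB_spec (allB_spec base_ok (pr_lt q)) (pr_lt (q + 1))
  rw [beq_nxt, cond_true] at hq
  have hq2 := allB_spec (allB_spec (allB_spec hq ht) he) hf
  unfold baseAt at hq2
  unfold St at h
  rw [pr_pd q t (by omega), pr_pd q (t + 1) (by omega), pr_pd q (t + 1 + e) (by omega),
    pr_pd q (t + 1 + e + f) (by omega),
    (W_loc q t (by omega)).1, (W_loc q t (by omega)).2,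
    (W_loc q (t + 1) (by omega)).1, (W_loc q (t + 1) (by omega)).2,
    (W_loc q (t + 1 + e) (by omega)).1, (W_loc q (t + 1 + e) (by omega)).2,
    (W_loc q (t + 1 + e + f) (by omega)).1, (W_loc q (t + 1 + e + f) (by omega)).2] at h
  rw [Bool.not_eq_true', Bool.eq_false_iff] at hq2
  apply hq2
  convert h using 2 <;> ring

lemma not_St (d : ℕ) : ∀ n0 n1 n3 n4 : ℤ, 1 ≤ d → n1 - n0 = d → ¬ St n0 n1 n3 n4 := by
  induction d using Nat.strong_induction_on with
  | _ d ih =>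
    intro n0 n1 n3 n4 h1 hd h
    by_cases h2 : d = 1
    · exact not_St_one (by omega) h
    · exact ih (n1 / 2 - n0 / 2).toNat (by omega) _ _ _ _ (by omega) (by omega) (St_step h)

/-- The second-order prefix sums of the word, up to an affine function. -/
def TX (x : ℤ) : ℤ := 40 * WX (x / 12) - 16 * WY (x / 12) + etaX (pr (x / 12)) (x % 12).toNat
def TY (x : ℤ) : ℤ := 16 * WX (x / 12) + 24 * WY (x / 12) + etaY (pr (x / 12)) (x % 12).toNat

lemma tab_lt (T i : ℕ) : tab T i < 256 := Nat.mod_lt _ (by norm_num)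
lemma etaX_lt (p i : ℕ) : etaX p i < 256 := tab_lt _ _
lemma etaY_lt (p i : ℕ) : etaY p i < 256 := tab_lt _ _

lemma beq_true {a b : ℕ} (h : a = b) : Nat.beq a b = true := by rw [h]; exact Nat.beq_refl _

lemma St_of_zero (s m : ℤ)
    (hx : TX (s + 4 * m) - 2 * TX (s + 3 * m) + 2 * TX (s + m) - TX s = 0)
    (hy : TY (s + 4 * m) - 2 * TY (s + 3 * m) + 2 * TY (s + m) - TY s = 0) :
    St (s / 12) ((s + m) / 12) ((s + 3 * m) / 12) ((s + 4 * m) / 12) := by
  unfold TX at hx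
  unfold TY at hy
  set n0 := s / 12 with hn0
  set n1 := (s + m) / 12 with hn1
  set n3 := (s + 3 * m) / 12 with hn3
  set n4 := (s + 4 * m) / 12 with hn4
  set r0 := (s % 12).toNat with hr0
  set mm := (m % 12).toNat with hmm
  have e1 : ((s + m) % 12).toNat = (r0 + mm) % 12 := by omega
  have e3 : ((s + 3 * m) % 12).toNat = (r0 + 3 * mm) % 12 := by omega
  have e4 : ((s + 4 * m) % 12).toNat = (r0 + 4 * mm) % 12 := by omega
  rw [e1, e3, e4] at hx hy
  have hq := allB_spec (allB_spec init_ok (show r0 < 12 by omega)) (show mm < 12 by omega)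
  have c1 : -((((r0 + mm) % 12 : ℕ) : ℤ) - r0 - ((r0 + 4 * mm) % 12 : ℕ) + ((r0 + 3 * mm) % 12 : ℕ))
      / 12 = (n1 - n0) - (n4 - n3) := by omega
  have c2 : -((((r0 + 3 * mm) % 12 : ℕ) : ℤ) - 3 * ((r0 + mm) % 12 : ℕ) + 2 * r0) / 12
      = (n3 - n1) - 2 * (n1 - n0) := by omega
  generalize (r0 + mm) % 12 = r1 at *
  generalize (r0 + 3 * mm) % 12 = r3 at *
  generalize (r0 + 4 * mm) % 12 = r4 at *
  have hq1 := allB_spec (allB_spec hq (pr_lt n0)) (pr_lt n4)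
  set EX := WX n4 - 2 * WX n3 + 2 * WX n1 - WX n0 with hEX
  set EY := WY n4 - 2 * WY n3 + 2 * WY n1 - WY n0 with hEY
  have hx' : 40 * EX - 16 * EY + ((etaX (pr n4) r4 : ℤ) - 2 * etaX (pr n3) r3
      + 2 * etaX (pr n1) r1 - etaX (pr n0) r0) = 0 := by rw [hEX, hEY]; linarith
  have hy' : 16 * EX + 24 * EY + ((etaY (pr n4) r4 : ℤ) - 2 * etaY (pr n3) r3
      + 2 * etaY (pr n1) r1 - etaY (pr n0) r0) = 0 := by rw [hEX, hEY]; linarith
  have l1 := etaX_lt (pr n3) r3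
  have l2 := etaX_lt (pr n0) r0
  have l3 := etaY_lt (pr n3) r3
  have l4 := etaY_lt (pr n0) r0
  rw [beq_true (show (etaX (pr n4) r4 + etaX (pr n0) r0) % 2 = 0 by omega),
    beq_true (show (etaY (pr n4) r4 + etaY (pr n0) r0) % 2 = 0 by omega), c1, c2, cond_true,
    cond_true] at hq1
  unfold init3 at hq1
  have hq2 := allB_spec (allB_spec hq1 (pr_lt n1)) (pr_lt n3)
  unfold init4 at hq2
  set X := etaX (pr n4) r4 + 1024 + 2 * etaX (pr n1) r1 - (2 * etaX (pr n3) r3 + etaX (pr n0) r0)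
    with hX
  set Y := etaY (pr n4) r4 + 1024 + 2 * etaY (pr n1) r1 - (2 * etaY (pr n3) r3 + etaY (pr n0) r0)
    with hY
  have hX' : (X : ℤ) - 1024 = -(40 * EX - 16 * EY) := by omega
  have hY' : (Y : ℤ) - 1024 = -(16 * EX + 24 * EY) := by omega
  rw [beq_true (show X % 8 = 0 by omega), beq_true (show Y % 8 = 0 by omega),
    beq_true (show (3 * X + 2 * Y) % 152 = 104 by omega), hX', hY'] at hq2
  have hq3 : initIn (pr n0) (pr n1) (pr n3) (pr n4) ((n1 - n0) - (n4 - n3))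
      ((n3 - n1) - 2 * (n1 - n0)) (-(40 * EX - 16 * EY)) (-(16 * EX + 24 * EY)) = true := hq2
  unfold initIn at hq3
  have b1 : (2 * -(40 * EX - 16 * EY) - 5 * -(16 * EX + 24 * EY)) % 152 = 0 := by omega
  have b2 : -(3 * -(40 * EX - 16 * EY) + 2 * -(16 * EX + 24 * EY)) / 152 = EX := by omega
  have b3 : (2 * -(40 * EX - 16 * EY) - 5 * -(16 * EX + 24 * EY)) / 152 = EY := by omega
  rw [parOK_pr, b2, b3, decide_eq_true b1] at hq3
  exact hq3

lemma T_loc (q : ℤ) (y : ℕ) (hy : y < 192) :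
    TX (96 * q + y) = 40 * WX (8 * q) - 16 * WY (8 * q) + ltX (pr q) (pr (q + 1)) y ∧
    TY (96 * q + y) = 16 * WX (8 * q) + 24 * WY (8 * q) + ltY (pr q) (pr (q + 1)) y := by
  unfold TX TY ltX ltY
  have e1 : (96 * q + y) / 12 = 8 * q + ((y / 12 : ℕ) : ℤ) := by omega
  have e2 : ((96 * q + y) % 12).toNat = y % 12 := by omega
  rw [e1, e2, pr_pd q _ (by omega), (W_loc q _ (by omega)).1, (W_loc q _ (by omega)).2]
  constructor <;> ring

theorem third_diff_ne (s m : ℤ) (hm : 1 ≤ m)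
    (hx : TX (s + 4 * m) - 2 * TX (s + 3 * m) + 2 * TX (s + m) - TX s = 0)
    (hy : TY (s + 4 * m) - 2 * TY (s + 3 * m) + 2 * TY (s + m) - TY s = 0) : False := by
  by_cases hd : (s + m) / 12 = s / 12
  · obtain ⟨q, t, r, ht, hr, rfl⟩ : ∃ (q : ℤ) (t r : ℕ), t < 8 ∧ r < 12 ∧
        s = 96 * q + ((12 * t + r : ℕ) : ℤ) :=
      ⟨s / 96, (s % 96 / 12).toNat, (s % 12).toNat, by omega, by omega, by omega⟩
    obtain ⟨k, rfl⟩ : ∃ k : ℕ, m = ((k + 1 : ℕ) : ℤ) := ⟨(m - 1).toNat, by omega⟩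
    have hk : k < 11 - r := by omega
    have hq := allB_spec (allB_spec small_ok (pr_lt q)) (pr_lt (q + 1))
    rw [beq_nxt, cond_true] at hq
    have hq2 := allB_spec (allB_spec (allB_spec hq ht) hr) hk
    unfold smallAt at hq2
    have e1 : 96 * q + ((12 * t + r : ℕ) : ℤ) + ((k + 1 : ℕ) : ℤ)
        = 96 * q + ((12 * t + r + (k + 1) : ℕ) : ℤ) := by push_cast; ring
    have e3 : 96 * q + ((12 * t + r : ℕ) : ℤ) + 3 * ((k + 1 : ℕ) : ℤ)
        = 96 * q + ((12 * t + r + 3 * (k + 1) : ℕ) : ℤ) := by push_cast; ring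
    have e4 : 96 * q + ((12 * t + r : ℕ) : ℤ) + 4 * ((k + 1 : ℕ) : ℤ)
        = 96 * q + ((12 * t + r + 4 * (k + 1) : ℕ) : ℤ) := by push_cast; ring
    rw [e1, e3, e4] at hx hy
    rw [(T_loc q _ (by omega)).1, (T_loc q _ (by omega)).1, (T_loc q _ (by omega)).1,
      (T_loc q _ (by omega)).1] at hx
    rw [(T_loc q _ (by omega)).2, (T_loc q _ (by omega)).2, (T_loc q _ (by omega)).2,
      (T_loc q _ (by omega)).2] at hy
    rw [decide_eq_true (by linarith), decide_eq_true (by linarith)] at hq2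
    exact absurd hq2 (by decide)
  · exact not_St ((s + m) / 12 - s / 12).toNat _ _ _ _ (by omega) (by omega)
      (St_of_zero s m hx hy)

/-- The ternary word. -/
def wd (x : ℤ) : ℕ := blk (pr (x / 12)) (x % 12).toNat

def vX (a : ℕ) : ℤ := if a = 0 then 1 else if a = 1 then 0 else -1
def vY (a : ℕ) : ℤ := if a = 0 then 0 else if a = 1 then 1 else -1

lemma blk_lt : ∀ p < 12, ∀ i < 12, blk p i < 3 := by decide +kernel

lemma wd_lt (x : ℤ) : wd x < 3 := blk_lt _ (pr_lt _) _ (by omega)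

lemma eta_in : ∀ p < 12, ∀ i < 10,
    (etaX p (i + 2) : ℤ) - 2 * etaX p (i + 1) + etaX p i = vX (blk p i) ∧
    (etaY p (i + 2) : ℤ) - 2 * etaY p (i + 1) + etaY p i = vY (blk p i) := by decide +kernel

lemma eta_10 : ∀ p < 12, ∀ p' < 12, nxt p = p' / 2 →
    40 * zX p - 16 * zY p + (etaX p' 0 : ℤ) - 2 * etaX p 11 + etaX p 10 = vX (blk p 10) ∧
    16 * zX p + 24 * zY p + (etaY p' 0 : ℤ) - 2 * etaY p 11 + etaY p 10 = vY (blk p 10) := by
  decide +kernel

lemma eta_11 : ∀ p < 12, ∀ p' < 12, nxt p = p' / 2 →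
    -(40 * zX p - 16 * zY p) + (etaX p' 1 : ℤ) - 2 * etaX p' 0 + etaX p 11 = vX (blk p 11) ∧
    -(16 * zX p + 24 * zY p) + (etaY p' 1 : ℤ) - 2 * etaY p' 0 + etaY p 11 = vY (blk p 11) := by
  decide +kernel

theorem second_diff (x : ℤ) :
    TX (x + 2) - 2 * TX (x + 1) + TX x = vX (wd x) ∧
    TY (x + 2) - 2 * TY (x + 1) + TY x = vY (wd x) := by
  obtain ⟨n, i, hi, rfl⟩ : ∃ (n : ℤ) (i : ℕ), i < 12 ∧ x = 12 * n + i :=
    ⟨x / 12, (x % 12).toNat, by omega, by omega⟩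
  unfold TX TY wd
  have a0 : (12 * n + i) / 12 = n := by omega
  have b0 : ((12 * n + i) % 12).toNat = i := by omega
  rw [a0, b0]
  by_cases h : i < 10
  · have a1 : (12 * n + i + 1) / 12 = n := by omega
    have b1 : ((12 * n + i + 1) % 12).toNat = i + 1 := by omega
    have a2 : (12 * n + i + 2) / 12 = n := by omega
    have b2 : ((12 * n + i + 2) % 12).toNat = i + 2 := by omega
    rw [a1, b1, a2, b2]
    have := eta_in _ (pr_lt n) i h
    constructor <;> linarith [this.1, this.2]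
  by_cases h' : i = 10
  · subst h'
    have a1 : (12 * n + (10 : ℕ) + 1) / 12 = n := by omega
    have b1 : ((12 * n + (10 : ℕ) + 1) % 12).toNat = 11 := by omega
    have a2 : (12 * n + (10 : ℕ) + 2) / 12 = n + 1 := by omega
    have b2 : ((12 * n + (10 : ℕ) + 2) % 12).toNat = 0 := by omega
    rw [a1, b1, a2, b2, WX_succ, WY_succ]
    have := eta_10 _ (pr_lt n) _ (pr_lt (n + 1)) (nxt_pr n)
    constructor <;> linarith [this.1, this.2]
  · obtain rfl : i = 11 := by omega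
    have a1 : (12 * n + (11 : ℕ) + 1) / 12 = n + 1 := by omega
    have b1 : ((12 * n + (11 : ℕ) + 1) % 12).toNat = 0 := by omega
    have a2 : (12 * n + (11 : ℕ) + 2) / 12 = n + 1 := by omega
    have b2 : ((12 * n + (11 : ℕ) + 2) % 12).toNat = 1 := by omega
    rw [a1, b1, a2, b2, WX_succ, WY_succ]
    have := eta_11 _ (pr_lt n) _ (pr_lt (n + 1)) (nxt_pr n)
    constructor <;> linarith [this.1, this.2]

end Pool.Agent.Lib.MP_9837da_co
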