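import Mathlib
import Pool.Agent.Lib.MP_9837da_co.Word
import Pool.Agent.Lib.MP_9837da_co.Split

/-! `g(1, 2) = 3`. -/

namespace Pool.Agent.Lib.MP_9837da_co

open Finset

lemma double_sum (T v : ℤ → ℤ) (h : ∀ x, T (x + 2) - 2 * T (x + 1) + T x = v x) (s : ℤ)
    (m n : ℕ) :
    ∑ i ∈ range m, ∑ j ∈ range n, v (s + i + j)
      = T (s + m + n) - T (s + n) - T (s + m) + T s := by
  have h1 : ∀ y : ℤ, ∑ j ∈ range n, v (y + j) = (T (y + n + 1) - T (y + n)) - (T (y + 1) - T y) := by
    intro y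
    have := Finset.sum_range_sub (fun j : ℕ => T (y + j + 1) - T (y + j)) n
    simp only [Nat.cast_zero, add_zero] at this
    rw [← this]
    apply Finset.sum_congr rfl
    intro j _
    have e1 : y + ((j + 1 : ℕ) : ℤ) + 1 = y + j + 2 := by push_cast; ring
    have e2 : y + ((j + 1 : ℕ) : ℤ) = y + j + 1 := by push_cast; ring
    rw [e1, e2, ← h]
    ring
  simp_rw [h1]
  have := Finset.sum_range_sub (fun i : ℕ => T (s + i + n) - T (s + i)) m
  simp only [Nat.cast_zero, add_zero] at this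
  have e : T (s + m + n) - T (s + n) - T (s + m) + T s
      = T (s + m + n) - T (s + m) - (T (s + n) - T s) := by ring
  rw [e, ← this]
  apply Finset.sum_congr rfl
  intro i _
  have e1 : s + ((i + 1 : ℕ) : ℤ) + n = s + i + n + 1 := by push_cast; ring
  have e2 : s + ((i + 1 : ℕ) : ℤ) = s + i + 1 := by push_cast; ring
  rw [e1, e2]
  ring

lemma third_of_halves (T v : ℤ → ℤ) (h : ∀ x, T (x + 2) - 2 * T (x + 1) + T x = v x) (s : ℤ)
    (m : ℕ) (hh : ∑ i ∈ range m, ∑ j ∈ range (2 * m), v (s + i + j)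
      = ∑ i ∈ range m, ∑ j ∈ range (2 * m), v (s + m + i + j)) :
    T (s + 4 * m) - 2 * T (s + 3 * m) + 2 * T (s + m) - T s = 0 := by
  rw [double_sum T v h, double_sum T v h] at hh
  have e1 : s + m + ((2 * m : ℕ) : ℤ) = s + 3 * m := by push_cast; ring
  have e2 : s + m + m + ((2 * m : ℕ) : ℤ) = s + 4 * m := by push_cast; ring
  have e3 : s + m + m = s + ((2 * m : ℕ) : ℤ) := by push_cast; ring
  rw [e2, e1, e3] at hh
  linarith

/-- The colouring `c(x, y) = w(x + y)`. -/
def col (x : Fin 2 → ℤ) : Fin 3 := ⟨wd (x 0 + x 1), wd_lt _⟩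

theorem avoidable_three : Avoidable 1 2 3 := by
  refine ⟨col, fun a n hn hfair => ?_⟩
  obtain ⟨m, hm, h⟩ := halves_of_fair col a n hn hfair
  have key : ∀ F : ℕ → ℤ,
      ∑ i ∈ range m, ∑ j ∈ range (2 * m), F (wd (a 0 + a 1 + 2 + i + j))
        = ∑ i ∈ range m, ∑ j ∈ range (2 * m), F (wd (a 0 + a 1 + 2 + m + i + j)) := by
    intro F
    rcases h with h | h
    · have h1 := h (fun j => F j.val)
      simp only [col, Matrix.cons_val_zero, Matrix.cons_val_one] at h1
      convert h1 using 5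
      · ring
      · push_cast; ring
    · have h1 := h (fun j => F j.val)
      simp only [col, Matrix.cons_val_zero, Matrix.cons_val_one] at h1
      convert h1 using 5
      · ring
      · push_cast; ring
  exact third_diff_ne (a 0 + a 1 + 2) m (by omega)
    (third_of_halves TX (fun x => vX (wd x)) (fun x => (second_diff x).1) _ m (key vX))
    (third_of_halves TY (fun x => vY (wd x)) (fun x => (second_diff x).2) _ m (key vY))

set_option synthInstance.maxSize 100000 in
lemma period_bool : ∀ b00 b01 b10 b11 : Bool,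
    b00.toNat + b01.toNat ≠ b10.toNat + b11.toNat →
    b00.toNat + b10.toNat ≠ b01.toNat + b11.toNat →
    ∀ b02 b12 : Bool,
    b01.toNat + b02.toNat ≠ b11.toNat + b12.toNat →
    b01.toNat + b11.toNat ≠ b02.toNat + b12.toNat →
    ∀ b03 b13 : Bool,
    b02.toNat + b03.toNat ≠ b12.toNat + b13.toNat →
    b02.toNat + b12.toNat ≠ b03.toNat + b13.toNat →
    ∀ b20 b21 : Bool,
    b10.toNat + b11.toNat ≠ b20.toNat + b21.toNat →
    b10.toNat + b20.toNat ≠ b11.toNat + b21.toNat →
    ∀ b22 : Bool,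
    b11.toNat + b12.toNat ≠ b21.toNat + b22.toNat →
    b11.toNat + b21.toNat ≠ b12.toNat + b22.toNat →
    ∀ b23 : Bool,
    b12.toNat + b13.toNat ≠ b22.toNat + b23.toNat →
    b12.toNat + b22.toNat ≠ b13.toNat + b23.toNat →
    ∀ b30 b31 : Bool,
    b20.toNat + b21.toNat ≠ b30.toNat + b31.toNat →
    b20.toNat + b30.toNat ≠ b21.toNat + b31.toNat →
    ∀ b32 : Bool,
    b21.toNat + b22.toNat ≠ b31.toNat + b32.toNat →
    b21.toNat + b31.toNat ≠ b22.toNat + b32.toNat →
    ∀ b33 : Bool,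
    b22.toNat + b23.toNat ≠ b32.toNat + b33.toNat →
    b22.toNat + b32.toNat ≠ b23.toNat + b33.toNat →
    b00.toNat + b01.toNat + b02.toNat + b03.toNat + b10.toNat + b11.toNat + b12.toNat + b13.toNat ≠
      b20.toNat + b21.toNat + b22.toNat + b23.toNat + b30.toNat + b31.toNat + b32.toNat + b33.toNat →
    b00.toNat + b10.toNat + b20.toNat + b30.toNat + b01.toNat + b11.toNat + b21.toNat + b31.toNat ≠
      b02.toNat + b12.toNat + b22.toNat + b32.toNat + b03.toNat + b13.toNat + b23.toNat + b33.toNat →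
    ∀ b40 b41 : Bool,
    b30.toNat + b31.toNat ≠ b40.toNat + b41.toNat →
    b30.toNat + b40.toNat ≠ b31.toNat + b41.toNat →
    ∀ b42 : Bool,
    b31.toNat + b32.toNat ≠ b41.toNat + b42.toNat →
    b31.toNat + b41.toNat ≠ b32.toNat + b42.toNat →
    ∀ b43 : Bool,
    b32.toNat + b33.toNat ≠ b42.toNat + b43.toNat →
    b32.toNat + b42.toNat ≠ b33.toNat + b43.toNat →
    b10.toNat + b11.toNat + b12.toNat + b13.toNat + b20.toNat + b21.toNat + b22.toNat + b23.toNat ≠
      b30.toNat + b31.toNat + b32.toNat + b33.toNat + b40.toNat + b41.toNat + b42.toNat + b43.toNat →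
    b10.toNat + b20.toNat + b30.toNat + b40.toNat + b11.toNat + b21.toNat + b31.toNat + b41.toNat ≠
      b12.toNat + b22.toNat + b32.toNat + b42.toNat + b13.toNat + b23.toNat + b33.toNat + b43.toNat →
    b00 = b40 := by decide +kernel

theorem not_avoidable_le_two {k : ℕ} (hk : k ≤ 2) : ¬ Avoidable 1 2 k := by
  rintro ⟨c, hc⟩
  set b : ℤ → ℤ → Bool := fun x y => decide ((c ![x, y]).val = 0) with hb
  have hF : ∀ F : Fin k → ℤ, ∃ u v : ℤ, ∀ x y, F (c ![x, y]) = u + v * (b x y).toNat := by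
    intro F
    by_cases h1 : ∃ j : Fin k, j.val = 1
    · obtain ⟨j1, hj1⟩ := h1
      let j0 : Fin k := ⟨0, by have := j1.2; omega⟩
      refine ⟨F j1, F j0 - F j1, fun x y => ?_⟩
      by_cases h0 : (c ![x, y]).val = 0
      · have : c ![x, y] = j0 := Fin.ext h0
        simp [hb, this, j0]
      · have : c ![x, y] = j1 := Fin.ext (by have := (c ![x, y]).2; omega)
        simp [hb, this, hj1]
    · refine ⟨F (c ![0, 0]), 0, fun x y => ?_⟩
      have e : ∀ j : Fin k, j.val = 0 := by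
        intro j
        by_contra hj
        exact h1 ⟨j, by have := j.2; omega⟩
      have : c ![x, y] = c ![0, 0] := Fin.ext (by rw [e, e])
      simp [this]
  have H0 : ∀ (x y : ℤ) (m : ℕ), 1 ≤ m →
      ∑ i ∈ range m, ∑ j ∈ range (2 * m), (b (x + i) (y + j)).toNat
        ≠ ∑ i ∈ range m, ∑ j ∈ range (2 * m), (b (x + (m + i : ℕ)) (y + j)).toNat := by
    intro x y m hm h
    apply hc ![x - 1, y - 1] (2 * m) (by omega)
    apply fair_of_halves0
    intro F
    obtain ⟨u, v, huv⟩ := hF F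
    simp only [huv, Matrix.cons_val_zero, Matrix.cons_val_one, sub_add_cancel,
      Finset.sum_add_distrib, ← Finset.mul_sum]
    congr 2
    exact_mod_cast h
  have H1 : ∀ (x y : ℤ) (m : ℕ), 1 ≤ m →
      ∑ j ∈ range m, ∑ i ∈ range (2 * m), (b (x + i) (y + j)).toNat
        ≠ ∑ j ∈ range m, ∑ i ∈ range (2 * m), (b (x + i) (y + (m + j : ℕ))).toNat := by
    intro x y m hm h
    apply hc ![x - 1, y - 1] (2 * m) (by omega)
    apply fair_of_halves1
    intro F
    obtain ⟨u, v, huv⟩ := hF F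
    simp only [huv, Matrix.cons_val_zero, Matrix.cons_val_one, sub_add_cancel,
      Finset.sum_add_distrib, ← Finset.mul_sum]
    congr 2
    exact_mod_cast h
  have A0 : ∀ x y x' y' : ℤ, x' = x + 1 → y' = y + 1 →
      (b x y).toNat + (b x y').toNat ≠ (b x' y).toNat + (b x' y').toNat := by
    rintro x y _ _ rfl rfl
    simpa [Finset.sum_range_succ] using H0 x y 1 le_rfl
  have A1 : ∀ x y x' y' : ℤ, x' = x + 1 → y' = y + 1 →
      (b x y).toNat + (b x' y).toNat ≠ (b x y').toNat + (b x' y').toNat := by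
    rintro x y _ _ rfl rfl
    simpa [Finset.sum_range_succ] using H1 x y 1 le_rfl
  have B0 : ∀ x y x1 x2 x3 : ℤ, x1 = x + 1 → x2 = x + 2 → x3 = x + 3 →
      (b x y).toNat + (b x (y + 1)).toNat + (b x (y + 2)).toNat + (b x (y + 3)).toNat
        + (b x1 y).toNat + (b x1 (y + 1)).toNat + (b x1 (y + 2)).toNat + (b x1 (y + 3)).toNat ≠
      (b x2 y).toNat + (b x2 (y + 1)).toNat + (b x2 (y + 2)).toNat + (b x2 (y + 3)).toNat
        + (b x3 y).toNat + (b x3 (y + 1)).toNat + (b x3 (y + 2)).toNat + (b x3 (y + 3)).toNat := by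
    rintro x y _ _ _ rfl rfl rfl
    have := H0 x y 2 (by norm_num)
    simp only [Finset.sum_range_succ, Finset.range_zero, Finset.sum_empty] at this
    norm_num at this
    omega
  have B1 : ∀ x y x1 x2 x3 : ℤ, x1 = x + 1 → x2 = x + 2 → x3 = x + 3 →
      (b x y).toNat + (b x1 y).toNat + (b x2 y).toNat + (b x3 y).toNat
        + (b x (y + 1)).toNat + (b x1 (y + 1)).toNat + (b x2 (y + 1)).toNat
        + (b x3 (y + 1)).toNat ≠
      (b x (y + 2)).toNat + (b x1 (y + 2)).toNat + (b x2 (y + 2)).toNat + (b x3 (y + 2)).toNat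
        + (b x (y + 3)).toNat + (b x1 (y + 3)).toNat + (b x2 (y + 3)).toNat
        + (b x3 (y + 3)).toNat := by
    rintro x y _ _ _ rfl rfl rfl
    have := H1 x y 2 (by norm_num)
    simp only [Finset.sum_range_succ, Finset.range_zero, Finset.sum_empty] at this
    norm_num at this
    omega
  have per : ∀ x y : ℤ, b x y = b (x + 4) y := by
    intro x y
    exact period_bool (b x y) (b x (y + 1)) (b (x + 1) y) (b (x + 1) (y + 1))
      (A0 x y (x + 1) (y + 1) (by ring) (by ring))
      (A1 x y (x + 1) (y + 1) (by ring) (by ring))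
      (b x (y + 2)) (b (x + 1) (y + 2))
      (A0 x (y + 1) (x + 1) (y + 2) (by ring) (by ring))
      (A1 x (y + 1) (x + 1) (y + 2) (by ring) (by ring))
      (b x (y + 3)) (b (x + 1) (y + 3))
      (A0 x (y + 2) (x + 1) (y + 3) (by ring) (by ring))
      (A1 x (y + 2) (x + 1) (y + 3) (by ring) (by ring))
      (b (x + 2) y) (b (x + 2) (y + 1))
      (A0 (x + 1) y (x + 2) (y + 1) (by ring) (by ring))
      (A1 (x + 1) y (x + 2) (y + 1) (by ring) (by ring))
      (b (x + 2) (y + 2))
      (A0 (x + 1) (y + 1) (x + 2) (y + 2) (by ring) (by ring))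
      (A1 (x + 1) (y + 1) (x + 2) (y + 2) (by ring) (by ring))
      (b (x + 2) (y + 3))
      (A0 (x + 1) (y + 2) (x + 2) (y + 3) (by ring) (by ring))
      (A1 (x + 1) (y + 2) (x + 2) (y + 3) (by ring) (by ring))
      (b (x + 3) y) (b (x + 3) (y + 1))
      (A0 (x + 2) y (x + 3) (y + 1) (by ring) (by ring))
      (A1 (x + 2) y (x + 3) (y + 1) (by ring) (by ring))
      (b (x + 3) (y + 2))
      (A0 (x + 2) (y + 1) (x + 3) (y + 2) (by ring) (by ring))
      (A1 (x + 2) (y + 1) (x + 3) (y + 2) (by ring) (by ring))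
      (b (x + 3) (y + 3))
      (A0 (x + 2) (y + 2) (x + 3) (y + 3) (by ring) (by ring))
      (A1 (x + 2) (y + 2) (x + 3) (y + 3) (by ring) (by ring))
      (B0 x y (x + 1) (x + 2) (x + 3) (by ring) (by ring) (by ring))
      (B1 x y (x + 1) (x + 2) (x + 3) (by ring) (by ring) (by ring))
      (b (x + 4) y) (b (x + 4) (y + 1))
      (A0 (x + 3) y (x + 4) (y + 1) (by ring) (by ring))
      (A1 (x + 3) y (x + 4) (y + 1) (by ring) (by ring))
      (b (x + 4) (y + 2))
      (A0 (x + 3) (y + 1) (x + 4) (y + 2) (by ring) (by ring))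
      (A1 (x + 3) (y + 1) (x + 4) (y + 2) (by ring) (by ring))
      (b (x + 4) (y + 3))
      (A0 (x + 3) (y + 2) (x + 4) (y + 3) (by ring) (by ring))
      (A1 (x + 3) (y + 2) (x + 4) (y + 3) (by ring) (by ring))
      (B0 (x + 1) y (x + 2) (x + 3) (x + 4) (by ring) (by ring) (by ring))
      (B1 (x + 1) y (x + 2) (x + 3) (x + 4) (by ring) (by ring) (by ring))
  apply H0 0 0 4 (by norm_num)
  apply Finset.sum_congr rfl
  intro i _
  apply Finset.sum_congr rfl
  intro j _
  rw [per]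
  congr 2
  push_cast
  ring

theorem g_one_two : g 1 2 = 3 := by
  apply le_antisymm
  · exact iInf₂_le_of_le 3 avoidable_three (by simp)
  · refine le_iInf₂ fun k hk => ?_
    by_contra hlt
    have : k ≤ 2 := by
      have h3 : (k : ℕ∞) < (3 : ℕ) := not_le.mp (by simpa using hlt)
      have : k < 3 := by exact_mod_cast h3
      omega
    exact not_avoidable_le_two this hk

end Pool.Agent.Lib.MP_9837da_co
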