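import Pool.Agent.Lib.MP_9837da_co.TwoT0
import Pool.Agent.Lib.MP_9837da_co.TwoT1
import Pool.Agent.Lib.MP_9837da_co.TwoT2
import Pool.Agent.Lib.MP_9837da_co.TwoT3
import Pool.Agent.Lib.MP_9837da_co.TwoT4

/-! Kernel evaluation of the branch and bound, part A0. -/

namespace Pool.Agent.Lib.MP_9837da_co.Two

set_option maxRecDepth 100000

theorem r001 : run 0 800 0 0 1 t0_0_800 t0_0_800 t0_0_800 t1_0_800 = true := by
  decide +kernel
theorem r002 : run 0 800 0 0 2 t0_0_800 t0_0_800 t0_0_800 t2_0_800 = true := by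
  decide +kernel
theorem r003 : run 0 800 0 0 3 t0_0_800 t0_0_800 t0_0_800 t3_0_800 = true := by
  decide +kernel
theorem r004 : run 0 800 0 0 4 t0_0_800 t0_0_800 t0_0_800 t4_0_800 = true := by
  decide +kernel
theorem r010 : run 0 800 0 1 0 t0_0_800 t0_0_800 t1_0_800 t0_0_800 = true := by
  decide +kernel
theorem r011 : run 0 800 0 1 1 t0_0_800 t0_0_800 t1_0_800 t1_0_800 = true := by
  decide +kernel
theorem r012 : run 0 800 0 1 2 t0_0_800 t0_0_800 t1_0_800 t2_0_800 = true := by
  decide +kernel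
theorem r013 : run 0 800 0 1 3 t0_0_800 t0_0_800 t1_0_800 t3_0_800 = true := by
  decide +kernel
theorem r014 : run 0 800 0 1 4 t0_0_800 t0_0_800 t1_0_800 t4_0_800 = true := by
  decide +kernel
theorem r020 : run 0 800 0 2 0 t0_0_800 t0_0_800 t2_0_800 t0_0_800 = true := by
  decide +kernel
theorem r021 : run 0 800 0 2 1 t0_0_800 t0_0_800 t2_0_800 t1_0_800 = true := by
  decide +kernel
theorem r022 : run 0 800 0 2 2 t0_0_800 t0_0_800 t2_0_800 t2_0_800 = true := by
  decide +kernel
theorem r023 : run 0 800 0 2 3 t0_0_800 t0_0_800 t2_0_800 t3_0_800 = true := by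
  decide +kernel
theorem r024 : run 0 800 0 2 4 t0_0_800 t0_0_800 t2_0_800 t4_0_800 = true := by
  decide +kernel
theorem r030 : run 0 800 0 3 0 t0_0_800 t0_0_800 t3_0_800 t0_0_800 = true := by
  decide +kernel
theorem r031 : run 0 800 0 3 1 t0_0_800 t0_0_800 t3_0_800 t1_0_800 = true := by
  decide +kernel
theorem r032 : run 0 800 0 3 2 t0_0_800 t0_0_800 t3_0_800 t2_0_800 = true := by
  decide +kernel
theorem r033 : run 0 800 0 3 3 t0_0_800 t0_0_800 t3_0_800 t3_0_800 = true := by
  decide +kernel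
theorem r034 : run 0 800 0 3 4 t0_0_800 t0_0_800 t3_0_800 t4_0_800 = true := by
  decide +kernel
theorem r040 : run 0 800 0 4 0 t0_0_800 t0_0_800 t4_0_800 t0_0_800 = true := by
  decide +kernel
theorem r041 : run 0 800 0 4 1 t0_0_800 t0_0_800 t4_0_800 t1_0_800 = true := by
  decide +kernel
theorem r042 : run 0 800 0 4 2 t0_0_800 t0_0_800 t4_0_800 t2_0_800 = true := by
  decide +kernel
theorem r043 : run 0 800 0 4 3 t0_0_800 t0_0_800 t4_0_800 t3_0_800 = true := by
  decide +kernel
theorem r044 : run 0 800 0 4 4 t0_0_800 t0_0_800 t4_0_800 t4_0_800 = true := by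
  decide +kernel

end Pool.Agent.Lib.MP_9837da_co.Two
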