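import Pool.Agent.Lib.MP_9837da_co.TwoT0
import Pool.Agent.Lib.MP_9837da_co.TwoT1
import Pool.Agent.Lib.MP_9837da_co.TwoT2
import Pool.Agent.Lib.MP_9837da_co.TwoT3
import Pool.Agent.Lib.MP_9837da_co.TwoT4

/-! Kernel evaluation of the branch and bound, part A1. -/

namespace Pool.Agent.Lib.MP_9837da_co.Two

set_option maxRecDepth 100000

theorem r100 : run 0 800 1 0 0 t0_0_800 t1_0_800 t0_0_800 t0_0_800 = true := by
  decide +kernel
theorem r101 : run 0 800 1 0 1 t0_0_800 t1_0_800 t0_0_800 t1_0_800 = true := by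
  decide +kernel
theorem r102 : run 0 800 1 0 2 t0_0_800 t1_0_800 t0_0_800 t2_0_800 = true := by
  decide +kernel
theorem r103 : run 0 800 1 0 3 t0_0_800 t1_0_800 t0_0_800 t3_0_800 = true := by
  decide +kernel
theorem r104 : run 0 800 1 0 4 t0_0_800 t1_0_800 t0_0_800 t4_0_800 = true := by
  decide +kernel
theorem r110 : run 0 800 1 1 0 t0_0_800 t1_0_800 t1_0_800 t0_0_800 = true := by
  decide +kernel
theorem r111 : run 0 800 1 1 1 t0_0_800 t1_0_800 t1_0_800 t1_0_800 = true := by
  decide +kernel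
theorem r112 : run 0 800 1 1 2 t0_0_800 t1_0_800 t1_0_800 t2_0_800 = true := by
  decide +kernel
theorem r113 : run 0 800 1 1 3 t0_0_800 t1_0_800 t1_0_800 t3_0_800 = true := by
  decide +kernel
theorem r114 : run 0 800 1 1 4 t0_0_800 t1_0_800 t1_0_800 t4_0_800 = true := by
  decide +kernel
theorem r120 : run 0 800 1 2 0 t0_0_800 t1_0_800 t2_0_800 t0_0_800 = true := by
  decide +kernel
theorem r121 : run 0 800 1 2 1 t0_0_800 t1_0_800 t2_0_800 t1_0_800 = true := by
  decide +kernel
theorem r122 : run 0 800 1 2 2 t0_0_800 t1_0_800 t2_0_800 t2_0_800 = true := by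
  decide +kernel
theorem r123 : run 0 800 1 2 3 t0_0_800 t1_0_800 t2_0_800 t3_0_800 = true := by
  decide +kernel
theorem r124 : run 0 800 1 2 4 t0_0_800 t1_0_800 t2_0_800 t4_0_800 = true := by
  decide +kernel
theorem r130 : run 0 800 1 3 0 t0_0_800 t1_0_800 t3_0_800 t0_0_800 = true := by
  decide +kernel
theorem r131 : run 0 800 1 3 1 t0_0_800 t1_0_800 t3_0_800 t1_0_800 = true := by
  decide +kernel
theorem r132 : run 0 800 1 3 2 t0_0_800 t1_0_800 t3_0_800 t2_0_800 = true := by
  decide +kernel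
theorem r133 : run 0 800 1 3 3 t0_0_800 t1_0_800 t3_0_800 t3_0_800 = true := by
  decide +kernel
theorem r134 : run 0 800 1 3 4 t0_0_800 t1_0_800 t3_0_800 t4_0_800 = true := by
  decide +kernel
theorem r140 : run 0 800 1 4 0 t0_0_800 t1_0_800 t4_0_800 t0_0_800 = true := by
  decide +kernel
theorem r141 : run 0 800 1 4 1 t0_0_800 t1_0_800 t4_0_800 t1_0_800 = true := by
  decide +kernel
theorem r142 : run 0 800 1 4 2 t0_0_800 t1_0_800 t4_0_800 t2_0_800 = true := by
  decide +kernel
theorem r143 : run 0 800 1 4 3 t0_0_800 t1_0_800 t4_0_800 t3_0_800 = true := by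
  decide +kernel
theorem r144 : run 0 800 1 4 4 t0_0_800 t1_0_800 t4_0_800 t4_0_800 = true := by
  decide +kernel

end Pool.Agent.Lib.MP_9837da_co.Two
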