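import Pool.Agent.Lib.MP_9837da_co.TwoT0
import Pool.Agent.Lib.MP_9837da_co.TwoT1
import Pool.Agent.Lib.MP_9837da_co.TwoT2
import Pool.Agent.Lib.MP_9837da_co.TwoT3
import Pool.Agent.Lib.MP_9837da_co.TwoT4

/-! Kernel evaluation of the branch and bound, part A2. -/

namespace Pool.Agent.Lib.MP_9837da_co.Two

set_option maxRecDepth 100000

theorem r200 : run 0 800 2 0 0 t0_0_800 t2_0_800 t0_0_800 t0_0_800 = true := by
  decide +kernel
theorem r201 : run 0 800 2 0 1 t0_0_800 t2_0_800 t0_0_800 t1_0_800 = true := by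
  decide +kernel
theorem r202 : run 0 800 2 0 2 t0_0_800 t2_0_800 t0_0_800 t2_0_800 = true := by
  decide +kernel
theorem r203 : run 0 800 2 0 3 t0_0_800 t2_0_800 t0_0_800 t3_0_800 = true := by
  decide +kernel
theorem r204 : run 0 800 2 0 4 t0_0_800 t2_0_800 t0_0_800 t4_0_800 = true := by
  decide +kernel
theorem r210 : run 0 800 2 1 0 t0_0_800 t2_0_800 t1_0_800 t0_0_800 = true := by
  decide +kernel
theorem r211 : run 0 800 2 1 1 t0_0_800 t2_0_800 t1_0_800 t1_0_800 = true := by
  decide +kernel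
theorem r212 : run 0 800 2 1 2 t0_0_800 t2_0_800 t1_0_800 t2_0_800 = true := by
  decide +kernel
theorem r213 : run 0 800 2 1 3 t0_0_800 t2_0_800 t1_0_800 t3_0_800 = true := by
  decide +kernel
theorem r214 : run 0 800 2 1 4 t0_0_800 t2_0_800 t1_0_800 t4_0_800 = true := by
  decide +kernel
theorem r220 : run 0 800 2 2 0 t0_0_800 t2_0_800 t2_0_800 t0_0_800 = true := by
  decide +kernel
theorem r221 : run 0 800 2 2 1 t0_0_800 t2_0_800 t2_0_800 t1_0_800 = true := by
  decide +kernel
theorem r222 : run 0 800 2 2 2 t0_0_800 t2_0_800 t2_0_800 t2_0_800 = true := by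
  decide +kernel
theorem r223 : run 0 800 2 2 3 t0_0_800 t2_0_800 t2_0_800 t3_0_800 = true := by
  decide +kernel
theorem r224 : run 0 800 2 2 4 t0_0_800 t2_0_800 t2_0_800 t4_0_800 = true := by
  decide +kernel
theorem r230 : run 0 800 2 3 0 t0_0_800 t2_0_800 t3_0_800 t0_0_800 = true := by
  decide +kernel
theorem r231 : run 0 800 2 3 1 t0_0_800 t2_0_800 t3_0_800 t1_0_800 = true := by
  decide +kernel
theorem r232 : run 0 800 2 3 2 t0_0_800 t2_0_800 t3_0_800 t2_0_800 = true := by
  decide +kernel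
theorem r233 : run 0 800 2 3 3 t0_0_800 t2_0_800 t3_0_800 t3_0_800 = true := by
  decide +kernel
theorem r234 : run 0 800 2 3 4 t0_0_800 t2_0_800 t3_0_800 t4_0_800 = true := by
  decide +kernel
theorem r240 : run 0 800 2 4 0 t0_0_800 t2_0_800 t4_0_800 t0_0_800 = true := by
  decide +kernel
theorem r241 : run 0 800 2 4 1 t0_0_800 t2_0_800 t4_0_800 t1_0_800 = true := by
  decide +kernel
theorem r242 : run 0 800 2 4 2 t0_0_800 t2_0_800 t4_0_800 t2_0_800 = true := by
  decide +kernel
theorem r243 : run 0 800 2 4 3 t0_0_800 t2_0_800 t4_0_800 t3_0_800 = true := by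
  decide +kernel
theorem r244 : run 0 800 2 4 4 t0_0_800 t2_0_800 t4_0_800 t4_0_800 = true := by
  decide +kernel

end Pool.Agent.Lib.MP_9837da_co.Two
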