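import Pool.Agent.Lib.MP_9837da_co.TwoT0
import Pool.Agent.Lib.MP_9837da_co.TwoT1
import Pool.Agent.Lib.MP_9837da_co.TwoT2
import Pool.Agent.Lib.MP_9837da_co.TwoT3
import Pool.Agent.Lib.MP_9837da_co.TwoT4

/-! Kernel evaluation of the branch and bound, part A3. -/

namespace Pool.Agent.Lib.MP_9837da_co.Two

set_option maxRecDepth 100000

theorem r300 : run 0 800 3 0 0 t0_0_800 t3_0_800 t0_0_800 t0_0_800 = true := by
  decide +kernel
theorem r301 : run 0 800 3 0 1 t0_0_800 t3_0_800 t0_0_800 t1_0_800 = true := by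
  decide +kernel
theorem r302 : run 0 800 3 0 2 t0_0_800 t3_0_800 t0_0_800 t2_0_800 = true := by
  decide +kernel
theorem r303 : run 0 800 3 0 3 t0_0_800 t3_0_800 t0_0_800 t3_0_800 = true := by
  decide +kernel
theorem r304 : run 0 800 3 0 4 t0_0_800 t3_0_800 t0_0_800 t4_0_800 = true := by
  decide +kernel
theorem r310 : run 0 800 3 1 0 t0_0_800 t3_0_800 t1_0_800 t0_0_800 = true := by
  decide +kernel
theorem r311 : run 0 800 3 1 1 t0_0_800 t3_0_800 t1_0_800 t1_0_800 = true := by
  decide +kernel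
theorem r312 : run 0 800 3 1 2 t0_0_800 t3_0_800 t1_0_800 t2_0_800 = true := by
  decide +kernel
theorem r313 : run 0 800 3 1 3 t0_0_800 t3_0_800 t1_0_800 t3_0_800 = true := by
  decide +kernel
theorem r314 : run 0 800 3 1 4 t0_0_800 t3_0_800 t1_0_800 t4_0_800 = true := by
  decide +kernel
theorem r320 : run 0 800 3 2 0 t0_0_800 t3_0_800 t2_0_800 t0_0_800 = true := by
  decide +kernel
theorem r321 : run 0 800 3 2 1 t0_0_800 t3_0_800 t2_0_800 t1_0_800 = true := by
  decide +kernel
theorem r322 : run 0 800 3 2 2 t0_0_800 t3_0_800 t2_0_800 t2_0_800 = true := by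
  decide +kernel
theorem r323 : run 0 800 3 2 3 t0_0_800 t3_0_800 t2_0_800 t3_0_800 = true := by
  decide +kernel
theorem r324 : run 0 800 3 2 4 t0_0_800 t3_0_800 t2_0_800 t4_0_800 = true := by
  decide +kernel
theorem r330 : run 0 800 3 3 0 t0_0_800 t3_0_800 t3_0_800 t0_0_800 = true := by
  decide +kernel
theorem r331 : run 0 800 3 3 1 t0_0_800 t3_0_800 t3_0_800 t1_0_800 = true := by
  decide +kernel
theorem r332 : run 0 800 3 3 2 t0_0_800 t3_0_800 t3_0_800 t2_0_800 = true := by
  decide +kernel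
theorem r333 : run 0 800 3 3 3 t0_0_800 t3_0_800 t3_0_800 t3_0_800 = true := by
  decide +kernel
theorem r334 : run 0 800 3 3 4 t0_0_800 t3_0_800 t3_0_800 t4_0_800 = true := by
  decide +kernel
theorem r340 : run 0 800 3 4 0 t0_0_800 t3_0_800 t4_0_800 t0_0_800 = true := by
  decide +kernel
theorem r341 : run 0 800 3 4 1 t0_0_800 t3_0_800 t4_0_800 t1_0_800 = true := by
  decide +kernel
theorem r342 : run 0 800 3 4 2 t0_0_800 t3_0_800 t4_0_800 t2_0_800 = true := by
  decide +kernel
theorem r343 : run 0 800 3 4 3 t0_0_800 t3_0_800 t4_0_800 t3_0_800 = true := by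
  decide +kernel
theorem r344 : run 0 800 3 4 4 t0_0_800 t3_0_800 t4_0_800 t4_0_800 = true := by
  decide +kernel

end Pool.Agent.Lib.MP_9837da_co.Two
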