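import Pool.Agent.Lib.MP_9837da_co.TwoT0
import Pool.Agent.Lib.MP_9837da_co.TwoT1
import Pool.Agent.Lib.MP_9837da_co.TwoT2
import Pool.Agent.Lib.MP_9837da_co.TwoT3
import Pool.Agent.Lib.MP_9837da_co.TwoT4

/-! Kernel evaluation of the branch and bound, part A4. -/

namespace Pool.Agent.Lib.MP_9837da_co.Two

set_option maxRecDepth 100000

theorem r400 : run 0 800 4 0 0 t0_0_800 t4_0_800 t0_0_800 t0_0_800 = true := by
  decide +kernel
theorem r401 : run 0 800 4 0 1 t0_0_800 t4_0_800 t0_0_800 t1_0_800 = true := by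
  decide +kernel
theorem r402 : run 0 800 4 0 2 t0_0_800 t4_0_800 t0_0_800 t2_0_800 = true := by
  decide +kernel
theorem r403 : run 0 800 4 0 3 t0_0_800 t4_0_800 t0_0_800 t3_0_800 = true := by
  decide +kernel
theorem r404 : run 0 800 4 0 4 t0_0_800 t4_0_800 t0_0_800 t4_0_800 = true := by
  decide +kernel
theorem r410 : run 0 800 4 1 0 t0_0_800 t4_0_800 t1_0_800 t0_0_800 = true := by
  decide +kernel
theorem r411 : run 0 800 4 1 1 t0_0_800 t4_0_800 t1_0_800 t1_0_800 = true := by
  decide +kernel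
theorem r412 : run 0 800 4 1 2 t0_0_800 t4_0_800 t1_0_800 t2_0_800 = true := by
  decide +kernel
theorem r413 : run 0 800 4 1 3 t0_0_800 t4_0_800 t1_0_800 t3_0_800 = true := by
  decide +kernel
theorem r414 : run 0 800 4 1 4 t0_0_800 t4_0_800 t1_0_800 t4_0_800 = true := by
  decide +kernel
theorem r420 : run 0 800 4 2 0 t0_0_800 t4_0_800 t2_0_800 t0_0_800 = true := by
  decide +kernel
theorem r421 : run 0 800 4 2 1 t0_0_800 t4_0_800 t2_0_800 t1_0_800 = true := by
  decide +kernel
theorem r422 : run 0 800 4 2 2 t0_0_800 t4_0_800 t2_0_800 t2_0_800 = true := by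
  decide +kernel
theorem r423 : run 0 800 4 2 3 t0_0_800 t4_0_800 t2_0_800 t3_0_800 = true := by
  decide +kernel
theorem r424 : run 0 800 4 2 4 t0_0_800 t4_0_800 t2_0_800 t4_0_800 = true := by
  decide +kernel
theorem r430 : run 0 800 4 3 0 t0_0_800 t4_0_800 t3_0_800 t0_0_800 = true := by
  decide +kernel
theorem r431 : run 0 800 4 3 1 t0_0_800 t4_0_800 t3_0_800 t1_0_800 = true := by
  decide +kernel
theorem r432 : run 0 800 4 3 2 t0_0_800 t4_0_800 t3_0_800 t2_0_800 = true := by
  decide +kernel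
theorem r433 : run 0 800 4 3 3 t0_0_800 t4_0_800 t3_0_800 t3_0_800 = true := by
  decide +kernel
theorem r434 : run 0 800 4 3 4 t0_0_800 t4_0_800 t3_0_800 t4_0_800 = true := by
  decide +kernel
theorem r440 : run 0 800 4 4 0 t0_0_800 t4_0_800 t4_0_800 t0_0_800 = true := by
  decide +kernel
theorem r441 : run 0 800 4 4 1 t0_0_800 t4_0_800 t4_0_800 t1_0_800 = true := by
  decide +kernel
theorem r442 : run 0 800 4 4 2 t0_0_800 t4_0_800 t4_0_800 t2_0_800 = true := by
  decide +kernel
theorem r443 : run 0 800 4 4 3 t0_0_800 t4_0_800 t4_0_800 t3_0_800 = true := by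
  decide +kernel
theorem r444 : run 0 800 4 4 4 t0_0_800 t4_0_800 t4_0_800 t4_0_800 = true := by
  decide +kernel

end Pool.Agent.Lib.MP_9837da_co.Two
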