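import Pool.Agent.Lib.MP_9837da_co.TwoT0
import Pool.Agent.Lib.MP_9837da_co.TwoT1
import Pool.Agent.Lib.MP_9837da_co.TwoT2
import Pool.Agent.Lib.MP_9837da_co.TwoT3
import Pool.Agent.Lib.MP_9837da_co.TwoT4

/-! Kernel evaluation of the branch and bound, part B0. -/

namespace Pool.Agent.Lib.MP_9837da_co.Two

set_option maxRecDepth 100000

theorem s0 : run 0 25 0 0 0 t0_0_800 t0_0_800 t0_0_800 t0_0_800 = true := by
  decide +kernel
theorem s1 : run 26 50 0 0 0 t0_0_800 t0_0_800 t0_0_800 t0_0_800 = true := by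
  decide +kernel
theorem s2 : run 51 75 0 0 0 t0_0_800 t0_0_800 t0_0_800 t0_0_800 = true := by
  decide +kernel
theorem s3 : run 76 100 0 0 0 t0_0_800 t0_0_800 t0_0_800 t0_0_800 = true := by
  decide +kernel
theorem s4 : run 101 125 0 0 0 t0_0_800 t0_0_800 t0_0_800 t0_0_800 = true := by
  decide +kernel
theorem s5 : run 126 150 0 0 0 t0_0_800 t0_0_800 t0_0_800 t0_0_800 = true := by
  decide +kernel
theorem s6 : run 151 175 0 0 0 t0_0_800 t0_0_800 t0_0_800 t0_0_800 = true := by
  decide +kernel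
theorem s7 : run 176 200 0 0 0 t0_0_800 t0_0_800 t0_0_800 t0_0_800 = true := by
  decide +kernel

end Pool.Agent.Lib.MP_9837da_co.Two
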