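import Pool.Agent.Lib.MP_9837da_co.TwoT0
import Pool.Agent.Lib.MP_9837da_co.TwoT1
import Pool.Agent.Lib.MP_9837da_co.TwoT2
import Pool.Agent.Lib.MP_9837da_co.TwoT3
import Pool.Agent.Lib.MP_9837da_co.TwoT4

/-! Kernel evaluation of the branch and bound, part B1. -/

namespace Pool.Agent.Lib.MP_9837da_co.Two

set_option maxRecDepth 100000

theorem s8 : run 201 225 0 0 0 t0_0_800 t0_0_800 t0_0_800 t0_0_800 = true := by
  decide +kernel
theorem s9 : run 226 250 0 0 0 t0_0_800 t0_0_800 t0_0_800 t0_0_800 = true := by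
  decide +kernel
theorem s10 : run 251 275 0 0 0 t0_0_800 t0_0_800 t0_0_800 t0_0_800 = true := by
  decide +kernel
theorem s11 : run 276 300 0 0 0 t0_0_800 t0_0_800 t0_0_800 t0_0_800 = true := by
  decide +kernel
theorem s12 : run 301 325 0 0 0 t0_0_800 t0_0_800 t0_0_800 t0_0_800 = true := by
  decide +kernel
theorem s13 : run 326 350 0 0 0 t0_0_800 t0_0_800 t0_0_800 t0_0_800 = true := by
  decide +kernel
theorem s14 : run 351 375 0 0 0 t0_0_800 t0_0_800 t0_0_800 t0_0_800 = true := by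
  decide +kernel
theorem s15 : run 376 400 0 0 0 t0_0_800 t0_0_800 t0_0_800 t0_0_800 = true := by
  decide +kernel

end Pool.Agent.Lib.MP_9837da_co.Two
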