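import Pool.Agent.Lib.MP_9837da_co.TwoT0
import Pool.Agent.Lib.MP_9837da_co.TwoT1
import Pool.Agent.Lib.MP_9837da_co.TwoT2
import Pool.Agent.Lib.MP_9837da_co.TwoT3
import Pool.Agent.Lib.MP_9837da_co.TwoT4

/-! Kernel evaluation of the branch and bound, part B2. -/

namespace Pool.Agent.Lib.MP_9837da_co.Two

set_option maxRecDepth 100000

theorem s16 : run 401 425 0 0 0 t0_0_800 t0_0_800 t0_0_800 t0_0_800 = true := by
  decide +kernel
theorem s17 : run 426 450 0 0 0 t0_0_800 t0_0_800 t0_0_800 t0_0_800 = true := by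
  decide +kernel
theorem s18 : run 451 475 0 0 0 t0_0_800 t0_0_800 t0_0_800 t0_0_800 = true := by
  decide +kernel
theorem s19 : run 476 500 0 0 0 t0_0_800 t0_0_800 t0_0_800 t0_0_800 = true := by
  decide +kernel
theorem s20 : run 501 525 0 0 0 t0_0_800 t0_0_800 t0_0_800 t0_0_800 = true := by
  decide +kernel
theorem s21 : run 526 550 0 0 0 t0_0_800 t0_0_800 t0_0_800 t0_0_800 = true := by
  decide +kernel
theorem s22 : run 551 575 0 0 0 t0_0_800 t0_0_800 t0_0_800 t0_0_800 = true := by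
  decide +kernel
theorem s23 : run 576 600 0 0 0 t0_0_800 t0_0_800 t0_0_800 t0_0_800 = true := by
  decide +kernel

end Pool.Agent.Lib.MP_9837da_co.Two
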