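import Pool.Agent.Lib.MP_9837da_co.TwoT0
import Pool.Agent.Lib.MP_9837da_co.TwoT1
import Pool.Agent.Lib.MP_9837da_co.TwoT2
import Pool.Agent.Lib.MP_9837da_co.TwoT3
import Pool.Agent.Lib.MP_9837da_co.TwoT4

/-! Kernel evaluation of the branch and bound, part B3. -/

namespace Pool.Agent.Lib.MP_9837da_co.Two

set_option maxRecDepth 100000

theorem s24 : run 601 625 0 0 0 t0_0_800 t0_0_800 t0_0_800 t0_0_800 = true := by
  decide +kernel
theorem s25 : run 626 650 0 0 0 t0_0_800 t0_0_800 t0_0_800 t0_0_800 = true := by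
  decide +kernel
theorem s26 : run 651 675 0 0 0 t0_0_800 t0_0_800 t0_0_800 t0_0_800 = true := by
  decide +kernel
theorem s27 : run 676 700 0 0 0 t0_0_800 t0_0_800 t0_0_800 t0_0_800 = true := by
  decide +kernel
theorem s28 : run 701 725 0 0 0 t0_0_800 t0_0_800 t0_0_800 t0_0_800 = true := by
  decide +kernel
theorem s29 : run 726 750 0 0 0 t0_0_800 t0_0_800 t0_0_800 t0_0_800 = true := by
  decide +kernel
theorem s30 : run 751 775 0 0 0 t0_0_800 t0_0_800 t0_0_800 t0_0_800 = true := by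
  decide +kernel
theorem s31 : run 776 800 0 0 0 t0_0_800 t0_0_800 t0_0_800 t0_0_800 = true := by
  decide +kernel

end Pool.Agent.Lib.MP_9837da_co.Two
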