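/-! Executable part of the proof of g(2,1) = 5: range trees and branch and bound. -/

namespace Pool.Agent.Lib.MP_9837da_co.Two

/-- The image of the letter 0, written in base 8. -/
def Wn : Nat := nat_lit 154347928572179628816393851131735675821174465744033021916878847266448012642385083726112880931844322301535496111673771529220876791929577343664153826659087492323628589595262796124704043115052920724201943971409977585286282616497693199247587805137644452200805847607919428252588500918564598434445117102203054912085403335687172729312097505564307561517839562554451108010640551953810509172331500188391233140506113545449685630323568594549180846567690442508943444207340617490341869653761664162144248603862076855548273121270455856895464658273673075473795020308415895500304961042042741552474787649891642472208254762051729454402374270635940369746361228930836313173579514932952473262337356124924488553894045907087005171478215118017074448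

/-- The letter at position r of the image of 0. -/
def wN (r : Nat) : Nat := Nat.mod (Nat.mod (Nat.shiftRight Wn (Nat.mul 3 r)) 8) 5

/-- Shifted first column of the adjugate of the incidence matrix. -/
def alN (k : Nat) : Nat := [644152185, 0, 84511908, 51996114, 136649799].getD k 0

/-- A range of positions with bounds for five functionals. -/
structure Bx where
  a : Nat
  b : Nat
  l0 : Nat
  h0 : Nat
  l1 : Nat
  h1 : Nat
  l2 : Nat
  h2 : Nat
  l3 : Nat
  h3 : Nat
  l4 : Nat
  h4 : Nat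

inductive Tr where
  | lf (x : Bx) : Tr
  | nd (x : Bx) (s t : Tr) : Tr

noncomputable def op (t : Tr) (k : Bx → Bool) : Bool :=
  Tr.rec (motive := fun _ => Bool) (fun x => k x) (fun x _ _ _ _ => k x) t

noncomputable def sp (t : Tr) (k : Tr → Bool) : Bool :=
  Tr.rec (motive := fun _ => Bool) (fun x => k (Tr.lf x))
    (fun _ s u _ _ => Bool.rec (motive := fun _ => Bool) false (k u) (k s)) t

noncomputable def fld (D C l1 h1 l2 h2 l3 h3 l4 h4 z : Nat) (n : Bool) (k : Nat → Bool → Bool) :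
    Bool :=
  (fun (q : Nat) =>
    (fun (u v : Nat) =>
      Bool.rec (motive := fun _ => Bool) true
        (k (Nat.add q (Nat.mul (nat_lit 64) z))
          (Bool.rec (motive := fun _ => Bool)
            (Bool.rec (motive := fun _ => Bool) n true (Nat.ble (nat_lit 61) q)) true
            (Nat.ble (Nat.add v D) u))) (Nat.ble v u))
      (Nat.add (Nat.mul D q) (Nat.add (Nat.mul (nat_lit 2) h2) h4))
      (Nat.add (Nat.add l1 (Nat.mul (nat_lit 2) l3)) C))
    (Nat.div (Nat.sub (Nat.add (Nat.add h1 (Nat.mul (nat_lit 2) h3)) C)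
      (Nat.add (Nat.mul (nat_lit 2) l2) l4)) D)

noncomputable def len (D C a1 b1 a2 b2 a3 b3 a4 b4 : Nat) (k : Bool) : Bool :=
  Bool.rec (motive := fun _ => Bool) true k
    (Nat.ble (Nat.add (Nat.add a1 (Nat.mul (nat_lit 2) a3)) C)
      (Nat.add (Nat.mul D
        (Nat.div (Nat.sub (Nat.add (Nat.add b1 (Nat.mul (nat_lit 2) b3)) C)
          (Nat.add (Nat.mul (nat_lit 2) a2) a4)) D))
        (Nat.add (Nat.mul (nat_lit 2) b2) b4)))

def okE (s12 s23 s34 s14 q14 e1 e2 e3 e4 : Bool) : Bool :=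
  (!s12 || !e1 || e2) && (!s23 || !e2 || e3) && (!s34 || !e3 || e4) &&
    !(s12 && s23 && s34 && s14 && (e1 == e4)) &&
    !(e1 && !e4 && (!e3 || e2) && !q14 && (e1 != e2 || s12) && (e2 != e3 || s23) &&
      (e3 != e4 || s34))

noncomputable def mt (A B : Nat) (o r : Bool) : Bool :=
  Bool.rec (motive := fun _ => Bool) r (Bool.rec (motive := fun _ => Bool) r true o) (Nat.beq A B)

noncomputable def row (A B0 B1 B2 B3 : Nat) (o : Bool → Bool → Bool) (r : Bool) : Bool :=
  mt A B0 (o false false) (mt A B1 (o true false) (mt A B2 (o false true) (mt A B3 (o true true) r)))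

noncomputable def gd (z u2 w4 B0 B1 B2 B3 : Nat) (o : Bool → Bool → Bool → Bool → Bool) : Bool :=
  row z B0 B1 B2 B3 (fun e1 e3 => o e1 false e3 false)
    (row (Nat.add z w4) B0 B1 B2 B3 (fun e1 e3 => o e1 false e3 true)
      (row (Nat.add z u2) B0 B1 B2 B3 (fun e1 e3 => o e1 true e3 false)
        (row (Nat.add (Nat.add z u2) w4) B0 B1 B2 B3 (fun e1 e3 => o e1 true e3 true) false)))

noncomputable def fin (q12 q23 q34 q14 : Bool) (u2 w4 B0 B1 B2 B3 : Nat) (x1 x2 x3 x4 : Bx)
    (z : Nat) (n : Bool) : Bool :=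
  Bool.rec (motive := fun _ => Bool)
    (gd z u2 w4 B0 B1 B2 B3
      (okE (q12 && Nat.ble x1.a x2.b) (q23 && Nat.ble x2.a x3.b)
        (q34 && Nat.ble x3.a x4.b) (!Nat.ble x4.b x1.a) q14)) false n

noncomputable def rng (lo hi a b : Nat) (k : Bool) : Bool :=
  Bool.rec (motive := fun _ => Bool) true
    (Bool.rec (motive := fun _ => Bool) true k (Nat.ble lo b)) (Nat.ble a hi)

noncomputable def test (L M D C lo hi : Nat) (F : Bx → Bx → Bx → Bx → Nat → Bool → Bool)
    (x1 x2 x3 x4 : Bx) : Bool :=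
  rng lo hi x2.a x2.b (len L M x1.a x1.b x2.a x2.b x3.a x3.b x4.a x4.b
  (fld D C x1.l4 x1.h4 x2.l4 x2.h4 x3.l4 x3.h4 x4.l4 x4.h4 (nat_lit 0) false fun z n =>
   fld D C x1.l3 x1.h3 x2.l3 x2.h3 x3.l3 x3.h3 x4.l3 x4.h3 z n fun z n =>
   fld D C x1.l2 x1.h2 x2.l2 x2.h2 x3.l2 x3.h2 x4.l2 x4.h2 z n fun z n =>
   fld D C x1.l1 x1.h1 x2.l1 x2.h1 x3.l1 x3.h1 x4.l1 x4.h1 z n fun z n =>
   fld D C x1.l0 x1.h0 x2.l0 x2.h0 x3.l0 x3.h0 x4.l0 x4.h0 z n (F x1 x2 x3 x4)))

noncomputable def tst (T : Bx → Bx → Bx → Bx → Bool) (t1 t2 t3 t4 : Tr) : Bool :=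
  op t1 fun x1 => op t2 fun x2 => op t3 fun x3 => op t4 fun x4 => T x1 x2 x3 x4

noncomputable def bb (T : Tr → Tr → Tr → Tr → Bool) (n : Nat) : Tr → Tr → Tr → Tr → Bool :=
  Nat.rec (motive := fun _ => Tr → Tr → Tr → Tr → Bool) (fun _ _ _ _ => false)
    (fun _ ih t1 t2 t3 t4 =>
      sp t2 fun t2 => Bool.rec (motive := fun _ => Bool)
        (sp t3 fun t3 => Bool.rec (motive := fun _ => Bool)
          (sp t1 fun t1 => Bool.rec (motive := fun _ => Bool)
            (sp t4 fun t4 => Bool.rec (motive := fun _ => Bool)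
              (ih t1 t2 t3 t4) true (T t1 t2 t3 t4))
            true (T t1 t2 t3 t4))
          true (T t1 t2 t3 t4))
        true (T t1 t2 t3 t4)) n

/-- The branch and bound for the letters 0, x2, x3, x4, the second position being in [lo, hi]. -/
noncomputable def run (lo hi x2 x3 x4 : Nat) (t1 t2 t3 t4 : Tr) : Bool :=
  bb (tst (test (nat_lit 801) (nat_lit 2403) (nat_lit 52858992051) (nat_lit 211435968204) lo hi
    (fin (Nat.beq 0 x2) (Nat.beq x2 x3) (Nat.beq x3 x4) (Nat.beq 0 x4)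
    (Nat.mul 2 (Nat.pow 64 x2)) (Nat.pow 64 x4) 68174084 68174085
    (Nat.add 68174084 (Nat.mul 2 (Nat.pow 64 x3))) (Nat.add 68174085 (Nat.mul 2 (Nat.pow 64 x3))))))
    10 t1 t2 t3 t4

def Tr.bx : Tr → Bx
  | .lf x => x
  | .nd x _ _ => x

def Tr.fs : Tr → Bx
  | .lf x => x
  | .nd _ s _ => s.fs

def Tr.ls : Tr → Bx
  | .lf x => x
  | .nd _ _ t => t.ls

def sub (z y : Bx) : Bool :=
  Nat.ble y.a z.a && Nat.ble z.b y.b && Nat.ble y.l0 z.l0 && Nat.ble z.h0 y.h0 &&
    Nat.ble y.l1 z.l1 && Nat.ble z.h1 y.h1 && Nat.ble y.l2 z.l2 && Nat.ble z.h2 y.h2 &&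
    Nat.ble y.l3 z.l3 && Nat.ble z.h3 y.h3 && Nat.ble y.l4 z.l4 && Nat.ble z.h4 y.h4

def lk (x r j u v : Nat) : Bool :=
  Nat.beq (v + 170263751) (u + alN ((j + 10 - (wN r + x)) % 5))

def link (x : Nat) (y z : Bx) : Bool :=
  Nat.beq z.a (y.a + 1) && lk x y.a 0 y.l0 z.l0 && lk x y.a 1 y.l1 z.l1 && lk x y.a 2 y.l2 z.l2 &&
    lk x y.a 3 y.l3 z.l3 && lk x y.a 4 y.l4 z.l4

def chk (x : Nat) : Tr → Bool
  | .lf y => Nat.beq y.a y.b && Nat.beq y.l0 y.h0 && Nat.beq y.l1 y.h1 && Nat.beq y.l2 y.h2 &&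
      Nat.beq y.l3 y.h3 && Nat.beq y.l4 y.h4
  | .nd y s t => chk x s && chk x t && sub s.bx y && sub t.bx y && link x s.ls t.fs

def ev (x j : Nat) : Nat := if j = x then 158576976153 else 105717984102

def chkAll (x : Nat) (t : Tr) : Bool :=
  chk x t && Nat.beq t.fs.a 0 && Nat.beq t.fs.l0 105717984102 && Nat.beq t.fs.l1 105717984102 &&
    Nat.beq t.fs.l2 105717984102 && Nat.beq t.fs.l3 105717984102 &&
    Nat.beq t.fs.l4 105717984102 &&
    link x t.ls ⟨801, 801, ev x 0, 0, ev x 1, 0, ev x 2, 0, ev x 3, 0, ev x 4, 0⟩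

end Pool.Agent.Lib.MP_9837da_co.Two
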