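import Mathlib
import Pool.Agent.Lib.MP_9837da_co.TwoCore

/-! Soundness of the branch and bound. -/

namespace Pool.Agent.Lib.MP_9837da_co.Two

def Bx.In (y : Bx) (v : ℕ → Fin 5 → ℤ) (r : ℕ) : Prop :=
  (y.a ≤ r ∧ r ≤ y.b) ∧ ((y.l0 : ℤ) ≤ v r 0 ∧ v r 0 ≤ y.h0) ∧ ((y.l1 : ℤ) ≤ v r 1 ∧ v r 1 ≤ y.h1) ∧
    ((y.l2 : ℤ) ≤ v r 2 ∧ v r 2 ≤ y.h2) ∧ ((y.l3 : ℤ) ≤ v r 3 ∧ v r 3 ≤ y.h3) ∧
    ((y.l4 : ℤ) ≤ v r 4 ∧ v r 4 ≤ y.h4)

def Tr.Cov (v : ℕ → Fin 5 → ℤ) : Tr → ℕ → Prop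
  | .lf x, r => x.In v r
  | .nd x s t, r => x.In v r ∧ (s.Cov v r ∨ t.Cov v r)

lemma Tr.Cov.bx {v : ℕ → Fin 5 → ℤ} {t : Tr} {r : ℕ} (h : t.Cov v r) : t.bx.In v r := by
  cases t with
  | lf x => exact h
  | nd x s t => exact h.1

lemma op_eq (t : Tr) (k : Bx → Bool) : op t k = k t.bx := by
  cases t <;> rfl

lemma sp_sound {v : ℕ → Fin 5 → ℤ} {t : Tr} {k : Tr → Bool} {r : ℕ} (h : sp t k = true)
    (hc : t.Cov v r) : ∃ t', k t' = true ∧ t'.Cov v r := by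
  cases t with
  | lf x => exact ⟨_, h, hc⟩
  | nd x s u =>
    have h' : Bool.rec (motive := fun _ => Bool) false (k u) (k s) = true := h
    cases hs : k s with
    | false => rw [hs] at h'; exact absurd h' (by simp)
    | true =>
      rw [hs] at h'
      rcases hc.2 with h1 | h1
      · exact ⟨s, hs, h1⟩
      · exact ⟨u, h', h1⟩

lemma orr {a b : Bool} (h : Bool.rec (motive := fun _ => Bool) a true b = true) :
    b = true ∨ a = true := by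
  cases b
  · exact Or.inr h
  · exact Or.inl rfl

lemma bb_sound {v1 v2 v3 v4 : ℕ → Fin 5 → ℤ} {r1 r2 r3 r4 : ℕ} {T : Tr → Tr → Tr → Tr → Bool}
    {G : Prop} (hT : ∀ t1 t2 t3 t4, T t1 t2 t3 t4 = true → t1.Cov v1 r1 → t2.Cov v2 r2 →
      t3.Cov v3 r3 → t4.Cov v4 r4 → G) (n : ℕ) :
    ∀ t1 t2 t3 t4, bb T n t1 t2 t3 t4 = true → t1.Cov v1 r1 → t2.Cov v2 r2 →
      t3.Cov v3 r3 → t4.Cov v4 r4 → G := by
  induction n with
  | zero => intro t1 t2 t3 t4 h; exact absurd h (by simp [bb])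
  | succ n ih =>
    intro t1 t2 t3 t4 h c1 c2 c3 c4
    obtain ⟨t2, h, c2⟩ := sp_sound (k := fun t2 => Bool.rec (motive := fun _ => Bool)
        (sp t3 fun t3 => Bool.rec (motive := fun _ => Bool)
          (sp t1 fun t1 => Bool.rec (motive := fun _ => Bool)
            (sp t4 fun t4 => Bool.rec (motive := fun _ => Bool)
              (bb T n t1 t2 t3 t4) true (T t1 t2 t3 t4))
            true (T t1 t2 t3 t4))
          true (T t1 t2 t3 t4))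
        true (T t1 t2 t3 t4)) h c2
    rcases orr h with h | h
    · exact hT _ _ _ _ h c1 c2 c3 c4
    obtain ⟨t3, h, c3⟩ := sp_sound h c3
    rcases orr h with h | h
    · exact hT _ _ _ _ h c1 c2 c3 c4
    obtain ⟨t1, h, c1⟩ := sp_sound h c1
    rcases orr h with h | h
    · exact hT _ _ _ _ h c1 c2 c3 c4
    obtain ⟨t4, h, c4⟩ := sp_sound h c4
    rcases orr h with h | h
    · exact hT _ _ _ _ h c1 c2 c3 c4
    exact ih _ _ _ _ h c1 c2 c3 c4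

lemma andr {a b : Bool} (h : Bool.rec (motive := fun _ => Bool) true a b = true) (hb : b = true) :
    a = true := by
  subst hb; exact h

lemma fld_sound {D C : ℕ} (hD' : D = 52858992051) (hC' : C = 211435968204) {l1 h1 l2 h2 l3 h3 l4 h4 z : ℕ} {n : Bool} {k : ℕ → Bool → Bool}
    {y1 y2 y3 y4 Z : ℤ} (H : fld D C l1 h1 l2 h2 l3 h3 l4 h4 z n k = true)
    (b1 : (l1 : ℤ) ≤ y1 ∧ y1 ≤ h1) (b2 : (l2 : ℤ) ≤ y2 ∧ y2 ≤ h2) (b3 : (l3 : ℤ) ≤ y3 ∧ y3 ≤ h3)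
    (b4 : (l4 : ℤ) ≤ y4 ∧ y4 ≤ h4) (e : y1 - 2 * y2 + 2 * y3 - y4 = 52858992051 * Z) :
    ∃ (q : ℕ) (n' : Bool), k (q + 64 * z) n' = true ∧
      (n' = false → n = false ∧ q ≤ 60 ∧ Z + 4 = q) := by
  obtain ⟨q, hq⟩ : ∃ q : ℕ, q = (h1 + 2 * h3 + C - (2 * l2 + l4)) / D := ⟨_, rfl⟩
  obtain ⟨u, hu⟩ : ∃ u : ℕ, u = D * q + (2 * h2 + h4) := ⟨_, rfl⟩
  obtain ⟨w, hw⟩ : ∃ w : ℕ, w = l1 + 2 * l3 + C := ⟨_, rfl⟩
  have H' : Bool.rec (motive := fun _ => Bool) true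
      (k (q + 64 * z) (Bool.rec (motive := fun _ => Bool)
        (Bool.rec (motive := fun _ => Bool) n true (Nat.ble 61 q)) true
        (Nat.ble (w + D) u))) (Nat.ble w u) = true := by
    subst hw hu hq
    exact H
  clear H
  have hZ : Z + 4 ≤ q := by clear H'; subst hD' hC'; omega
  have hwu : w ≤ u := by clear H'; subst hD' hC'; omega
  have hq' : ¬ w + D ≤ u → (q : ℤ) ≤ Z + 4 := by clear H'; subst hD' hC'; omega
  clear hq hu hw hD' hC'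
  refine ⟨q, _, andr H' (Nat.ble_eq.mpr hwu), fun hn => ?_⟩
  cases h61 : Nat.ble 61 q with
  | true => rw [h61] at hn; cases h' : Nat.ble (w + D) u <;> rw [h'] at hn <;> simp at hn
  | false =>
    rw [h61] at hn
    cases h' : Nat.ble (w + D) u with
    | true => rw [h'] at hn; simp at hn
    | false =>
      rw [h'] at hn
      have a1 : ¬ 61 ≤ q := by rw [← Nat.ble_eq, h61]; simp
      have a2 : ¬ w + D ≤ u := by rw [← Nat.ble_eq, h']; simp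
      have := hq' a2
      refine ⟨hn, by omega, by omega⟩

lemma len_sound {D C : ℕ} (hD' : D = 801) (hC' : C = 2403) {a1 b1 a2 b2 a3 b3 a4 b4 : ℕ} {k : Bool} {r1 r2 r3 r4 : ℕ} {m : ℤ}
    (H : len D C a1 b1 a2 b2 a3 b3 a4 b4 k = true)
    (h1 : a1 ≤ r1 ∧ r1 ≤ b1) (h2 : a2 ≤ r2 ∧ r2 ≤ b2) (h3 : a3 ≤ r3 ∧ r3 ≤ b3)
    (h4 : a4 ≤ r4 ∧ r4 ≤ b4) (e : (r1 : ℤ) - 2 * r2 + 2 * r3 - r4 = 801 * m) : k = true := by
  have H' : Bool.rec (motive := fun _ => Bool) true k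
      (Nat.ble (a1 + 2 * a3 + C)
        (D * ((b1 + 2 * b3 + C - (2 * a2 + a4)) / D) + (2 * b2 + b4))) = true := H
  refine andr H' (Nat.ble_eq.mpr ?_)
  clear H H'
  subst hD' hC'
  omega

lemma rng_sound {lo hi a b r : ℕ} {k : Bool} (H : rng lo hi a b k = true) (h : a ≤ r ∧ r ≤ b)
    (h' : lo ≤ r ∧ r ≤ hi) : k = true :=
  andr (andr H (Nat.ble_eq.mpr (by omega))) (Nat.ble_eq.mpr (by omega))

lemma mt_sound {A B : ℕ} {o r : Bool} (h : mt A B o r = true) : (A = B ∧ o = true) ∨ r = true := by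
  unfold mt at h
  cases hAB : Nat.beq A B with
  | false => rw [hAB] at h; exact Or.inr h
  | true =>
    rw [hAB] at h
    rcases orr h with h | h
    · exact Or.inl ⟨Nat.eq_of_beq_eq_true hAB, h⟩
    · exact Or.inr h

lemma row_sound {A K w1 u3 : ℕ} {o : Bool → Bool → Bool} {r : Bool} {B0 B1 B2 B3 : ℕ}
    (e0 : B0 = K) (e1 : B1 = K + w1) (e2 : B2 = K + u3) (e3 : B3 = K + w1 + u3)
    (h : row A B0 B1 B2 B3 o r = true) :
    (∃ e1 e3 : Bool, A = K + (if e1 then w1 else 0) + (if e3 then u3 else 0) ∧ o e1 e3 = true) ∨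
      r = true := by
  subst e0 e1 e2 e3
  unfold row at h
  rcases mt_sound h with h | h
  · exact Or.inl ⟨false, false, by simpa using h.1, h.2⟩
  rcases mt_sound h with h | h
  · exact Or.inl ⟨true, false, by simpa using h.1, h.2⟩
  rcases mt_sound h with h | h
  · exact Or.inl ⟨false, true, by simpa using h.1, h.2⟩
  rcases mt_sound h with h | h
  · exact Or.inl ⟨true, true, by simpa using h.1, h.2⟩
  exact Or.inr h

lemma gd_sound {z u2 w4 K w1 u3 : ℕ} {o : Bool → Bool → Bool → Bool → Bool} {B0 B1 B2 B3 : ℕ}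
    (e0 : B0 = K) (e1 : B1 = K + w1) (e2 : B2 = K + u3) (e3 : B3 = K + w1 + u3)
    (h : gd z u2 w4 B0 B1 B2 B3 o = true) :
    ∃ e1 e2 e3 e4 : Bool, z + (if e2 then u2 else 0) + (if e4 then w4 else 0)
      = K + (if e1 then w1 else 0) + (if e3 then u3 else 0) ∧ o e1 e2 e3 e4 = true := by
  unfold gd at h
  rcases row_sound e0 e1 e2 e3 h with ⟨a, b, h, h'⟩ | h
  · exact ⟨a, false, b, false, by simpa using h, h'⟩
  rcases row_sound e0 e1 e2 e3 h with ⟨a, b, h, h'⟩ | h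
  · exact ⟨a, false, b, true, by simpa using h, h'⟩
  rcases row_sound e0 e1 e2 e3 h with ⟨a, b, h, h'⟩ | h
  · exact ⟨a, true, b, false, by simpa using h, h'⟩
  rcases row_sound e0 e1 e2 e3 h with ⟨a, b, h, h'⟩ | h
  · exact ⟨a, true, b, true, by simpa using h, h'⟩
  exact absurd h (by simp)

def ind (x : Fin 5) (e : Bool) (j : Fin 5) : ℤ := if e = true ∧ x = j then 1 else 0

def Good (x1 x2 x3 x4 : Fin 5) (r1 r2 r3 r4 : ℕ) (Z : Fin 5 → ℤ) : Prop :=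
  ∃ e1 e2 e3 e4 : Bool,
    (∀ j, Z j = ind x1 e1 j - 2 * ind x2 e2 j + 2 * ind x3 e3 j - ind x4 e4 j) ∧
    okE (decide (x1 = x2 ∧ r1 ≤ r2)) (decide (x2 = x3 ∧ r2 ≤ r3)) (decide (x3 = x4 ∧ r3 ≤ r4))
      (decide (r1 < r4)) (decide (x1 = x4)) e1 e2 e3 e4 = true

lemma okE_mono : ∀ s12 s23 s34 s14 t12 t23 t34 t14 q e1 e2 e3 e4 : Bool,
    (s12 = true → t12 = true) → (s23 = true → t23 = true) → (s34 = true → t34 = true) →
    (s14 = true → t14 = true) → okE t12 t23 t34 t14 q e1 e2 e3 e4 = true →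
    okE s12 s23 s34 s14 q e1 e2 e3 e4 = true := by
  decide +kernel

lemma ind_pack : ∀ (x : Fin 5) (e : Bool), (((if e then 64 ^ x.val else 0 : ℕ)) : ℤ)
    = ind x e 0 + 64 * ind x e 1 + 4096 * ind x e 2 + 262144 * ind x e 3
      + 16777216 * ind x e 4 := by
  decide +kernel

lemma ind_pack2 : ∀ (x : Fin 5) (e : Bool), (((if e then 2 * 64 ^ x.val else 0 : ℕ)) : ℤ)
    = 2 * (ind x e 0 + 64 * ind x e 1 + 4096 * ind x e 2 + 262144 * ind x e 3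
      + 16777216 * ind x e 4) := by
  decide +kernel

lemma ind_bd (x : Fin 5) (e : Bool) (j : Fin 5) : 0 ≤ ind x e j ∧ ind x e j ≤ 1 := by
  unfold ind; split_ifs <;> simp

lemma digits {a0 a1 a2 a3 a4 b0 b1 b2 b3 b4 : ℤ}
    (h0 : 0 ≤ a0 ∧ a0 ≤ 63) (h1 : 0 ≤ a1 ∧ a1 ≤ 63) (h2 : 0 ≤ a2 ∧ a2 ≤ 63) (h3 : 0 ≤ a3 ∧ a3 ≤ 63)
    (g0 : 0 ≤ b0 ∧ b0 ≤ 63) (g1 : 0 ≤ b1 ∧ b1 ≤ 63) (g2 : 0 ≤ b2 ∧ b2 ≤ 63) (g3 : 0 ≤ b3 ∧ b3 ≤ 63)
    (h : a0 + 64 * a1 + 4096 * a2 + 262144 * a3 + 16777216 * a4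
      = b0 + 64 * b1 + 4096 * b2 + 262144 * b3 + 16777216 * b4) :
    a0 = b0 ∧ a1 = b1 ∧ a2 = b2 ∧ a3 = b3 ∧ a4 = b4 := by
  have e0 : a0 = b0 := by omega
  have e1 : a1 = b1 := by omega
  have e2 : a2 = b2 := by omega
  have e3 : a3 = b3 := by omega
  omega

lemma beq_val (x y : Fin 5) : Nat.beq x.val y.val = decide (x = y) := by
  revert x y; decide

lemma fin_sound {q12 q23 q34 q14 : Bool} {u2 w4 B0 B1 B2 B3 : ℕ} {x1 x2 x3 x4 : Bx} {z : ℕ}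
    {n : Bool} (h : fin q12 q23 q34 q14 u2 w4 B0 B1 B2 B3 x1 x2 x3 x4 z n = true) :
    n = false ∧ gd z u2 w4 B0 B1 B2 B3
      (okE (q12 && Nat.ble x1.a x2.b) (q23 && Nat.ble x2.a x3.b)
        (q34 && Nat.ble x3.a x4.b) (!Nat.ble x4.b x1.a) q14) = true := by
  cases n with
  | true => exact absurd h (by simp [fin])
  | false => exact ⟨rfl, h⟩

lemma test_sound {L M D C K : ℕ} (hL : L = 801) (hM : M = 2403) (hD : D = 52858992051)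
    (hC : C = 211435968204) (hK : K = 68174084) {v1 v2 v3 v4 : ℕ → Fin 5 → ℤ} {r1 r2 r3 r4 lo hi : ℕ} (x2 x3 x4 : Fin 5)
    {t1 t2 t3 t4 : Tr} {Z : Fin 5 → ℤ} {m : ℤ}
    (h : tst (test L M D C lo hi (fin (Nat.beq 0 x2.val) (Nat.beq x2.val x3.val)
      (Nat.beq x3.val x4.val) (Nat.beq 0 x4.val) (2 * 64 ^ x2.val) (64 ^ x4.val) K
      (K + 64 ^ (0 : Fin 5).val) (K + 2 * 64 ^ x3.val)
      (K + 64 ^ (0 : Fin 5).val + 2 * 64 ^ x3.val))) t1 t2 t3 t4 = true)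
    (c1 : t1.Cov v1 r1) (c2 : t2.Cov v2 r2) (c3 : t3.Cov v3 r3) (c4 : t4.Cov v4 r4)
    (hr : lo ≤ r2 ∧ r2 ≤ hi) (hl : (r1 : ℤ) - 2 * r2 + 2 * r3 - r4 = 801 * m)
    (hZ : ∀ j, v1 r1 j - 2 * v2 r2 j + 2 * v3 r3 j - v4 r4 j = 52858992051 * Z j) :
    Good 0 x2 x3 x4 r1 r2 r3 r4 Z := by
  unfold tst at h
  simp only [op_eq] at h
  obtain ⟨p1, p10, p11, p12, p13, p14⟩ := c1.bx
  obtain ⟨p2, p20, p21, p22, p23, p24⟩ := c2.bx
  obtain ⟨p3, p30, p31, p32, p33, p34⟩ := c3.bx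
  obtain ⟨p4, p40, p41, p42, p43, p44⟩ := c4.bx
  unfold test at h
  replace h := len_sound hL hM (rng_sound h p2 hr) p1 p2 p3 p4 hl
  obtain ⟨q4, n4, g4, k4⟩ := fld_sound hD hC h p14 p24 p34 p44 (hZ 4)
  obtain ⟨q3, n3, g3, k3⟩ := fld_sound hD hC g4 p13 p23 p33 p43 (hZ 3)
  obtain ⟨q2, n2, g2, k2⟩ := fld_sound hD hC g3 p12 p22 p32 p42 (hZ 2)
  obtain ⟨q1, n1, g1, k1⟩ := fld_sound hD hC g2 p11 p21 p31 p41 (hZ 1)
  obtain ⟨q0, n0, g0, k0⟩ := fld_sound hD hC g1 p10 p20 p30 p40 (hZ 0)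
  obtain ⟨m0, gg⟩ := fin_sound g0
  clear h g4 g3 g2 g1 g0
  obtain ⟨m1, b0, z0⟩ := k0 m0
  obtain ⟨m2, b1, z1⟩ := k1 m1
  obtain ⟨m3, b2, z2⟩ := k2 m2
  obtain ⟨m4, b3, z3⟩ := k3 m3
  obtain ⟨-, b4, z4⟩ := k4 m4
  obtain ⟨e1, e2, e3, e4, he, ho⟩ := gd_sound rfl rfl rfl rfl gg
  · refine ⟨e1, e2, e3, e4, ?_, ?_⟩
    · have he' := congrArg (Nat.cast : ℕ → ℤ) he
      have i1 := ind_pack 0 e1
      have i2 := ind_pack2 x2 e2
      have i3 := ind_pack2 x3 e3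
      have i4 := ind_pack x4 e4
      rw [Nat.cast_add, Nat.cast_add, Nat.cast_add, Nat.cast_add, Nat.cast_add] at he'
      erw [i1, i2, i3, i4] at he'
      have d := digits (a0 := q0 + 2 * ind x2 e2 0 + ind x4 e4 0)
        (a1 := q1 + 2 * ind x2 e2 1 + ind x4 e4 1) (a2 := q2 + 2 * ind x2 e2 2 + ind x4 e4 2)
        (a3 := q3 + 2 * ind x2 e2 3 + ind x4 e4 3) (a4 := q4 + 2 * ind x2 e2 4 + ind x4 e4 4)
        (b0 := 4 + ind 0 e1 0 + 2 * ind x3 e3 0) (b1 := 4 + ind 0 e1 1 + 2 * ind x3 e3 1)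
        (b2 := 4 + ind 0 e1 2 + 2 * ind x3 e3 2) (b3 := 4 + ind 0 e1 3 + 2 * ind x3 e3 3)
        (b4 := 4 + ind 0 e1 4 + 2 * ind x3 e3 4)
        (by have := ind_bd x2 e2 0; have := ind_bd x4 e4 0; omega)
        (by have := ind_bd x2 e2 1; have := ind_bd x4 e4 1; omega)
        (by have := ind_bd x2 e2 2; have := ind_bd x4 e4 2; omega)
        (by have := ind_bd x2 e2 3; have := ind_bd x4 e4 3; omega)
        (by have := ind_bd 0 e1 0; have := ind_bd x3 e3 0; omega)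
        (by have := ind_bd 0 e1 1; have := ind_bd x3 e3 1; omega)
        (by have := ind_bd 0 e1 2; have := ind_bd x3 e3 2; omega)
        (by have := ind_bd 0 e1 3; have := ind_bd x3 e3 3; omega)
        (by subst hK; push_cast at he'; linarith)
      intro j
      fin_cases j
      · show Z 0 = ind 0 e1 0 - 2 * ind x2 e2 0 + 2 * ind x3 e3 0 - ind x4 e4 0
        omega
      · show Z 1 = ind 0 e1 1 - 2 * ind x2 e2 1 + 2 * ind x3 e3 1 - ind x4 e4 1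
        omega
      · show Z 2 = ind 0 e1 2 - 2 * ind x2 e2 2 + 2 * ind x3 e3 2 - ind x4 e4 2
        omega
      · show Z 3 = ind 0 e1 3 - 2 * ind x2 e2 3 + 2 * ind x3 e3 3 - ind x4 e4 3
        omega
      · show Z 4 = ind 0 e1 4 - 2 * ind x2 e2 4 + 2 * ind x3 e3 4 - ind x4 e4 4
        omega
    · have f2 : Nat.beq 0 x2.val = decide (0 = x2) := beq_val 0 x2
      have f4 : Nat.beq 0 x4.val = decide (0 = x4) := beq_val 0 x4
      rw [f2, f4, beq_val, beq_val] at ho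
      refine okE_mono _ _ _ _ _ _ _ _ _ _ _ _ _ ?_ ?_ ?_ ?_ ho
      · simp only [decide_eq_true_eq, Bool.and_eq_true, Nat.ble_eq]
        exact fun h => ⟨h.1, by omega⟩
      · simp only [decide_eq_true_eq, Bool.and_eq_true, Nat.ble_eq]
        exact fun h => ⟨h.1, by omega⟩
      · simp only [decide_eq_true_eq, Bool.and_eq_true, Nat.ble_eq]
        exact fun h => ⟨h.1, by omega⟩
      · simp only [decide_eq_true_eq, Bool.not_eq_true', ← Bool.not_eq_true, Nat.ble_eq]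
        intro h
        omega

lemma run_sound {v1 v2 v3 v4 : ℕ → Fin 5 → ℤ} {r1 r2 r3 r4 lo hi : ℕ} (x2 x3 x4 : Fin 5)
    {t1 t2 t3 t4 : Tr} {Z : Fin 5 → ℤ} {m : ℤ}
    (h : run lo hi x2.val x3.val x4.val t1 t2 t3 t4 = true)
    (c1 : t1.Cov v1 r1) (c2 : t2.Cov v2 r2) (c3 : t3.Cov v3 r3) (c4 : t4.Cov v4 r4)
    (hr : lo ≤ r2 ∧ r2 ≤ hi) (hl : (r1 : ℤ) - 2 * r2 + 2 * r3 - r4 = 801 * m)
    (hZ : ∀ j, v1 r1 j - 2 * v2 r2 j + 2 * v3 r3 j - v4 r4 j = 52858992051 * Z j) :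
    Good 0 x2 x3 x4 r1 r2 r3 r4 Z := by
  unfold run at h
  refine bb_sound (v1 := v1) (v2 := v2) (v3 := v3) (v4 := v4) (r1 := r1) (r2 := r2) (r3 := r3)
    (r4 := r4) ?_ 10 t1 t2 t3 t4 h c1 c2 c3 c4
  intro t1 t2 t3 t4 h c1 c2 c3 c4
  exact test_sound (K := 68174084) rfl rfl rfl rfl rfl x2 x3 x4 h c1 c2 c3 c4 hr hl hZ

end Pool.Agent.Lib.MP_9837da_co.Two
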