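import Mathlib
import Pool.Agent.Lib.MP_9837da_co.TwoSound
import Pool.Agent.Lib.MP_9837da_co.TwoA0
import Pool.Agent.Lib.MP_9837da_co.TwoA1
import Pool.Agent.Lib.MP_9837da_co.TwoA2
import Pool.Agent.Lib.MP_9837da_co.TwoA3
import Pool.Agent.Lib.MP_9837da_co.TwoA4
import Pool.Agent.Lib.MP_9837da_co.TwoB0
import Pool.Agent.Lib.MP_9837da_co.TwoB1
import Pool.Agent.Lib.MP_9837da_co.TwoB2
import Pool.Agent.Lib.MP_9837da_co.TwoB3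

/-! The finite check behind the morphism. -/

namespace Pool.Agent.Lib.MP_9837da_co.Two

lemma wN_lt (r : ℕ) : wN r < 5 := Nat.mod_lt _ (by norm_num)

def wd (r : ℕ) : Fin 5 := ⟨wN r, wN_lt r⟩

def al (k : Fin 5) : ℤ := (alN k.val : ℤ) - 170263751

def V (x : Fin 5) : ℕ → Fin 5 → ℤ
  | 0, _ => 105717984102
  | r + 1, j => V x r j + al (j - (wd r + x))

lemma idx : ∀ j w x : Fin 5, (j - (w + x)).val = (j.val + 10 - (w.val + x.val)) % 5 := by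
  decide

lemma lk_sound {x j : Fin 5} {r u v : ℕ} (h : lk x.val r j.val u v = true)
    (hu : (u : ℤ) = V x r j) : (v : ℤ) = V x (r + 1) j := by
  have h1 := Nat.eq_of_beq_eq_true h
  have h2 : (j - (wd r + x)).val = (j.val + 10 - (wN r + x.val)) % 5 := idx j (wd r) x
  rw [V, al, h2, ← hu]
  generalize alN ((j.val + 10 - (wN r + x.val)) % 5) = A at h1 ⊢
  omega

def Ex (x : Fin 5) (y : Bx) : Prop :=
  (y.l0 : ℤ) = V x y.a 0 ∧ (y.l1 : ℤ) = V x y.a 1 ∧ (y.l2 : ℤ) = V x y.a 2 ∧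
    (y.l3 : ℤ) = V x y.a 3 ∧ (y.l4 : ℤ) = V x y.a 4

lemma link_sound {x : Fin 5} {y z : Bx} (h : link x.val y z = true) (hy : Ex x y) :
    z.a = y.a + 1 ∧ Ex x z := by
  simp only [link, Bool.and_eq_true] at h
  obtain ⟨⟨⟨⟨⟨h, h0⟩, h1⟩, h2⟩, h3⟩, h4⟩ := h
  have ha := Nat.eq_of_beq_eq_true h
  obtain ⟨e0, e1, e2, e3, e4⟩ := hy
  refine ⟨ha, ?_⟩
  unfold Ex
  rw [ha]
  exact ⟨lk_sound (j := 0) h0 e0, lk_sound (j := 1) h1 e1, lk_sound (j := 2) h2 e2,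
    lk_sound (j := 3) h3 e3, lk_sound (j := 4) h4 e4⟩

lemma sub_sound {z y : Bx} {v : ℕ → Fin 5 → ℤ} {r : ℕ} (h : sub z y = true) (hz : z.In v r) :
    y.In v r := by
  simp only [sub, Bool.and_eq_true, Nat.ble_eq] at h
  unfold Bx.In at hz ⊢
  omega

lemma chk_sound (x : Fin 5) (t : Tr) : chk x.val t = true → Ex x t.fs →
    Ex x t.ls ∧ ∀ r, t.fs.a ≤ r → r ≤ t.ls.a → t.Cov (V x) r := by
  induction t with
  | lf y =>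
    intro h hy
    refine ⟨hy, fun r h1 h2 => ?_⟩
    simp only [chk, Bool.and_eq_true, Nat.beq_eq] at h
    simp only [Tr.fs, Tr.ls] at h1 h2 hy
    have : r = y.a := by omega
    subst this
    unfold Ex at hy
    unfold Tr.Cov Bx.In
    omega
  | nd y s t ihs iht =>
    intro h hy
    simp only [chk, Bool.and_eq_true] at h
    obtain ⟨⟨⟨⟨hs, ht⟩, ss⟩, st⟩, hl⟩ := h
    obtain ⟨e1, c1⟩ := ihs hs hy
    obtain ⟨ha, e2⟩ := link_sound hl e1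
    obtain ⟨e3, c2⟩ := iht ht e2
    refine ⟨e3, fun r h1 h2 => ?_⟩
    simp only [Tr.fs, Tr.ls] at h1 h2
    by_cases hr : r ≤ s.ls.a
    · exact ⟨sub_sound ss (c1 r h1 hr).bx, Or.inl (c1 r h1 hr)⟩
    · exact ⟨sub_sound st (c2 r (by omega) h2).bx, Or.inr (c2 r (by omega) h2)⟩

lemma ev_eq : ∀ x j : Fin 5, (ev x.val j.val : ℤ)
    = 105717984102 + if x = j then 52858992051 else 0 := by
  decide +kernel

lemma chkAll_sound (x : Fin 5) (t : Tr) (h : chkAll x.val t = true) :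
    (∀ r, r < 801 → t.Cov (V x) r) ∧
      ∀ j, V x 801 j = 105717984102 + if x = j then 52858992051 else 0 := by
  simp only [chkAll, Bool.and_eq_true, Nat.beq_eq] at h
  obtain ⟨⟨⟨⟨⟨⟨⟨hc, ha⟩, h0⟩, h1⟩, h2⟩, h3⟩, h4⟩, hl⟩ := h
  have hx : Ex x t.fs := by
    unfold Ex
    rw [ha, h0, h1, h2, h3, h4]
    simp [V]
  obtain ⟨e1, c1⟩ := chk_sound x t hc hx
  obtain ⟨hb, f0, f1, f2, f3, f4⟩ := link_sound hl e1
  dsimp only at hb f0 f1 f2 f3 f4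
  refine ⟨fun r hr => c1 r (by omega) (by omega), fun j => ?_⟩
  rw [← ev_eq]
  fin_cases j
  exacts [f0.symm, f1.symm, f2.symm, f3.symm, f4.symm]

def tr (x : Fin 5) : Tr :=
  match x with
  | 0 => t0_0_800
  | 1 => t1_0_800
  | 2 => t2_0_800
  | 3 => t3_0_800
  | 4 => t4_0_800

lemma tr_ok (x : Fin 5) : chkAll x.val (tr x) = true :=
  match x with
  | 0 => ok0
  | 1 => ok1
  | 2 => ok2
  | 3 => ok3
  | 4 => ok4

lemma cov (x : Fin 5) (r : ℕ) (h : r < 801) : (tr x).Cov (V x) r :=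
  (chkAll_sound x _ (tr_ok x)).1 r h

lemma V_end (x j : Fin 5) : V x 801 j = 105717984102 + if x = j then 52858992051 else 0 :=
  (chkAll_sound x _ (tr_ok x)).2 j

lemma run000 (r : ℕ) (h : r < 801) : ∃ lo hi, (lo ≤ r ∧ r ≤ hi) ∧
    run lo hi 0 0 0 t0_0_800 t0_0_800 t0_0_800 t0_0_800 = true := by
  by_cases h0 : r ≤ 25
  · exact ⟨0, 25, by omega, s0⟩
  by_cases h1 : r ≤ 50
  · exact ⟨26, 50, by omega, s1⟩
  by_cases h2 : r ≤ 75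
  · exact ⟨51, 75, by omega, s2⟩
  by_cases h3 : r ≤ 100
  · exact ⟨76, 100, by omega, s3⟩
  by_cases h4 : r ≤ 125
  · exact ⟨101, 125, by omega, s4⟩
  by_cases h5 : r ≤ 150
  · exact ⟨126, 150, by omega, s5⟩
  by_cases h6 : r ≤ 175
  · exact ⟨151, 175, by omega, s6⟩
  by_cases h7 : r ≤ 200
  · exact ⟨176, 200, by omega, s7⟩
  by_cases h8 : r ≤ 225
  · exact ⟨201, 225, by omega, s8⟩
  by_cases h9 : r ≤ 250
  · exact ⟨226, 250, by omega, s9⟩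
  by_cases h10 : r ≤ 275
  · exact ⟨251, 275, by omega, s10⟩
  by_cases h11 : r ≤ 300
  · exact ⟨276, 300, by omega, s11⟩
  by_cases h12 : r ≤ 325
  · exact ⟨301, 325, by omega, s12⟩
  by_cases h13 : r ≤ 350
  · exact ⟨326, 350, by omega, s13⟩
  by_cases h14 : r ≤ 375
  · exact ⟨351, 375, by omega, s14⟩
  by_cases h15 : r ≤ 400
  · exact ⟨376, 400, by omega, s15⟩
  by_cases h16 : r ≤ 425
  · exact ⟨401, 425, by omega, s16⟩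
  by_cases h17 : r ≤ 450
  · exact ⟨426, 450, by omega, s17⟩
  by_cases h18 : r ≤ 475
  · exact ⟨451, 475, by omega, s18⟩
  by_cases h19 : r ≤ 500
  · exact ⟨476, 500, by omega, s19⟩
  by_cases h20 : r ≤ 525
  · exact ⟨501, 525, by omega, s20⟩
  by_cases h21 : r ≤ 550
  · exact ⟨526, 550, by omega, s21⟩
  by_cases h22 : r ≤ 575
  · exact ⟨551, 575, by omega, s22⟩
  by_cases h23 : r ≤ 600
  · exact ⟨576, 600, by omega, s23⟩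
  by_cases h24 : r ≤ 625
  · exact ⟨601, 625, by omega, s24⟩
  by_cases h25 : r ≤ 650
  · exact ⟨626, 650, by omega, s25⟩
  by_cases h26 : r ≤ 675
  · exact ⟨651, 675, by omega, s26⟩
  by_cases h27 : r ≤ 700
  · exact ⟨676, 700, by omega, s27⟩
  by_cases h28 : r ≤ 725
  · exact ⟨701, 725, by omega, s28⟩
  by_cases h29 : r ≤ 750
  · exact ⟨726, 750, by omega, s29⟩
  by_cases h30 : r ≤ 775
  · exact ⟨751, 775, by omega, s30⟩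
  exact ⟨776, 800, by omega, s31⟩

lemma run_all (x2 x3 x4 : Fin 5) (r : ℕ) (h : r < 801) : ∃ lo hi, (lo ≤ r ∧ r ≤ hi) ∧
    run lo hi x2.val x3.val x4.val (tr 0) (tr x2) (tr x3) (tr x4) = true :=
  match x2, x3, x4 with
  | 0, 0, 0 => run000 r h
  | 0, 0, 1 => ⟨0, 800, by omega, r001⟩
  | 0, 0, 2 => ⟨0, 800, by omega, r002⟩
  | 0, 0, 3 => ⟨0, 800, by omega, r003⟩
  | 0, 0, 4 => ⟨0, 800, by omega, r004⟩
  | 0, 1, 0 => ⟨0, 800, by omega, r010⟩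
  | 0, 1, 1 => ⟨0, 800, by omega, r011⟩
  | 0, 1, 2 => ⟨0, 800, by omega, r012⟩
  | 0, 1, 3 => ⟨0, 800, by omega, r013⟩
  | 0, 1, 4 => ⟨0, 800, by omega, r014⟩
  | 0, 2, 0 => ⟨0, 800, by omega, r020⟩
  | 0, 2, 1 => ⟨0, 800, by omega, r021⟩
  | 0, 2, 2 => ⟨0, 800, by omega, r022⟩
  | 0, 2, 3 => ⟨0, 800, by omega, r023⟩
  | 0, 2, 4 => ⟨0, 800, by omega, r024⟩
  | 0, 3, 0 => ⟨0, 800, by omega, r030⟩
  | 0, 3, 1 => ⟨0, 800, by omega, r031⟩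
  | 0, 3, 2 => ⟨0, 800, by omega, r032⟩
  | 0, 3, 3 => ⟨0, 800, by omega, r033⟩
  | 0, 3, 4 => ⟨0, 800, by omega, r034⟩
  | 0, 4, 0 => ⟨0, 800, by omega, r040⟩
  | 0, 4, 1 => ⟨0, 800, by omega, r041⟩
  | 0, 4, 2 => ⟨0, 800, by omega, r042⟩
  | 0, 4, 3 => ⟨0, 800, by omega, r043⟩
  | 0, 4, 4 => ⟨0, 800, by omega, r044⟩
  | 1, 0, 0 => ⟨0, 800, by omega, r100⟩
  | 1, 0, 1 => ⟨0, 800, by omega, r101⟩
  | 1, 0, 2 => ⟨0, 800, by omega, r102⟩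
  | 1, 0, 3 => ⟨0, 800, by omega, r103⟩
  | 1, 0, 4 => ⟨0, 800, by omega, r104⟩
  | 1, 1, 0 => ⟨0, 800, by omega, r110⟩
  | 1, 1, 1 => ⟨0, 800, by omega, r111⟩
  | 1, 1, 2 => ⟨0, 800, by omega, r112⟩
  | 1, 1, 3 => ⟨0, 800, by omega, r113⟩
  | 1, 1, 4 => ⟨0, 800, by omega, r114⟩
  | 1, 2, 0 => ⟨0, 800, by omega, r120⟩
  | 1, 2, 1 => ⟨0, 800, by omega, r121⟩
  | 1, 2, 2 => ⟨0, 800, by omega, r122⟩
  | 1, 2, 3 => ⟨0, 800, by omega, r123⟩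
  | 1, 2, 4 => ⟨0, 800, by omega, r124⟩
  | 1, 3, 0 => ⟨0, 800, by omega, r130⟩
  | 1, 3, 1 => ⟨0, 800, by omega, r131⟩
  | 1, 3, 2 => ⟨0, 800, by omega, r132⟩
  | 1, 3, 3 => ⟨0, 800, by omega, r133⟩
  | 1, 3, 4 => ⟨0, 800, by omega, r134⟩
  | 1, 4, 0 => ⟨0, 800, by omega, r140⟩
  | 1, 4, 1 => ⟨0, 800, by omega, r141⟩
  | 1, 4, 2 => ⟨0, 800, by omega, r142⟩
  | 1, 4, 3 => ⟨0, 800, by omega, r143⟩
  | 1, 4, 4 => ⟨0, 800, by omega, r144⟩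
  | 2, 0, 0 => ⟨0, 800, by omega, r200⟩
  | 2, 0, 1 => ⟨0, 800, by omega, r201⟩
  | 2, 0, 2 => ⟨0, 800, by omega, r202⟩
  | 2, 0, 3 => ⟨0, 800, by omega, r203⟩
  | 2, 0, 4 => ⟨0, 800, by omega, r204⟩
  | 2, 1, 0 => ⟨0, 800, by omega, r210⟩
  | 2, 1, 1 => ⟨0, 800, by omega, r211⟩
  | 2, 1, 2 => ⟨0, 800, by omega, r212⟩
  | 2, 1, 3 => ⟨0, 800, by omega, r213⟩
  | 2, 1, 4 => ⟨0, 800, by omega, r214⟩
  | 2, 2, 0 => ⟨0, 800, by omega, r220⟩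
  | 2, 2, 1 => ⟨0, 800, by omega, r221⟩
  | 2, 2, 2 => ⟨0, 800, by omega, r222⟩
  | 2, 2, 3 => ⟨0, 800, by omega, r223⟩
  | 2, 2, 4 => ⟨0, 800, by omega, r224⟩
  | 2, 3, 0 => ⟨0, 800, by omega, r230⟩
  | 2, 3, 1 => ⟨0, 800, by omega, r231⟩
  | 2, 3, 2 => ⟨0, 800, by omega, r232⟩
  | 2, 3, 3 => ⟨0, 800, by omega, r233⟩
  | 2, 3, 4 => ⟨0, 800, by omega, r234⟩
  | 2, 4, 0 => ⟨0, 800, by omega, r240⟩
  | 2, 4, 1 => ⟨0, 800, by omega, r241⟩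
  | 2, 4, 2 => ⟨0, 800, by omega, r242⟩
  | 2, 4, 3 => ⟨0, 800, by omega, r243⟩
  | 2, 4, 4 => ⟨0, 800, by omega, r244⟩
  | 3, 0, 0 => ⟨0, 800, by omega, r300⟩
  | 3, 0, 1 => ⟨0, 800, by omega, r301⟩
  | 3, 0, 2 => ⟨0, 800, by omega, r302⟩
  | 3, 0, 3 => ⟨0, 800, by omega, r303⟩
  | 3, 0, 4 => ⟨0, 800, by omega, r304⟩
  | 3, 1, 0 => ⟨0, 800, by omega, r310⟩
  | 3, 1, 1 => ⟨0, 800, by omega, r311⟩
  | 3, 1, 2 => ⟨0, 800, by omega, r312⟩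
  | 3, 1, 3 => ⟨0, 800, by omega, r313⟩
  | 3, 1, 4 => ⟨0, 800, by omega, r314⟩
  | 3, 2, 0 => ⟨0, 800, by omega, r320⟩
  | 3, 2, 1 => ⟨0, 800, by omega, r321⟩
  | 3, 2, 2 => ⟨0, 800, by omega, r322⟩
  | 3, 2, 3 => ⟨0, 800, by omega, r323⟩
  | 3, 2, 4 => ⟨0, 800, by omega, r324⟩
  | 3, 3, 0 => ⟨0, 800, by omega, r330⟩
  | 3, 3, 1 => ⟨0, 800, by omega, r331⟩
  | 3, 3, 2 => ⟨0, 800, by omega, r332⟩
  | 3, 3, 3 => ⟨0, 800, by omega, r333⟩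
  | 3, 3, 4 => ⟨0, 800, by omega, r334⟩
  | 3, 4, 0 => ⟨0, 800, by omega, r340⟩
  | 3, 4, 1 => ⟨0, 800, by omega, r341⟩
  | 3, 4, 2 => ⟨0, 800, by omega, r342⟩
  | 3, 4, 3 => ⟨0, 800, by omega, r343⟩
  | 3, 4, 4 => ⟨0, 800, by omega, r344⟩
  | 4, 0, 0 => ⟨0, 800, by omega, r400⟩
  | 4, 0, 1 => ⟨0, 800, by omega, r401⟩
  | 4, 0, 2 => ⟨0, 800, by omega, r402⟩
  | 4, 0, 3 => ⟨0, 800, by omega, r403⟩
  | 4, 0, 4 => ⟨0, 800, by omega, r404⟩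
  | 4, 1, 0 => ⟨0, 800, by omega, r410⟩
  | 4, 1, 1 => ⟨0, 800, by omega, r411⟩
  | 4, 1, 2 => ⟨0, 800, by omega, r412⟩
  | 4, 1, 3 => ⟨0, 800, by omega, r413⟩
  | 4, 1, 4 => ⟨0, 800, by omega, r414⟩
  | 4, 2, 0 => ⟨0, 800, by omega, r420⟩
  | 4, 2, 1 => ⟨0, 800, by omega, r421⟩
  | 4, 2, 2 => ⟨0, 800, by omega, r422⟩
  | 4, 2, 3 => ⟨0, 800, by omega, r423⟩
  | 4, 2, 4 => ⟨0, 800, by omega, r424⟩
  | 4, 3, 0 => ⟨0, 800, by omega, r430⟩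
  | 4, 3, 1 => ⟨0, 800, by omega, r431⟩
  | 4, 3, 2 => ⟨0, 800, by omega, r432⟩
  | 4, 3, 3 => ⟨0, 800, by omega, r433⟩
  | 4, 3, 4 => ⟨0, 800, by omega, r434⟩
  | 4, 4, 0 => ⟨0, 800, by omega, r440⟩
  | 4, 4, 1 => ⟨0, 800, by omega, r441⟩
  | 4, 4, 2 => ⟨0, 800, by omega, r442⟩
  | 4, 4, 3 => ⟨0, 800, by omega, r443⟩
  | 4, 4, 4 => ⟨0, 800, by omega, r444⟩

lemma V_shift (x s : Fin 5) (r : ℕ) (j : Fin 5) : V (x - s) r j = V x r (j + s) := by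
  induction r with
  | zero => rfl
  | succ r ih =>
    rw [V, V, ih]
    congr 2
    abel

lemma ind_shift (x s : Fin 5) (e : Bool) (j : Fin 5) : ind (x - s) e (j - s) = ind x e j := by
  simp [ind]

theorem key (x1 x2 x3 x4 : Fin 5) {r1 r2 r3 r4 : ℕ} (h1 : r1 < 801) (h2 : r2 < 801)
    (h3 : r3 < 801) (h4 : r4 < 801) {Z : Fin 5 → ℤ} {m : ℤ}
    (hl : (r1 : ℤ) - 2 * r2 + 2 * r3 - r4 = 801 * m)
    (hZ : ∀ j, V x1 r1 j - 2 * V x2 r2 j + 2 * V x3 r3 j - V x4 r4 j = 52858992051 * Z j) :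
    Good x1 x2 x3 x4 r1 r2 r3 r4 Z := by
  obtain ⟨lo, hi, hr, h⟩ := run_all (x2 - x1) (x3 - x1) (x4 - x1) r2 h2
  obtain ⟨e1, e2, e3, e4, he, ho⟩ := run_sound (Z := fun j => Z (j + x1)) _ _ _ h (cov 0 r1 h1)
    (cov _ r2 h2) (cov _ r3 h3) (cov _ r4 h4) hr hl (fun j => by
      rw [← sub_self x1, V_shift, V_shift, V_shift, V_shift]
      exact hZ _)
  refine ⟨e1, e2, e3, e4, fun j => ?_, ?_⟩
  · have := he (j - x1)
    rw [← sub_self x1, ind_shift, ind_shift, ind_shift, ind_shift] at this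
    simpa using this
  · rw [← sub_self x1] at ho
    simpa only [sub_left_inj] using ho

end Pool.Agent.Lib.MP_9837da_co.Two
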