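import Mathlib

/-! Four colours do not suffice: exhaustive search up to renaming of the colours. -/

namespace Pool.Agent.Lib.MP_9837da_co.Two

open Finset

def gt (ps : List ℕ) (i : ℕ) : ℕ := ps.getD i 0

def viol (ps : List ℕ) (n : ℕ) : Bool :=
  (List.range (n / 2)).any fun m =>
    Nat.beq (Nat.land (gt ps 0 - gt ps (2 * (m + 1))) 16843009) 0 &&
    (List.range (m + 2)).any fun i =>
      Nat.beq (gt ps (2 * (m + 1)) + 2 * gt ps i) (2 * gt ps (i + (m + 1)) + gt ps 0)

noncomputable def dfs (f : ℕ) : List ℕ → ℕ → ℕ → Bool :=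
  Nat.rec (motive := fun _ => List ℕ → ℕ → ℕ → Bool) (fun _ _ _ => false)
    (fun _ ih ps n k => viol ps n ||
      (List.range (min (k + 1) 4)).all fun y =>
        ih ((gt ps 0 + 256 ^ y) :: ps) (n + 1) (max k (y + 1))) f

set_option maxRecDepth 100000 in
theorem dfs_ok : dfs 33 [0] 0 0 = true := by decide +kernel

def cnt (c : ℕ → Fin 4) (t : ℕ) (j : Fin 4) : ℕ := ∑ s ∈ range t, if c s = j then 1 else 0

def pk (c : ℕ → Fin 4) (t : ℕ) : ℕ := ∑ s ∈ range t, 256 ^ (c s).val

def HasV (c : ℕ → Fin 4) : Prop :=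
  ∃ a b d e : ℕ, a ≤ b ∧ b ≤ d ∧ d ≤ e ∧ a < e ∧
    ∀ j, cnt c a j + 2 * cnt c d j = 2 * cnt c b j + cnt c e j

lemma cnt_le (c : ℕ → Fin 4) (t : ℕ) (j : Fin 4) : cnt c t j ≤ t := by
  induction t with
  | zero => simp [cnt]
  | succ t ih =>
    unfold cnt at ih ⊢
    rw [sum_range_succ]
    split_ifs <;> omega

lemma pow_eq : ∀ y : Fin 4, 256 ^ y.val = (if y = 0 then 1 else 0) + 256 * (if y = 1 then 1 else 0)
    + 65536 * (if y = 2 then 1 else 0) + 16777216 * (if y = 3 then 1 else 0) := by
  decide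

lemma pk_eq (c : ℕ → Fin 4) (t : ℕ) :
    pk c t = cnt c t 0 + 256 * cnt c t 1 + 65536 * cnt c t 2 + 16777216 * cnt c t 3 := by
  simp only [pk, cnt, pow_eq, sum_add_distrib, mul_sum]

lemma viol_sound {c : ℕ → Fin 4} {ps : List ℕ} {n : ℕ} (hn : n ≤ 40)
    (hps : ∀ i, i ≤ n → gt ps i = pk c (n - i)) (h : viol ps n = true) : HasV c := by
  simp only [viol, List.any_eq_true, List.mem_range, Bool.and_eq_true, Nat.beq_eq] at h
  obtain ⟨m, hm, -, i, hi, h⟩ := h
  rw [hps _ (by omega), hps _ (by omega), hps _ (by omega), hps _ (by omega)] at h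
  refine ⟨n - 2 * (m + 1), n - (i + (m + 1)), n - i, n - 0, by omega, by omega, by omega, by omega,
    ?_⟩
  simp only [pk_eq] at h
  have ba := fun j => (cnt_le c (n - 2 * (m + 1)) j).trans ((Nat.sub_le _ _).trans hn)
  have bb := fun j => (cnt_le c (n - (i + (m + 1))) j).trans ((Nat.sub_le _ _).trans hn)
  have bc := fun j => (cnt_le c (n - i) j).trans ((Nat.sub_le _ _).trans hn)
  have bd := fun j => (cnt_le c (n - 0) j).trans ((Nat.sub_le _ _).trans hn)
  generalize cnt c (n - 2 * (m + 1)) = A at *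
  generalize cnt c (n - (i + (m + 1))) = B at *
  generalize cnt c (n - i) = C at *
  generalize cnt c (n - 0) = D at *
  have a0 := ba 0; have a1 := ba 1; have a2 := ba 2
  have b0 := bb 0; have b1 := bb 1; have b2 := bb 2
  have c0 := bc 0; have c1 := bc 1; have c2 := bc 2
  have d0 := bd 0; have d1 := bd 1; have d2 := bd 2
  have e0 : A 0 + 2 * C 0 = 2 * B 0 + D 0 := by omega
  have e1 : A 1 + 2 * C 1 = 2 * B 1 + D 1 := by omega
  have e2 : A 2 + 2 * C 2 = 2 * B 2 + D 2 := by omega
  have e3 : A 3 + 2 * C 3 = 2 * B 3 + D 3 := by omega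
  intro j
  fin_cases j
  exacts [e0, e1, e2, e3]

lemma HasV.of_perm {c : ℕ → Fin 4} (σ : Equiv.Perm (Fin 4)) (h : HasV (fun s => σ (c s))) :
    HasV c := by
  obtain ⟨a, b, d, e, h1, h2, h3, h4, h⟩ := h
  refine ⟨a, b, d, e, h1, h2, h3, h4, fun j => ?_⟩
  simpa [cnt] using h (σ j)

lemma dfs_sound (f : ℕ) : ∀ (ps : List ℕ) (n k : ℕ) (c : ℕ → Fin 4), n + f ≤ 40 →
    (∀ i, i ≤ n → gt ps i = pk c (n - i)) → (∀ s, s < n → (c s).val < k) →
    dfs f ps n k = true → HasV c := by
  induction f with
  | zero => intro ps n k c _ _ _ h; exact absurd h (by simp [dfs])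
  | succ f ih =>
    intro ps n k c hn hps hk h
    have h' : (viol ps n || (List.range (min (k + 1) 4)).all fun y =>
        dfs f ((gt ps 0 + 256 ^ y) :: ps) (n + 1) (max k (y + 1))) = true := h
    rw [Bool.or_eq_true] at h'
    rcases h' with h' | h'
    · exact viol_sound (by omega) hps h'
    simp only [List.all_eq_true, List.mem_range] at h'
    have main : ∀ c' : ℕ → Fin 4, (∀ s, s < n → c' s = c s) → (c' n).val ≤ k → HasV c' := by
      intro c' hc' hy
      have hpk : ∀ t, t ≤ n → pk c' t = pk c t := fun t ht =>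
        sum_congr rfl fun s hs => by rw [hc' s (by have := mem_range.mp hs; omega)]
      refine ih _ (n + 1) _ c' (by omega) ?_ ?_ (h' (c' n).val (by have := (c' n).isLt; omega))
      · intro i hi
        cases i with
        | zero =>
          have := hps 0 (by omega)
          simp only [gt, List.getD_cons_zero, Nat.sub_zero] at this ⊢
          rw [this, pk, pk, sum_range_succ]
          congr 1
          exact (hpk n le_rfl).symm
        | succ i =>
          have := hps i (by omega)
          simp only [gt, List.getD_cons_succ] at this ⊢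
          rw [this, Nat.add_sub_add_right, hpk _ (Nat.sub_le _ _)]
      · intro s hs
        by_cases e : s = n
        · subst e; omega
        · have := hk s (by omega)
          rw [hc' s (by omega)]
          omega
    by_cases hy : (c n).val ≤ k
    · exact main c (fun _ _ => rfl) hy
    · have hk4 : k < 4 := by have := (c n).isLt; omega
      refine HasV.of_perm (Equiv.swap (c n) ⟨k, hk4⟩) (main _ (fun s hs => ?_) (by simp))
      have := hk s hs
      apply Equiv.swap_apply_of_ne_of_ne
      · intro e; rw [e] at this; omega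
      · intro e; rw [e] at this; simp at this

theorem hasV (c : ℕ → Fin 4) : HasV c :=
  dfs_sound 33 [0] 0 0 c (by norm_num) (fun i hi => by
    have : i = 0 := by omega
    subst this
    simp [gt, pk]) (fun s hs => absurd hs (by omega)) dfs_ok

end Pool.Agent.Lib.MP_9837da_co.Two
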