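import Mathlib
import Pool.Agent.Lib.MP_9837da_co.TwoKey

/-! The bi-infinite fixed point of the morphism has no fair splitting with two cuts. -/

namespace Pool.Agent.Lib.MP_9837da_co.Two

open Finset

lemma exists_pre (f : ℤ → ℤ) : ∃ F : ℤ → ℤ, ∀ n, F (n + 1) = F n + f n := by
  refine ⟨fun n => ∑ i ∈ range n.toNat, f i - ∑ i ∈ range (-n).toNat, f (-(i : ℤ) - 1), fun n => ?_⟩
  by_cases hn : 0 ≤ n
  · obtain ⟨m, rfl⟩ := Int.eq_ofNat_of_zero_le hn
    have e1 : ((m : ℤ) + 1).toNat = m + 1 := by omega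
    have e2 : (-((m : ℤ) + 1)).toNat = 0 := by omega
    have e3 : (-(m : ℤ)).toNat = 0 := by omega
    simp only [e1, e2, e3, Int.toNat_natCast, sum_range_succ, range_zero, sum_empty]
    ring
  · obtain ⟨m, rfl⟩ : ∃ m : ℕ, n = -(m : ℤ) - 1 := ⟨(-n - 1).toNat, by omega⟩
    have e1 : (-(m : ℤ) - 1 + 1).toNat = 0 := by omega
    have e2 : (-(-(m : ℤ) - 1 + 1)).toNat = m := by omega
    have e3 : (-(m : ℤ) - 1).toNat = 0 := by omega
    have e4 : (-(-(m : ℤ) - 1)).toNat = m + 1 := by omega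
    simp only [e1, e2, e3, e4, sum_range_succ, range_zero, sum_empty]
    ring

lemma const_of_succ {F : ℤ → ℤ} (h : ∀ n, F (n + 1) = F n) (n : ℤ) : F n = F 0 := by
  induction n using Int.induction_on with
  | zero => rfl
  | succ i ih => rw [h, ih]
  | pred i ih =>
    have := h (-(i : ℤ) - 1)
    rw [sub_add_cancel] at this
    rw [← this, ih]

/-- `S` is a running count of the colouring `c`. -/
def Pre {k : ℕ} (c : ℤ → Fin k) (S : ℤ → Fin k → ℤ) : Prop :=
  ∀ n j, S (n + 1) j = S n j + if c n = j then 1 else 0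

lemma exists_Pre {k : ℕ} (c : ℤ → Fin k) : ∃ S, Pre c S := by
  choose F hF using fun j : Fin k => exists_pre (fun n => if c n = j then 1 else 0)
  exact ⟨fun n j => F j n, fun n j => hF j n⟩

def Viol {k : ℕ} (S : ℤ → Fin k → ℤ) (a b c d : ℤ) : Prop :=
  ∀ j, S a j - 2 * S b j + 2 * S c j - S d j = 0

def Free {k : ℕ} (S : ℤ → Fin k → ℤ) (A B : ℤ) : Prop :=
  ∀ a b c d, A ≤ a → a ≤ b → b ≤ c → c ≤ d → d ≤ B → a < d → ¬ Viol S a b c d

lemma Pre.sum {k : ℕ} {c : ℤ → Fin k} {S : ℤ → Fin k → ℤ} (h : Pre c S) (n : ℤ) :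
    ∑ j, S n j = n + ∑ j, S 0 j := by
  have := const_of_succ (F := fun n => ∑ j, S n j - n) (fun n => by
    simp only [h n, sum_add_distrib, sum_ite_eq, mem_univ, if_true]
    ring) n
  linarith

lemma Viol.len {k : ℕ} {u : ℤ → Fin k} {S : ℤ → Fin k → ℤ} (h : Pre u S) {a b c d : ℤ}
    (hv : Viol S a b c d) : a - 2 * b + 2 * c - d = 0 := by
  have h1 : ∑ j, (S a j - 2 * S b j + 2 * S c j - S d j) = 0 := sum_eq_zero fun j _ => hv j
  simp only [sum_add_distrib, sum_sub_distrib, ← mul_sum, h.sum a, h.sum b, h.sum c,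
    h.sum d] at h1
  linarith

def uu (n : ℤ) : Fin 5 :=
  if n = 0 then 0 else if n = -1 then 1 else wd (n % 801).toNat + uu (n / 801)
termination_by n.natAbs
decreasing_by omega

lemma wd_zero : wd 0 = 0 := by decide +kernel

lemma wd_last : wd 800 = 0 := by decide +kernel

lemma uu_eq (q : ℤ) (r : ℕ) (hr : r < 801) : uu (801 * q + r) = wd r + uu q := by
  by_cases h0 : 801 * q + r = 0
  · have hq : q = 0 := by omega
    have hr : r = 0 := by omega
    subst hq hr
    simp [wd_zero]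
  by_cases h1 : 801 * q + r = -1
  · have hq : q = -1 := by omega
    have hr : r = 800 := by omega
    subst hq hr
    rw [h1, wd_last, zero_add]
  rw [uu, if_neg h0, if_neg h1]
  have e1 : ((801 * q + r) % 801).toNat = r := by omega
  have e2 : (801 * q + r) / 801 = q := by omega
  rw [e1, e2]

def Lam (S : ℤ → Fin 5 → ℤ) (n : ℤ) (j : Fin 5) : ℤ := ∑ i, al (j - i) * S n i

lemma Lam_succ {S : ℤ → Fin 5 → ℤ} (h : Pre uu S) (n : ℤ) (j : Fin 5) :
    Lam S (n + 1) j = Lam S n j + al (j - uu n) := by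
  simp only [Lam, h n, mul_add, sum_add_distrib, mul_ite, mul_one, mul_zero, sum_ite_eq, mem_univ,
    if_true]

lemma Lam_block {S : ℤ → Fin 5 → ℤ} (h : Pre uu S) (q : ℤ) (j : Fin 5) (r : ℕ) (hr : r ≤ 801) :
    Lam S (801 * q + r) j = Lam S (801 * q) j + V (uu q) r j - 105717984102 := by
  induction r with
  | zero => simp [V]
  | succ r ih =>
    rw [Nat.cast_succ, ← add_assoc, Lam_succ h, ih (by omega), uu_eq q r (by omega), V]
    ring

lemma Lam_eq {S : ℤ → Fin 5 → ℤ} (h : Pre uu S) (q : ℤ) (j : Fin 5) (r : ℕ) (hr : r ≤ 801) :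
    Lam S (801 * q + r) j = (Lam S 0 j - 52858992051 * S 0 j - 105717984102)
      + 52858992051 * S q j + V (uu q) r j := by
  have := const_of_succ (F := fun q => Lam S (801 * q) j - 52858992051 * S q j) (fun q => by
    have h1 := Lam_block h q j 801 le_rfl
    have e : 801 * (q + 1) = 801 * q + ((801 : ℕ) : ℤ) := by push_cast; ring
    rw [e, h1, V_end, h q j]
    split_ifs <;> ring) q
  rw [Lam_block h q j r hr]
  simp only [mul_zero] at this
  linarith

set_option synthInstance.maxSize 100000 in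
lemma okE_spec : ∀ s12 s23 s34 s14 q e1 e2 e3 e4 : Bool,
    okE s12 s23 s34 s14 q e1 e2 e3 e4 = true →
    (s12 = true → e1.toNat ≤ e2.toNat) ∧ (s23 = true → e2.toNat ≤ e3.toNat) ∧
    (s34 = true → e3.toNat ≤ e4.toNat) ∧
    (s12 = true → s23 = true → s34 = true → s14 = true → e1.toNat ≠ e4.toNat) ∧
    (e1.toNat = 1 → e4.toNat = 0 → e3.toNat ≤ e2.toNat → (e1.toNat = e2.toNat → s12 = true) →
      (e2.toNat = e3.toNat → s23 = true) → (e3.toNat = e4.toNat → s34 = true) → q = true) := by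
  decide +kernel

lemma Pre.ind {S : ℤ → Fin 5 → ℤ} (h : Pre uu S) (q : ℤ) (e : Bool) (j : Fin 5) :
    S (q + e.toNat) j = S q j + ind (uu q) e j := by
  cases e
  · simp [Two.ind]
  · simp [Two.ind, h q j]

lemma step {S : ℤ → Fin 5 → ℤ} (h : Pre uu S) {A B : ℤ} (hf : Free S A B) :
    Free S (801 * A) (801 * B - 1) := by
  intro a b c d hA hab hbc hcd hB had hv
  obtain ⟨q1, r1, l1, rfl⟩ : ∃ (q : ℤ) (r : ℕ), r < 801 ∧ a = 801 * q + r :=
    ⟨a / 801, (a % 801).toNat, by omega, by omega⟩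
  obtain ⟨q2, r2, l2, rfl⟩ : ∃ (q : ℤ) (r : ℕ), r < 801 ∧ b = 801 * q + r :=
    ⟨b / 801, (b % 801).toNat, by omega, by omega⟩
  obtain ⟨q3, r3, l3, rfl⟩ : ∃ (q : ℤ) (r : ℕ), r < 801 ∧ c = 801 * q + r :=
    ⟨c / 801, (c % 801).toNat, by omega, by omega⟩
  obtain ⟨q4, r4, l4, rfl⟩ : ∃ (q : ℤ) (r : ℕ), r < 801 ∧ d = 801 * q + r :=
    ⟨d / 801, (d % 801).toNat, by omega, by omega⟩
  have hlen := hv.len h
  have hZ : ∀ j, V (uu q1) r1 j - 2 * V (uu q2) r2 j + 2 * V (uu q3) r3 j - V (uu q4) r4 j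
      = 52858992051 * -(S q1 j - 2 * S q2 j + 2 * S q3 j - S q4 j) := by
    intro j
    have h0 : Lam S (801 * q1 + r1) j - 2 * Lam S (801 * q2 + r2) j + 2 * Lam S (801 * q3 + r3) j
        - Lam S (801 * q4 + r4) j = 0 := by
      simp only [Lam, mul_sum, ← sum_sub_distrib, ← sum_add_distrib]
      refine sum_eq_zero fun i _ => ?_
      have := hv i
      linear_combination al (j - i) * this
    rw [Lam_eq h _ _ _ l1.le, Lam_eq h _ _ _ l2.le, Lam_eq h _ _ _ l3.le,
      Lam_eq h _ _ _ l4.le] at h0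
    linarith
  obtain ⟨e1, e2, e3, e4, he, ho⟩ := key (uu q1) (uu q2) (uu q3) (uu q4) l1 l2 l3 l4
    (m := -(q1 - 2 * q2 + 2 * q3 - q4)) (by linarith) hZ
  obtain ⟨m1, m2, m3, hA', hB'⟩ := okE_spec _ _ _ _ _ _ _ _ _ ho
  simp only [decide_eq_true_eq] at m1 m2 m3 hA' hB'
  have b1 := Bool.toNat_le e1
  have b2 := Bool.toNat_le e2
  have b3 := Bool.toNat_le e3
  have b4 := Bool.toNat_le e4
  have s12 : q1 = q2 → uu q1 = uu q2 ∧ r1 ≤ r2 := fun e => ⟨by rw [e], by omega⟩
  have s23 : q2 = q3 → uu q2 = uu q3 ∧ r2 ≤ r3 := fun e => ⟨by rw [e], by omega⟩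
  have s34 : q3 = q4 → uu q3 = uu q4 ∧ r3 ≤ r4 := fun e => ⟨by rw [e], by omega⟩
  have o12 : q1 + e1.toNat ≤ q2 + e2.toNat := by
    by_cases e : q1 = q2
    · have := m1 (s12 e); omega
    · omega
  have o23 : q2 + e2.toNat ≤ q3 + e3.toNat := by
    by_cases e : q2 = q3
    · have := m2 (s23 e); omega
    · omega
  have o34 : q3 + e3.toNat ≤ q4 + e4.toNat := by
    by_cases e : q3 = q4
    · have := m3 (s34 e); omega
    · omega
  by_cases hlt : q1 + e1.toNat < q4 + e4.toNat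
  · refine hf _ _ _ _ (by omega) o12 o23 o34 (by omega) hlt fun j => ?_
    rw [h.ind, h.ind, h.ind, h.ind]
    have := he j
    linarith
  by_cases e : q1 = q4
  · exact hA' (s12 (by omega)) (s23 (by omega)) (s34 (by omega)) (by omega) (by omega)
  have hx : uu q1 = uu q4 := hB' (by omega) (by omega) (by omega) (fun _ => s12 (by omega))
    (fun _ => s23 (by omega)) (fun _ => s34 (by omega))
  have e4' : q4 = q1 + 1 := by omega
  refine hf q1 q1 (q1 + 1) (q1 + 1 + 1) (by omega) le_rfl (by omega) (by omega) (by omega)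
    (by omega) fun j => ?_
  rw [h (q1 + 1) j, h q1 j, ← e4', ← hx]
  ring

lemma free_base {S : ℤ → Fin 5 → ℤ} (h : Pre uu S) : Free S (-1) 1 := by
  intro a b c d hA hab hbc hcd hB had hv
  have hlen := hv.len h
  have ha : a = -1 := by omega
  have hd : d = 1 := by omega
  subst ha hd
  have u0 : uu 0 = 0 := by rw [uu]; simp
  have u1 : uu (-1) = 1 := by rw [uu]; simp
  have h0 := h 0 0
  have h1 := h (-1) 0
  rw [u0] at h0
  rw [u1] at h1
  simp at h0 h1
  have hv0 := hv 0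
  have : (b = -1 ∧ c = 0) ∨ (b = 0 ∧ c = 1) := by omega
  rcases this with ⟨rfl, rfl⟩ | ⟨rfl, rfl⟩ <;> omega

lemma free_all {S : ℤ → Fin 5 → ℤ} (h : Pre uu S) (n : ℕ) : Free S (-(n + 1)) (n + 1) := by
  induction n with
  | zero => simpa using free_base h
  | succ n ih =>
    intro a b c d hA hab hbc hcd hB had
    exact step h ih a b c d (by push_cast at hA; omega) hab hbc hcd (by push_cast at hB; omega) had

theorem no_viol {S : ℤ → Fin 5 → ℤ} (h : Pre uu S) {a b c d : ℤ} (hab : a ≤ b) (hbc : b ≤ c)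
    (hcd : c ≤ d) (had : a < d) : ¬ Viol S a b c d :=
  free_all h (a.natAbs + d.natAbs) a b c d (by omega) hab hbc hcd (by omega) had

end Pool.Agent.Lib.MP_9837da_co.Two
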