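import Mathlib
import Pool.Agent.Lib.MP_9837da_co.Split
import Pool.Agent.Lib.MP_9837da_co.TwoWord
import Pool.Agent.Lib.MP_9837da_co.TwoLow

/-! `g(2, 1) = 5`. -/

namespace Pool.Agent.Lib.MP_9837da_co.Two

open Finset

lemma sum_Ico_pre {f F : ℤ → ℤ} (h : ∀ n, F (n + 1) = F n + f n) {α β : ℤ} (hab : α ≤ β) :
    ∑ t ∈ Ico α β, f t = F β - F α := by
  induction β, hab using Int.le_induction with
  | base => simp
  | succ n hn ih =>
    rw [← Finset.insert_Ico_right_eq_Ico_add_one hn, sum_insert (by simp), ih, h]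
    ring

lemma sum_cube1 (f : (Fin 1 → ℤ) → ℤ) (a : Fin 1 → ℤ) (n : ℕ) :
    ∑ x ∈ cube a n, f x = ∑ t ∈ Ico (a 0 + 1) (a 0 + 1 + n), f (fun _ => t) := by
  apply Finset.sum_nbij' (fun x : Fin 1 → ℤ => x 0) (fun t : ℤ => fun _ => t)
  · intro x hx
    simp only [cube, Fintype.mem_piFinset, Fin.forall_fin_one, mem_Icc] at hx
    simp only [mem_Ico]
    omega
  · intro t ht
    simp only [mem_Ico] at ht
    simp only [cube, Fintype.mem_piFinset, Fin.forall_fin_one, mem_Icc]
    omega
  · intro x _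
    funext i
    rw [Subsingleton.elim i 0]
  · intro t _
    rfl
  · intro x _
    congr 1
    funext i
    rw [Subsingleton.elim i 0]

lemma seg {k : ℕ} {c : ℤ → Fin k} {S : ℤ → Fin k → ℤ} (h : Pre c S) (P : ℤ → Bool) (j : Fin k)
    {G : ℤ → ℤ} (hG : ∀ n, G (n + 1) = G n + if P n = true then (if c n = j then 1 else 0)
      else -(if c n = j then 1 else 0)) {α β : ℤ} (hab : α ≤ β) (s : Bool)
    (hs : ∀ t, α ≤ t → t < β → P t = s) :
    G β - G α = if s = true then S β j - S α j else -(S β j - S α j) := by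
  rw [← sum_Ico_pre hG hab, ← sum_Ico_pre (F := fun n => S n j) (fun n => h n j) hab]
  cases s
  · rw [if_neg (by simp), ← sum_neg_distrib]
    refine sum_congr rfl fun t ht => ?_
    rw [mem_Ico] at ht
    simp [hs t ht.1 ht.2]
  · rw [if_pos rfl]
    refine sum_congr rfl fun t ht => ?_
    rw [mem_Ico] at ht
    simp [hs t ht.1 ht.2]

lemma mem_cube1 {a : Fin 1 → ℤ} {n : ℕ} {t : ℤ} (h1 : a 0 + 1 ≤ t) (h2 : t < a 0 + 1 + n) :
    (fun _ => t) ∈ cube a n := by
  simp only [cube, Fintype.mem_piFinset, Fin.forall_fin_one, mem_Icc]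
  omega

lemma viol_of_fair {k : ℕ} {C : (Fin 1 → ℤ) → Fin k} {S : ℤ → Fin k → ℤ}
    (h : Pre (fun t => C fun _ => t) S) {a : Fin 1 → ℤ} {n : ℕ} (hn : 1 ≤ n)
    (hf : HasFairSplitting C (cube a n) 2) :
    ∃ b c, a 0 + 1 ≤ b ∧ b ≤ c ∧ c ≤ a 0 + 1 + n ∧ Viol S (a 0 + 1) b c (a 0 + 1 + n) := by
  obtain ⟨cuts, part, hcard, hpart, hfair⟩ := hf
  rw [card_eq_iff_signed] at hfair
  obtain ⟨m1, m2, hm, hc⟩ : ∃ m1 m2 : ℤ, m1 ≤ m2 ∧ ∀ p ∈ cuts, p.2 = m1 ∨ p.2 = m2 := by
    have : cuts.card = 0 ∨ cuts.card = 1 ∨ cuts.card = 2 := by omega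
    rcases this with h0 | h1 | h2
    · rw [card_eq_zero] at h0
      exact ⟨0, 0, le_rfl, by simp [h0]⟩
    · obtain ⟨p, rfl⟩ := card_eq_one.mp h1
      exact ⟨p.2, p.2, le_rfl, by simp⟩
    · obtain ⟨p, q, -, rfl⟩ := card_eq_two.mp h2
      rcases le_total p.2 q.2 with hh | hh
      · exact ⟨p.2, q.2, hh, by simp⟩
      · exact ⟨q.2, p.2, hh, by simp⟩
  set α := a 0 + 1 with hα
  set δ := α + n with hδ
  have hP : ∀ t t' : ℤ, α ≤ t → t < δ → α ≤ t' → t' < δ → (t ≤ m1 ↔ t' ≤ m1) →
      (t ≤ m2 ↔ t' ≤ m2) → part (fun _ => t) = part (fun _ => t') := by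
    intro t t' h1 h2 h3 h4 e1 e2
    refine hpart _ (mem_cube1 h1 h2) _ (mem_cube1 h3 h4) fun p hp => ?_
    rcases hc p hp with e | e <;> rw [e] <;> assumption
  obtain ⟨β, hβ⟩ : ∃ β, β = max α (min δ (m1 + 1)) := ⟨_, rfl⟩
  obtain ⟨γ, hγ⟩ : ∃ γ, γ = max α (min δ (m2 + 1)) := ⟨_, rfl⟩
  have key : ∀ j, (if part (fun _ => α) = true then S β j - S α j else -(S β j - S α j))
      + (if part (fun _ => β) = true then S γ j - S β j else -(S γ j - S β j))
      + (if part (fun _ => γ) = true then S δ j - S γ j else -(S δ j - S γ j)) = 0 := by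
    intro j
    obtain ⟨G, hG⟩ := exists_pre (fun t => if part (fun _ => t) = true then
      (if C (fun _ => t) = j then (1 : ℤ) else 0) else -(if C (fun _ => t) = j then 1 else 0))
    have h0 := hfair (fun i => if i = j then 1 else 0)
    rw [sum_cube1, sum_Ico_pre hG (by omega)] at h0
    rw [← seg h (fun t => part fun _ => t) j hG (α := α) (β := β) (by omega) _
        (fun t h1 h2 => hP _ _ (by omega) (by omega) (by omega) (by omega) (by omega) (by omega)),
      ← seg h (fun t => part fun _ => t) j hG (α := β) (β := γ) (by omega) _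
        (fun t h1 h2 => hP _ _ (by omega) (by omega) (by omega) (by omega) (by omega) (by omega)),
      ← seg h (fun t => part fun _ => t) j hG (α := γ) (β := δ) (by omega) _
        (fun t h1 h2 => hP _ _ (by omega) (by omega) (by omega) (by omega) (by omega) (by omega))]
    linarith
  have hall : ¬ ∀ j, S δ j - S α j = 0 := by
    intro hh
    have h1 : ∑ j, (S δ j - S α j) = 0 := sum_eq_zero fun j _ => hh j
    rw [sum_sub_distrib, h.sum δ, h.sum α] at h1
    omega
  cases h1 : part (fun _ => α) <;> cases h2 : part (fun _ => β) <;>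
    cases h3 : part (fun _ => γ) <;> simp only [h1, h2, h3, if_true, Bool.false_eq_true,
      if_false] at key
  · exact absurd (fun j => by linarith [key j]) hall
  · exact ⟨α, γ, le_rfl, by omega, by omega, fun j => by linarith [key j]⟩
  · exact ⟨β, γ, by omega, by omega, by omega, fun j => by linarith [key j]⟩
  · exact ⟨α, β, le_rfl, by omega, by omega, fun j => by linarith [key j]⟩
  · exact ⟨α, β, le_rfl, by omega, by omega, fun j => by linarith [key j]⟩
  · exact ⟨β, γ, by omega, by omega, by omega, fun j => by linarith [key j]⟩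
  · exact ⟨α, γ, le_rfl, by omega, by omega, fun j => by linarith [key j]⟩
  · exact absurd (fun j => by linarith [key j]) hall

lemma fair_of_viol {k : ℕ} {C : (Fin 1 → ℤ) → Fin k} {S : ℤ → Fin k → ℤ}
    (h : Pre (fun t => C fun _ => t) S) {α β γ : ℤ} {n : ℕ} (h1 : α ≤ β) (h2 : β ≤ γ)
    (h3 : γ ≤ α + n) (hv : Viol S α β γ (α + n)) :
    HasFairSplitting C (cube (fun _ => α - 1) n) 2 := by
  refine ⟨{(0, β - 1), (0, γ - 1)}, fun x => decide (β ≤ x 0 ∧ x 0 < γ), card_le_two, ?_, ?_⟩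
  · intro x _ y _ hxy
    have e1 := hxy (0, β - 1) (by simp)
    have e2 := hxy (0, γ - 1) (by simp)
    simp only [decide_eq_decide] at e1 e2 ⊢
    omega
  · rw [card_eq_iff_signed]
    have key : ∀ j : Fin k, ∑ x ∈ cube (fun _ : Fin 1 => α - 1) n,
        (if decide (β ≤ x 0 ∧ x 0 < γ) = true then (if C x = j then (1 : ℤ) else 0)
          else -(if C x = j then 1 else 0)) = 0 := by
      intro j
      obtain ⟨G, hG⟩ := exists_pre (fun t => if decide (β ≤ t ∧ t < γ) = true then
        (if C (fun _ => t) = j then (1 : ℤ) else 0) else -(if C (fun _ => t) = j then 1 else 0))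
      rw [sum_cube1, sub_add_cancel, sum_Ico_pre hG (by omega)]
      have e1 := seg h (fun t => decide (β ≤ t ∧ t < γ)) j hG h1 false
        (fun t _ _ => by simp only [decide_eq_false_iff_not]; omega)
      have e2 := seg h (fun t => decide (β ≤ t ∧ t < γ)) j hG h2 true
        (fun t _ _ => by simp only [decide_eq_true_eq]; omega)
      have e3 := seg h (fun t => decide (β ≤ t ∧ t < γ)) j hG h3 false
        (fun t _ _ => by simp only [decide_eq_false_iff_not]; omega)
      simp only [if_true, Bool.false_eq_true, if_false] at e1 e2 e3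
      linarith [hv j]
    intro F
    have e : ∀ x : Fin 1 → ℤ, (if decide (β ≤ x 0 ∧ x 0 < γ) = true then F (C x) else -F (C x))
        = ∑ j : Fin k, F j * (if decide (β ≤ x 0 ∧ x 0 < γ) = true then
          (if C x = j then (1 : ℤ) else 0) else -(if C x = j then 1 else 0)) := by
      intro x
      cases decide (β ≤ x 0 ∧ x 0 < γ) <;> simp
    simp_rw [e]
    rw [sum_comm]
    refine sum_eq_zero fun j _ => ?_
    rw [← mul_sum, key j, mul_zero]

theorem avoidable_five : Avoidable 2 1 5 := by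
  refine ⟨fun x => uu (x 0), fun a n hn hf => ?_⟩
  obtain ⟨S, hS⟩ := exists_Pre uu
  obtain ⟨b, c, h1, h2, h3, hv⟩ := viol_of_fair (C := fun x => uu (x 0)) hS hn hf
  exact no_viol hS h1 h2 h3 (by omega) hv

lemma pre_cnt {c : ℤ → Fin 4} {S : ℤ → Fin 4 → ℤ} (h : Pre c S) (t : ℕ) (j : Fin 4) :
    S t j = S 0 j + cnt (fun s => c s) t j := by
  induction t with
  | zero => simp [cnt]
  | succ t ih =>
    unfold cnt at ih ⊢
    rw [Nat.cast_succ, h, ih, sum_range_succ]
    push_cast
    ring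

theorem not_avoidable {k : ℕ} (hk : k ≤ 4) : ¬ Avoidable 2 1 k := by
  rintro ⟨C, hC⟩
  obtain ⟨S, hS⟩ := exists_Pre (fun t : ℤ => C fun _ => t)
  obtain ⟨T, hT⟩ := exists_Pre (fun t : ℤ => Fin.castLE hk (C fun _ => t))
  obtain ⟨a, b, c, d, h1, h2, h3, h4, hv⟩ := hasV (fun s : ℕ => Fin.castLE hk (C fun _ => s))
  have hST : ∀ (n : ℤ) (j : Fin k), S n j = T n (Fin.castLE hk j) + (S 0 j - T 0 (Fin.castLE hk j)) := by
    intro n j
    have := const_of_succ (F := fun n => S n j - T n (Fin.castLE hk j)) (fun n => by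
      rw [hS, hT]
      simp only [Fin.castLE_inj]
      ring) n
    linarith
  refine hC (fun _ => (a : ℤ) - 1) (d - a) (by omega)
    (fair_of_viol hS (β := b) (γ := c) (by omega) (by omega) (by omega) fun j => ?_)
  have e : (a : ℤ) + ((d - a : ℕ) : ℤ) = d := by omega
  rw [e, hST a, hST b, hST c, hST d, pre_cnt hT a, pre_cnt hT b, pre_cnt hT c, pre_cnt hT d]
  have := congrArg (Nat.cast : ℕ → ℤ) (hv (Fin.castLE hk j))
  push_cast at this
  linarith

theorem g_two_one : g 2 1 = 5 := by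
  apply le_antisymm
  · exact iInf₂_le_of_le 5 avoidable_five (by simp)
  · refine le_iInf₂ fun k hk => ?_
    by_contra hlt
    have : k ≤ 4 := by
      have h5 : (k : ℕ∞) < (5 : ℕ) := not_le.mp (by simpa using hlt)
      have : k < 5 := by exact_mod_cast h5
      omega
    exact not_avoidable this hk

end Pool.Agent.Lib.MP_9837da_co.Two
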